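import Pool.Agent.Run7.h25.HA.Fidx

/-!
# Maximal Haagerup subgroups with two transvections with the same axis
-/

set_option autoImplicit false

namespace Pool.Agent.Run7.h25.HA

open Matrix Pool.Agent.Run7.h25.TV Pool.Agent.Helper460_CSP

theorem max_axis {H : Subgroup SL3} (hH : HasHaagerup H)
    (hmax : ∀ K : Subgroup SL3, H ≤ K → HasHaagerup K → K = H) {v φ y ψ θ : Fin 3 → ℤ}
    (hφ : φ ≠ 0) (hψ : ψ ≠ 0) (T1 : Tr H v φ) (T2 : Tr H y ψ) (hp : Par φ ψ) (hvy : ¬ Par v y)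
    (hθ : θ ≠ 0) (hφθ : Par φ θ) :
    (∀ k ∈ H, cv k θ = θ ∨ cv k θ = -θ) ∧ ∀ t : Fin 3 → ℤ, θ ⬝ᵥ t = 0 → Tr H t θ := by
  have hψθ : Par ψ θ := par_trans hφ hp hφθ
  have red : ∀ {v φ : Fin 3 → ℤ}, φ ≠ 0 → Par φ θ → Tr H v φ → ∃ c : ℤ, c ≠ 0 ∧ Tr H (c • v) θ := by
    intro v φ hφ hφθ T1
    obtain ⟨r, hr⟩ := Function.ne_iff.1 hφ
    have hr' : φ r ≠ 0 := hr
    have e1 := hφθ.smul_eq r
    have h0 : θ ⬝ᵥ v = 0 := by
      have h1 := congrArg (fun z => z ⬝ᵥ v) e1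
      simp only [smul_dotProduct, T1.1, smul_eq_mul, mul_zero] at h1
      exact (mul_eq_zero.1 h1).resolve_left hr'
    have T3 : Tr H v (φ r • θ) := by
      rw [e1]
      exact T1.smulf _
    exact ⟨φ r, hr', T3.swap' h0⟩
  obtain ⟨c, hc, T3⟩ := red hφ hφθ T1
  obtain ⟨d, hd, T4⟩ := red hψ hψθ T2
  have hne : ¬ Par (c • v) (d • y) := by
    intro h
    apply hvy
    intro p q
    have h1 := h p q
    simp only [Pi.smul_apply, smul_eq_mul] at h1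
    have h2 : (c * d) * (v p * y q - v q * y p) = 0 := by linear_combination h1
    have h3 := (mul_eq_zero.1 h2).resolve_left (mul_ne_zero hc hd)
    linarith
  refine ⟨fun k hk => pm_eig' hθ (axis hH hθ T3 T4 hne hk), fun t ht => ?_⟩
  obtain ⟨K, hle, hK, hT⟩ := rad hH hθ T3 T4 hne
  have h1 := hT t ht
  rw [hmax K hle hK] at h1
  exact h1

lemma dl_dl (g : SL3) : dl (dl g) = g := by
  apply Subtype.ext
  change (((dl g)⁻¹ : SL3).1)ᵀ = g.1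
  rw [← map_inv]
  change (((g⁻¹⁻¹ : SL3).1)ᵀ)ᵀ = g.1
  rw [inv_inv, transpose_transpose]

lemma map_dl_dl (H : Subgroup SL3) : (H.map dl).map dl = H := by
  ext g
  constructor
  · rintro ⟨_, ⟨h, hh, rfl⟩, rfl⟩
    rw [dl_dl]
    exact hh
  · intro hg
    exact ⟨dl g, ⟨g, hg, rfl⟩, dl_dl g⟩

theorem max_centre {H : Subgroup SL3} (hH : HasHaagerup H)
    (hmax : ∀ K : Subgroup SL3, H ≤ K → HasHaagerup K → K = H) {v φ y ψ z : Fin 3 → ℤ}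
    (hv : v ≠ 0) (hy : y ≠ 0) (T1 : Tr H v φ) (T2 : Tr H y ψ) (hp : Par v y) (hφψ : ¬ Par φ ψ)
    (hz : z ≠ 0) (hvz : Par v z) :
    (∀ k ∈ H, av k z = z ∨ av k z = -z) ∧ ∀ t : Fin 3 → ℤ, t ⬝ᵥ z = 0 → Tr H z t := by
  obtain ⟨h1, h2⟩ := max_axis (dl_haag hH) (fun K hle hK => by
    have h3 : H ≤ K.map dl := by
      rw [← map_dl_dl H]
      exact Subgroup.map_mono hle
    have h4 := hmax _ h3 (dl_haag hK)
    rw [← h4, map_dl_dl]) hv hy (dl_tr T1) (dl_tr T2) hp hφψ hz hvz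
  refine ⟨fun k hk => ?_, fun t ht => ?_⟩
  · have h3 := h1 (dl k⁻¹) ⟨k⁻¹, inv_mem hk, rfl⟩
    have h4 : cv (dl k⁻¹) z = av k z := by
      change z ᵥ* ((k⁻¹⁻¹ : SL3).1)ᵀ = k.1 *ᵥ z
      rw [inv_inv, vecMul_transpose]
    rw [h4] at h3
    exact h3
  · have h3 := dl_tr (h2 t (by rw [dotProduct_comm, ht]))
    rw [map_dl_dl] at h3
    exact h3

end Pool.Agent.Run7.h25.HA
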