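import Pool.Agent.Run7.h25.HA.Flag

/-!
# Nonabelian unipotent subgroups of `SL (3, ℤ)`
-/

set_option autoImplicit false

namespace Pool.Agent.Run7.h25.HA

open Matrix Pool.Agent.Run7.h25.TV Pool.Agent.Helper460_CSP

/-- Upper unitriangular matrices with given entries. -/
def UU (A : M3) (a b : ℚ) : Prop := ∃ c : ℚ, A = !![1, a, c; 0, 1, b; 0, 0, 1]

lemma UU.mul {A B : M3} {a b a' b' : ℚ} (hA : UU A a b) (hB : UU B a' b') :
    UU (A * B) (a + a') (b + b') := by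
  obtain ⟨c, rfl⟩ := hA
  obtain ⟨c', rfl⟩ := hB
  refine ⟨c' + a * b' + c, ?_⟩
  ext i j
  fin_cases i <;> fin_cases j <;> simp [Matrix.mul_apply, Fin.sum_univ_three] <;> ring

variable {x : M3}

lemma UU.inv (hx : x.det ≠ 0) {g : SL3} {a b : ℚ} (h : UU (cj x g) a b) :
    UU (cj x g⁻¹) (-a) (-b) := by
  obtain ⟨c, hc⟩ := h
  refine ⟨a * b - c, ?_⟩
  have h1 : cj x g⁻¹ * cj x g = 1 := by rw [← cj_mul hx, inv_mul_cancel, cj_one hx]
  have h2 : cj x g * !![1, -a, a * b - c; 0, 1, -b; 0, 0, 1] = 1 := by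
    rw [hc]
    ext i j
    fin_cases i <;> fin_cases j <;> simp [Matrix.mul_apply, Fin.sum_univ_three]
    ring
  calc cj x g⁻¹ = cj x g⁻¹ * (cj x g * !![1, -a, a * b - c; 0, 1, -b; 0, 0, 1]) := by
        rw [h2, mul_one]
    _ = _ := by rw [← mul_assoc, h1, one_mul]

lemma UU.zpow (hx : x.det ≠ 0) {g : SL3} {a b : ℚ} (h : UU (cj x g) a b) (n : ℤ) :
    UU (cj x (g ^ n)) (n * a) (n * b) := by
  induction n using Int.induction_on with
  | zero =>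
    rw [zpow_zero, cj_one hx]
    refine ⟨0, ?_⟩
    ext i j
    fin_cases i <;> fin_cases j <;> simp
  | succ n ih =>
    rw [_root_.zpow_add_one, cj_mul hx]
    have h1 := ih.mul h
    have e1 : (((n : ℤ) + 1 : ℤ) : ℚ) * a = ((n : ℤ) : ℚ) * a + a := by push_cast; ring
    have e2 : (((n : ℤ) + 1 : ℤ) : ℚ) * b = ((n : ℤ) : ℚ) * b + b := by push_cast; ring
    rw [e1, e2]
    exact h1
  | pred n ih =>
    rw [_root_.zpow_sub_one, cj_mul hx]
    have h1 := ih.mul (h.inv hx)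
    have e1 : ((-(n : ℤ) - 1 : ℤ) : ℚ) * a = ((-(n : ℤ) : ℤ) : ℚ) * a + -a := by push_cast; ring
    have e2 : ((-(n : ℤ) - 1 : ℤ) : ℚ) * b = ((-(n : ℤ) : ℤ) : ℚ) * b + -b := by push_cast; ring
    rw [e1, e2]
    exact h1

/-- A power of a rational transvection is an integral transvection. -/
lemma tr_of (hx : x.det ≠ 0) {K : Subgroup SL3} {k : SL3} (hk : k ∈ K) {p θ : Fin 3 → ℚ}
    (hp : p ≠ 0) (hθ : θ ≠ 0) (h : θ ⬝ᵥ p = 0) (hc : cj x k = 1 + vecMulVec p θ) :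
    ∃ (v φ : Fin 3 → ℤ) (s t : ℚ), s ≠ 0 ∧ t ≠ 0 ∧ qv v = s • (x *ᵥ p) ∧
      qv φ = t • (θ ᵥ* x⁻¹) ∧ Tr K v φ := by
  obtain ⟨P, hP⟩ : ∃ P, P = x *ᵥ p := ⟨_, rfl⟩
  obtain ⟨Θ, hΘ⟩ : ∃ Θ, Θ = θ ᵥ* x⁻¹ := ⟨_, rfl⟩
  have hP0 : P ≠ 0 := by
    intro h0
    apply hp
    calc p = x⁻¹ *ᵥ P := by rw [hP, mulVec_mulVec, xx' hx, one_mulVec]
      _ = 0 := by rw [h0, mulVec_zero]
  have hΘ0 : Θ ≠ 0 := by
    intro h0
    apply hθ
    calc θ = Θ ᵥ* x := by rw [hΘ, vecMul_vecMul, xx' hx, vecMul_one]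
      _ = 0 := by rw [h0, zero_vecMul]
  obtain ⟨r, hr⟩ := Function.ne_iff.1 hP0
  obtain ⟨s, hs⟩ := Function.ne_iff.1 hΘ0
  have hr' : P r ≠ 0 := hr
  have hs' : Θ s ≠ 0 := hs
  obtain ⟨M, hM⟩ : ∃ M : Matrix (Fin 3) (Fin 3) ℤ, M = k.1 - 1 := ⟨_, rfl⟩
  have hMP : ∀ i j, ((M i j : ℤ) : ℚ) = P i * Θ j := by
    intro i j
    have h1 : toQ k = 1 + vecMulVec P Θ := by
      have : toQ k = x * cj x k * x⁻¹ := by
        unfold cj
        calc toQ k = (x * x⁻¹) * toQ k * (x * x⁻¹) := by rw [xx hx, one_mul, mul_one]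
          _ = _ := by simp only [mul_assoc]
      rw [this, hc, mul_add, add_mul, mul_one, xx hx, mul_vecMulVec, vecMulVec_mul, ← hP, ← hΘ]
    have h2 := congrFun (congrFun h1 i) j
    rw [Matrix.add_apply, vecMulVec_apply] at h2
    have h3 : ((k.1 i j : ℤ) : ℚ) = toQ k i j := rfl
    rw [hM, Matrix.sub_apply, Int.cast_sub, h3, h2, Matrix.one_apply, Matrix.one_apply]
    split_ifs <;> simp
  have hrs : M r s ≠ 0 := by
    intro h0
    have := hMP r s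
    rw [h0, Int.cast_zero] at this
    exact mul_ne_zero hr' hs' this.symm
  obtain ⟨n, hn⟩ : ∃ n : ℕ, (n : ℤ) = M r s ^ 2 :=
    ⟨(M r s ^ 2).toNat, Int.toNat_of_nonneg (sq_nonneg _)⟩
  obtain ⟨v, hv⟩ : ∃ v : Fin 3 → ℤ, v = fun i => M r s * M i s := ⟨_, rfl⟩
  obtain ⟨φ, hφ⟩ : ∃ φ : Fin 3 → ℤ, φ = fun j => M r j := ⟨_, rfl⟩
  have hqv : qv v = ((M r s : ℚ) * Θ s) • (x *ᵥ p) := by
    ext i
    rw [hv]
    simp only [qv, Pi.smul_apply, smul_eq_mul]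
    push_cast
    rw [hMP i s, ← hP]
    ring
  have hqφ : qv φ = P r • (θ ᵥ* x⁻¹) := by
    ext j
    rw [hφ]
    simp only [qv, Pi.smul_apply, smul_eq_mul]
    rw [hMP, ← hΘ]
  have hφv : φ ⬝ᵥ v = 0 := by
    have h1 : ((φ ⬝ᵥ v : ℤ) : ℚ) = 0 := by
      rw [← qv_dot, hqv, hqφ, smul_dotProduct, dotProduct_smul, ← dotProduct_mulVec,
        mulVec_mulVec, xx' hx, one_mulVec, h, smul_zero, smul_zero]
    exact_mod_cast h1
  refine ⟨v, φ, (M r s : ℚ) * Θ s, P r, mul_ne_zero (by exact_mod_cast hrs) hs', hr', hqv, hqφ,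
    hφv, k ^ n, pow_mem hk n, ?_⟩
  obtain ⟨A, hA⟩ := tr_exists hφv
  have h1 : cj x A = 1 + vecMulVec (((M r s : ℚ) * Θ s) • p) (P r • θ) := by
    refine cj_tv hx hA ?_ ?_
    · rw [mulVec_smul, hqv]
    · rw [hqφ, smul_vecMul, vecMul_vecMul, xx' hx, vecMul_one]
  have h2 : ∀ n : ℕ, cj x (k ^ n) = 1 + (n : ℚ) • vecMulVec p θ := by
    intro n
    induction n with
    | zero => rw [pow_zero, cj_one hx, Nat.cast_zero, zero_smul, add_zero]
    | succ n ih =>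
      have hc' : cj x k = 1 + (1 : ℚ) • vecMulVec p θ := by rw [hc, one_smul]
      rw [pow_succ, cj_mul hx, ih, hc', tv_mul h, ← add_smul, smul_vecMulVec]
      push_cast
      rfl
  have h3 : A = k ^ n := by
    apply cj_inj hx
    rw [h1, h2, smul_vecMulVec, vecMulVec_smul, smul_smul]
    congr 2
    have h4 : ((n : ℕ) : ℚ) = (M r s : ℚ) ^ 2 := by exact_mod_cast hn
    rw [h4, sq]
    nth_rewrite 3 [hMP r s]
    ring
  rw [← h3]
  exact hA

/-- Noncommuting unipotent elements. -/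
theorem unip_two (hx : x.det ≠ 0) {g h : SL3} {a b a' b' : ℚ} (hg : UU (cj x g) a b)
    (hh : UU (cj x h) a' b') (hne : a * b' ≠ a' * b) :
    ∃ y φ : Fin 3 → ℤ, y ≠ 0 ∧ φ ≠ 0 ∧ φ ⬝ᵥ y = 0 ∧ g ∈ FS y φ ∧ h ∈ FS y φ ∧
      ∀ K : Subgroup SL3, HasHaagerup K → g ∈ K → h ∈ K → K ≤ FS y φ := by
  obtain ⟨K0, hK0⟩ : ∃ K0, K0 = Subgroup.closure {g, h} := ⟨_, rfl⟩
  have hgK : g ∈ K0 := hK0 ▸ Subgroup.subset_closure (by simp)
  have hhK : h ∈ K0 := hK0 ▸ Subgroup.subset_closure (by simp)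
  have comb : ∀ n m : ℤ, UU (cj x (g ^ n * h ^ m)) (n * a + m * a') (n * b + m * b') := by
    intro n m
    rw [cj_mul hx]
    exact (hg.zpow hx n).mul (hh.zpow hx m)
  have memK : ∀ n m : ℤ, g ^ n * h ^ m ∈ K0 := fun n m => mul_mem (zpow_mem hgK n) (zpow_mem hhK m)
  have clear : ∀ q q' : ℚ, ∃ n m : ℤ, (n : ℚ) * q + m * q' = 0 ∧
      ∀ r r' : ℚ, q * r' ≠ q' * r → (n : ℚ) * r + m * r' ≠ 0 := by
    intro q q'
    refine ⟨q'.num * q.den, -(q.num * q'.den), ?_, ?_⟩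
    · have h0 := Rat.mul_den_eq_num q
      have h1 := Rat.mul_den_eq_num q'
      push_cast
      rw [← h0, ← h1]
      ring
    · intro r r' hr h2
      have h0 := Rat.mul_den_eq_num q
      have h1 := Rat.mul_den_eq_num q'
      push_cast at h2
      rw [← h0, ← h1] at h2
      have d0 : (q.den : ℚ) ≠ 0 := by exact_mod_cast q.den_ne_zero
      have d1 : (q'.den : ℚ) ≠ 0 := by exact_mod_cast q'.den_ne_zero
      have h3 : ((q.den : ℚ) * q'.den) * (q' * r - q * r') = 0 := by linear_combination h2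
      have h4 := (mul_eq_zero.1 h3).resolve_left (mul_ne_zero d0 d1)
      exact hr (by linarith)
  -- the transvection with the axis `φ`
  obtain ⟨n, m, e1, e2⟩ := clear a a'
  obtain ⟨c2, k2⟩ := comb n m
  rw [e1] at k2
  obtain ⟨β, hβ⟩ : ∃ β : ℚ, β = n * b + m * b' := ⟨_, rfl⟩
  have hβ0 : β ≠ 0 := hβ ▸ e2 b b' hne
  rw [← hβ] at k2
  have c2' : cj x (g ^ n * h ^ m) = 1 + vecMulVec ![c2, β, 0] ![0, 0, 1] := by
    rw [k2]
    ext i j
    rw [Matrix.add_apply, Matrix.one_apply, vecMulVec_apply]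
    fin_cases i <;> fin_cases j <;> simp
  obtain ⟨v2, φ2, s2, t2, hs2, ht2, hv2, hφ2, T2⟩ := tr_of hx (memK n m)
    (fun h0 => hβ0 (by have := congrFun h0 1; simpa using this))
    (fun h0 => by have := congrFun h0 2; simp at this)
    (by simp [dotProduct, Fin.sum_univ_three]) c2'
  -- the transvection with the centre `y`
  obtain ⟨n', m', f1, f2⟩ := clear b b'
  obtain ⟨c3, k3⟩ := comb n' m'
  rw [f1] at k3
  obtain ⟨α, hα⟩ : ∃ α : ℚ, α = n' * a + m' * a' := ⟨_, rfl⟩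
  have hα0 : α ≠ 0 := hα ▸ f2 a a' (fun h0 => hne (by linarith))
  rw [← hα] at k3
  have c3' : cj x (g ^ n' * h ^ m') = 1 + vecMulVec ![1, 0, 0] ![0, α, c3] := by
    rw [k3]
    ext i j
    rw [Matrix.add_apply, Matrix.one_apply, vecMulVec_apply]
    fin_cases i <;> fin_cases j <;> simp
  obtain ⟨v3, φ3, s3, t3, hs3, ht3, hv3, hφ3, T3⟩ := tr_of hx (memK n' m')
    (fun h0 => by have := congrFun h0 0; simp at this)
    (fun h0 => hα0 (by have := congrFun h0 1; simpa using this))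
    (by simp [dotProduct, Fin.sum_univ_three]) c3'
  have dotq : ∀ (p θ : Fin 3 → ℚ) (s t : ℚ), (t • (θ ᵥ* x⁻¹)) ⬝ᵥ (s • (x *ᵥ p)) =
      t * s * (θ ⬝ᵥ p) := by
    intro p θ s t
    rw [smul_dotProduct, dotProduct_smul, ← dotProduct_mulVec, mulVec_mulVec, xx' hx, one_mulVec,
      smul_eq_mul, smul_eq_mul, mul_assoc]
  have h23 : φ2 ⬝ᵥ v3 = 0 := by
    have h1 : ((φ2 ⬝ᵥ v3 : ℤ) : ℚ) = 0 := by
      rw [← qv_dot, hφ2, hv3, dotq]
      simp [dotProduct, Fin.sum_univ_three]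
    exact_mod_cast h1
  have h32 : φ3 ⬝ᵥ v2 ≠ 0 := by
    intro h0
    have h1 : ((φ3 ⬝ᵥ v2 : ℤ) : ℚ) = 0 := by rw [h0, Int.cast_zero]
    rw [← qv_dot, hφ3, hv2, dotq] at h1
    simp only [dotProduct, Fin.sum_univ_three] at h1
    simp at h1
    rcases h1 with (h1 | h1) | h1 | h1
    · exact ht3 h1
    · exact hs2 h1
    · exact hα0 h1
    · exact hβ0 h1
  have hy0 : v3 ≠ 0 := by
    rintro rfl
    have h1 : (0 : Fin 3 → ℚ) = s3 • (x *ᵥ ![1, 0, 0]) := by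
      rw [← hv3]
      funext i
      simp [qv]
    have h2 := (smul_eq_zero.1 h1.symm).resolve_left hs3
    have h3 : (![1, 0, 0] : Fin 3 → ℚ) = 0 := by
      calc (![1, 0, 0] : Fin 3 → ℚ) = x⁻¹ *ᵥ (x *ᵥ ![1, 0, 0]) := by
            rw [mulVec_mulVec, xx' hx, one_mulVec]
        _ = 0 := by rw [h2, mulVec_zero]
    have := congrFun h3 0
    simp at this
  have hφ0 : φ2 ≠ 0 := by
    rintro rfl
    have h1 : (0 : Fin 3 → ℚ) = t2 • (![0, 0, 1] ᵥ* x⁻¹) := by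
      rw [← hφ2]
      funext i
      simp [qv]
    have h2 := (smul_eq_zero.1 h1.symm).resolve_left ht2
    have h3 : (![0, 0, 1] : Fin 3 → ℚ) = 0 := by
      calc (![0, 0, 1] : Fin 3 → ℚ) = (![0, 0, 1] ᵥ* x⁻¹) ᵥ* x := by
            rw [vecMul_vecMul, xx' hx, vecMul_one]
        _ = 0 := by rw [h2, zero_vecMul]
    have := congrFun h3 2
    simp at this
  have qinj : ∀ {v w : Fin 3 → ℤ}, qv v = qv w → v = w := by
    intro v w hvw
    funext i
    have := congrFun hvw i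
    simp only [qv] at this
    exact_mod_cast this
  have mem : ∀ {k : SL3} {a b : ℚ}, UU (cj x k) a b → k ∈ FS v3 φ2 := by
    rintro k a b ⟨c, hc⟩
    refine ⟨Or.inl (qinj ?_), Or.inl (qinj ?_)⟩
    · rw [← toQ_av, hv3, mulVec_smul]
      congr 1
      have h1 : cj x k *ᵥ ![1, 0, 0] = ![1, 0, 0] := by
        rw [hc]
        ext i
        fin_cases i <;> simp [mulVec, dotProduct, Fin.sum_univ_three]
      have h2 := congrArg (fun z => x *ᵥ z) h1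
      simp only [mulVec_mulVec] at h2
      refine Eq.trans ?_ h2
      rw [mulVec_mulVec]
      unfold cj
      rw [← mul_assoc, ← mul_assoc, xx hx, one_mul]
    · rw [← toQ_cv, hφ2, smul_vecMul]
      congr 1
      have h1 : ![0, 0, 1] ᵥ* cj x k = ![0, 0, 1] := by
        rw [hc]
        ext i
        fin_cases i <;> simp [vecMul, dotProduct, Fin.sum_univ_three]
      have h2 := congrArg (fun z => z ᵥ* x⁻¹) h1
      simp only [vecMul_vecMul] at h2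
      refine Eq.trans ?_ h2
      rw [vecMul_vecMul]
      unfold cj
      rw [mul_assoc, xx hx, mul_one]
  refine ⟨v3, φ2, hy0, hφ0, h23, mem hg, mem hh, fun K hK hgK' hhK' => ?_⟩
  have hle : K0 ≤ K := by
    rw [hK0, Subgroup.closure_le]
    rintro k (rfl | rfl)
    · exact hgK'
    · exact hhK'
  have mono : ∀ {a α : Fin 3 → ℤ}, Tr K0 a α → Tr K a α :=
    fun ⟨h1, A, hA, hA'⟩ => ⟨h1, A, hle hA, hA'⟩
  exact fs_two hK hφ0 hy0 (mono T2) (mono T3) h23 h32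

end Pool.Agent.Run7.h25.HA
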