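import Pool.Agent.Run7.h25.HA.Cj

/-!
# Stabilisers of decompositions of `ℚ ^ 3`
-/

set_option autoImplicit false

namespace Pool.Agent.Run7.h25.HA

open Matrix

variable {x : M3}

/-- The stabiliser of the plane of the first two columns and of the line of the third column. -/
def Stb (x : M3) (hx : x.det ≠ 0) : Subgroup SL3 where
  carrier := {g | BD (cj x g)}
  one_mem' := by
    change BD (cj x 1)
    rw [cj_one hx]
    exact BD.one
  mul_mem' := by
    intro g h hg hh
    change BD (cj x (g * h))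
    rw [cj_mul hx]
    exact hg.mul hh
  inv_mem' := by
    intro g hg
    exact BD.inv hg (cj_det hx g) (by rw [← cj_mul hx, mul_inv_cancel, cj_one hx])

lemma eig_sq (hx : x.det ≠ 0) {g : SL3} (hg : BD (cj x g)) : cj x g 2 2 ^ 2 = 1 := by
  obtain ⟨l, hl⟩ := eig_int hx hg
  obtain ⟨l', hl'⟩ := eig_int hx ((Stb x hx).inv_mem hg)
  have h1 : cj x g * cj x g⁻¹ = 1 := by rw [← cj_mul hx, mul_inv_cancel, cj_one hx]
  have h2 := congrFun (congrFun h1 2) 2
  rw [Matrix.mul_apply, Fin.sum_univ_three, hg.1, hg.2.1, zero_mul, zero_mul, zero_add, zero_add,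
    Matrix.one_apply_eq, ← hl, ← hl'] at h2
  have h3 : l * l' = 1 := by exact_mod_cast h2
  rw [← hl]
  rcases Int.eq_one_or_neg_one_of_mul_eq_one h3 with h | h <;> rw [h] <;> norm_num

/-- The action on the plane. -/
noncomputable def blk (hx : x.det ≠ 0) : Stb x hx →* Matrix (Fin 2) (Fin 2) ℝ where
  toFun g := !![((cj x g 0 0 : ℚ) : ℝ), ((cj x g 0 1 : ℚ) : ℝ);
    ((cj x g 1 0 : ℚ) : ℝ), ((cj x g 1 1 : ℚ) : ℝ)]
  map_one' := by
    change !![((cj x 1 0 0 : ℚ) : ℝ), ((cj x 1 0 1 : ℚ) : ℝ);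
      ((cj x 1 1 0 : ℚ) : ℝ), ((cj x 1 1 1 : ℚ) : ℝ)] = 1
    rw [cj_one hx]
    ext i j
    fin_cases i <;> fin_cases j <;> simp
  map_mul' g h := by
    have hh : BD (cj x (h : SL3)) := h.2
    have e : ∀ i j : Fin 3, i ≠ 2 → j ≠ 2 → cj x ((g * h : Stb x hx) : SL3) i j =
        cj x (g : SL3) i 0 * cj x (h : SL3) 0 j + cj x (g : SL3) i 1 * cj x (h : SL3) 1 j := by
      intro i j hi hj
      have hg : BD (cj x (g : SL3)) := g.2
      have h0 : cj x (g : SL3) i 2 = 0 := by
        fin_cases i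
        · exact hg.2.2.1
        · exact hg.2.2.2
        · exact absurd rfl hi
      rw [Subgroup.coe_mul, cj_mul hx, Matrix.mul_apply, Fin.sum_univ_three, h0, zero_mul, add_zero]
    rw [e 0 0 (by decide) (by decide), e 0 1 (by decide) (by decide), e 1 0 (by decide) (by decide),
      e 1 1 (by decide) (by decide)]
    ext i j
    fin_cases i <;> fin_cases j <;> simp [Matrix.mul_apply, Fin.sum_univ_two]

/-- The stabiliser has the Haagerup property. -/
theorem stb_haagerup (hx : x.det ≠ 0) : HasHaagerup (Stb x hx) := by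
  refine levi_haagerup (h := blk hx) (fun g => ?_) fun R => ?_
  · have hg : BD (cj x (g : SL3)) := g.2
    have h1 := cj_det hx (g : SL3)
    rw [hg.det] at h1
    have h2 := eig_sq hx hg
    have h3 : (cj x (g : SL3) 0 0 * cj x (g : SL3) 1 1 - cj x (g : SL3) 0 1 * cj x (g : SL3) 1 0) ^ 2
        = 1 := by
      have : (cj x (g : SL3) 0 0 * cj x (g : SL3) 1 1 -
          cj x (g : SL3) 0 1 * cj x (g : SL3) 1 0) ^ 2 * cj x (g : SL3) 2 2 ^ 2 = 1 := by
        rw [← mul_pow, h1, one_pow]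
      rw [h2, mul_one] at this
      exact this
    have h4 : (blk hx g).det = ((cj x (g : SL3) 0 0 * cj x (g : SL3) 1 1 -
        cj x (g : SL3) 0 1 * cj x (g : SL3) 1 0 : ℚ) : ℝ) := by
      rw [det_fin_two]
      change ((cj x (g : SL3) 0 0 : ℚ) : ℝ) * ((cj x (g : SL3) 1 1 : ℚ) : ℝ) -
        ((cj x (g : SL3) 0 1 : ℚ) : ℝ) * ((cj x (g : SL3) 1 0 : ℚ) : ℝ) = _
      push_cast
      ring
    rw [h4]
    exact_mod_cast h3
  · -- finitely many elements of bounded norm
    obtain ⟨C, hC⟩ : ∃ C : ℝ, C = ∑ i, ∑ j, ∑ a, ∑ b,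
        |((x i a : ℚ) : ℝ)| * (|R| + 1) * |((x⁻¹ b j : ℚ) : ℝ)| := ⟨_, rfl⟩
    obtain ⟨N, hN⟩ := exists_nat_gt C
    have hfin : (Set.Icc (fun _ _ => -(N : ℤ) : Fin 3 → Fin 3 → ℤ) (fun _ _ => (N : ℤ))).Finite :=
      Set.finite_Icc _ _
    refine (hfin.preimage (f := fun g : Stb x hx => ((g : SL3).1 : Fin 3 → Fin 3 → ℤ)) ?_).subset ?_
    · intro g _ h _ hgh
      exact Subtype.ext (Subtype.ext hgh)
    · intro g hg
      have hb : BD (cj x (g : SL3)) := g.2
      have hent : ∀ a b, |((cj x (g : SL3) a b : ℚ) : ℝ)| ≤ |R| + 1 := by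
        have hR := le_abs_self R
        have hR0 := abs_nonneg R
        have e00 := hg 0 0
        have e01 := hg 0 1
        have e10 := hg 1 0
        have e11 := hg 1 1
        change |((cj x (g : SL3) 0 0 : ℚ) : ℝ)| ≤ R at e00
        change |((cj x (g : SL3) 0 1 : ℚ) : ℝ)| ≤ R at e01
        change |((cj x (g : SL3) 1 0 : ℚ) : ℝ)| ≤ R at e10
        change |((cj x (g : SL3) 1 1 : ℚ) : ℝ)| ≤ R at e11
        have e22 : |((cj x (g : SL3) 2 2 : ℚ) : ℝ)| = 1 := by
          have h2 := eig_sq hx hb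
          have h3 : ((cj x (g : SL3) 2 2 : ℚ) : ℝ) ^ 2 = 1 := by exact_mod_cast h2
          rw [← sq_abs] at h3
          nlinarith [abs_nonneg ((cj x (g : SL3) 2 2 : ℚ) : ℝ)]
        obtain ⟨b1, b2, b3, b4⟩ := hb
        intro a b
        fin_cases a <;> fin_cases b
        · exact e00.trans (by linarith)
        · exact e01.trans (by linarith)
        · change |((cj x (g : SL3) 0 2 : ℚ) : ℝ)| ≤ _
          rw [b3, Rat.cast_zero, abs_zero]
          linarith
        · exact e10.trans (by linarith)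
        · exact e11.trans (by linarith)
        · change |((cj x (g : SL3) 1 2 : ℚ) : ℝ)| ≤ _
          rw [b4, Rat.cast_zero, abs_zero]
          linarith
        · change |((cj x (g : SL3) 2 0 : ℚ) : ℝ)| ≤ _
          rw [b1, Rat.cast_zero, abs_zero]
          linarith
        · change |((cj x (g : SL3) 2 1 : ℚ) : ℝ)| ≤ _
          rw [b2, Rat.cast_zero, abs_zero]
          linarith
        · exact e22.le.trans (by linarith)
      have hQ : ∀ i j, (((g : SL3).1 i j : ℤ) : ℝ) =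
          ∑ b, ∑ a, ((x i a : ℚ) : ℝ) * ((cj x (g : SL3) a b : ℚ) : ℝ) * ((x⁻¹ b j : ℚ) : ℝ) := by
        intro i j
        have h1 : toQ (g : SL3) = x * cj x (g : SL3) * x⁻¹ := by
          unfold cj
          calc toQ (g : SL3) = (x * x⁻¹) * toQ (g : SL3) * (x * x⁻¹) := by
                rw [xx hx, one_mul, mul_one]
            _ = _ := by simp only [mul_assoc]
        have h2 := congrFun (congrFun h1 i) j
        rw [Matrix.mul_apply] at h2
        simp only [Matrix.mul_apply, Finset.sum_mul] at h2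
        have h3 : (((g : SL3).1 i j : ℤ) : ℚ) = toQ (g : SL3) i j := rfl
        have h4 : (((g : SL3).1 i j : ℤ) : ℝ) = ((((g : SL3).1 i j : ℤ) : ℚ) : ℝ) := by push_cast; rfl
        rw [h4, h3, h2]
        push_cast
        rfl
      have hbd : ∀ i j, |(((g : SL3).1 i j : ℤ) : ℝ)| ≤ C := by
        intro i j
        rw [hQ]
        have t1 : |∑ b, ∑ a, ((x i a : ℚ) : ℝ) * ((cj x (g : SL3) a b : ℚ) : ℝ) *
            ((x⁻¹ b j : ℚ) : ℝ)| ≤
            ∑ a, ∑ b, |((x i a : ℚ) : ℝ)| * (|R| + 1) * |((x⁻¹ b j : ℚ) : ℝ)| := by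
          rw [Finset.sum_comm (f := fun a b => |((x i a : ℚ) : ℝ)| * (|R| + 1) *
            |((x⁻¹ b j : ℚ) : ℝ)|)]
          refine (Finset.abs_sum_le_sum_abs _ _).trans (Finset.sum_le_sum fun b _ => ?_)
          refine (Finset.abs_sum_le_sum_abs _ _).trans (Finset.sum_le_sum fun a _ => ?_)
          rw [abs_mul, abs_mul]
          exact mul_le_mul_of_nonneg_right (mul_le_mul_of_nonneg_left (hent a b) (abs_nonneg _))
            (abs_nonneg _)
        refine t1.trans ?_
        rw [hC]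
        have nn : ∀ i j a b, 0 ≤ |((x i a : ℚ) : ℝ)| * (|R| + 1) * |((x⁻¹ b j : ℚ) : ℝ)| := by
          intro i j a b
          positivity
        have t2 := Finset.single_le_sum (f := fun j => ∑ a, ∑ b, |((x i a : ℚ) : ℝ)| * (|R| + 1) *
          |((x⁻¹ b j : ℚ) : ℝ)|) (fun j _ => Finset.sum_nonneg fun a _ =>
            Finset.sum_nonneg fun b _ => nn i j a b) (Finset.mem_univ j)
        have t3 := Finset.single_le_sum (f := fun i => ∑ j, ∑ a, ∑ b, |((x i a : ℚ) : ℝ)| *
          (|R| + 1) * |((x⁻¹ b j : ℚ) : ℝ)|) (fun i _ => Finset.sum_nonneg fun j _ =>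
            Finset.sum_nonneg fun a _ => Finset.sum_nonneg fun b _ => nn i j a b) (Finset.mem_univ i)
        exact t2.trans t3
      have hle : ∀ i j, |(g : SL3).1 i j| ≤ (N : ℤ) := by
        intro i j
        have h1 := (hbd i j).trans hN.le
        rw [← Int.cast_abs] at h1
        exact_mod_cast h1
      exact Set.mem_preimage.2 ⟨fun i j => (abs_le.1 (hle i j)).1, fun i j => (abs_le.1 (hle i j)).2⟩

/-- Subgroups with the Haagerup property which contain powers of the transvections. -/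
theorem le_stb (hx : x.det ≠ 0) {K : Subgroup SL3} (hK : HasHaagerup K)
    (hp : ∀ g ∈ Stb x hx, (∃ v φ : Fin 3 → ℤ, v ≠ 0 ∧ φ ≠ 0 ∧ φ ⬝ᵥ v = 0 ∧
      g.1 = 1 + vecMulVec v φ) → ∃ n : ℕ, 0 < n ∧ g ^ n ∈ K) : K ≤ Stb x hx := by
  intro k hk
  have hinj : Function.Injective (cjK hx K) := fun g h hgh => Subtype.ext (cj_inj hx hgh)
  have hfull : Full (cjK hx K) := by
    intro y θ hy hθ hθy
    by_cases hy0 : y = 0
    · refine ⟨1, one_ne_zero, 1, ?_⟩
      rw [map_one, hy0, zero_vecMulVec, smul_zero, add_zero]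
    by_cases hθ0 : θ = 0
    · refine ⟨1, one_ne_zero, 1, ?_⟩
      rw [map_one, hθ0, vecMulVec_zero, smul_zero, add_zero]
    obtain ⟨M, g, v, φ, hM, hg, hv, hφ, hφv, hgm⟩ := ex_tv hx hy0 hθ0 hθy
    have hgS : g ∈ Stb x hx := by
      change BD (cj x g)
      rw [hg]
      refine ⟨?_, ?_, ?_, ?_⟩ <;>
        simp [Matrix.add_apply, Matrix.smul_apply, vecMulVec_apply, hy, hθ]
    obtain ⟨n, hn, hnK⟩ := hp g hgS ⟨v, φ, hv, hφ, hφv, hgm⟩
    refine ⟨n * M, mul_ne_zero (by exact_mod_cast hn.ne') hM, ⟨g ^ n, hnK⟩, ?_⟩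
    have h1 : ∀ n : ℕ, cj x (g ^ n) = 1 + ((n : ℚ) * M) • vecMulVec y θ := by
      intro n
      induction n with
      | zero => rw [pow_zero, cj_one hx, Nat.cast_zero, zero_mul, zero_smul, add_zero]
      | succ n ih =>
        rw [pow_succ, cj_mul hx, ih, hg, tv_mul hθy, ← add_smul, smul_vecMulVec]
        push_cast
        congr 2
        ring
    exact h1 n
  exact block hinj hfull hK ⟨k, hk⟩

end Pool.Agent.Run7.h25.HA
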