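import Pool.Agent.Run7.h25.HA.Hor

/-!
# Two transvections in a Haagerup subgroup of `SL (3, ℤ)`
-/

set_option autoImplicit false

namespace Pool.Agent.Run7.h25.HA

open Matrix Pool.Agent.Run7.h25.TV Pool.Agent.Helper460_CSP

variable {H : Subgroup SL3}

/-- The inverse transpose. -/
def dl : SL3 →* SL3 where
  toFun g := ⟨((g⁻¹ : SL3).1)ᵀ, by rw [det_transpose]; exact (g⁻¹ : SL3).2⟩
  map_one' := by
    apply Subtype.ext
    change ((1⁻¹ : SL3).1)ᵀ = 1
    rw [inv_one]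
    exact transpose_one
  map_mul' g h := by
    apply Subtype.ext
    change (((g * h)⁻¹ : SL3).1)ᵀ = ((g⁻¹ : SL3).1)ᵀ * ((h⁻¹ : SL3).1)ᵀ
    rw [_root_.mul_inv_rev]
    exact transpose_mul _ _

lemma dl_inj : Function.Injective dl := by
  intro g h hgh
  have h1 : ((g⁻¹ : SL3).1)ᵀ = ((h⁻¹ : SL3).1)ᵀ := congrArg Subtype.val hgh
  exact inv_injective (Subtype.ext (transpose_injective h1))

lemma dl_tr {v φ : Fin 3 → ℤ} (h : Tr H v φ) : Tr (H.map dl) φ v := by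
  obtain ⟨h1, A, hA, hA'⟩ := h
  refine ⟨by rw [dotProduct_comm, h1], dl A⁻¹, ⟨A⁻¹, inv_mem hA, rfl⟩, ?_⟩
  change ((A⁻¹⁻¹ : SL3).1)ᵀ = _
  rw [inv_inv]
  have h2 : A.1 = 1 + vecMulVec v φ := hA'
  rw [h2, transpose_add, transpose_one, transpose_vecMulVec]

lemma dl_haag (h : HasHaagerup H) : HasHaagerup (H.map dl) :=
  haag_congr (Subgroup.equivMapOfInjective H dl dl_inj) h

/-- Two transvections with the same centre and different axes: the centre is preserved. -/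
theorem centre {φ ψ v : Fin 3 → ℤ} (hK : HasHaagerup H) (hv : v ≠ 0) (T1 : Tr H v φ)
    (T2 : Tr H v ψ) (hne : ¬ Par φ ψ) {k : SL3} (hk : k ∈ H) : Par v (av k v) := by
  have h1 := axis (dl_haag hK) hv (dl_tr T1) (dl_tr T2) hne (k := dl k⁻¹)
    ⟨k⁻¹, inv_mem hk, rfl⟩
  have h2 : cv (dl k⁻¹) v = av k v := by
    change v ᵥ* ((k⁻¹⁻¹ : SL3).1)ᵀ = k.1 *ᵥ v
    rw [inv_inv, vecMul_transpose]
  rw [h2] at h1
  exact h1

/-- Rational eigenvalues with integral eigenvectors. -/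
lemma int_eig {g : SL3} {v : Fin 3 → ℤ} (hv : v ≠ 0) (hp : Par v (av g v)) :
    ∃ l : ℤ, av g v = l • v := by
  obtain ⟨r, hr⟩ := Function.ne_iff.1 hv
  have hr' : v r ≠ 0 := hr
  have hrq : ((v r : ℤ) : ℚ) ≠ 0 := by exact_mod_cast hr'
  obtain ⟨μ, hμ⟩ : ∃ μ : ℚ, μ = (av g v r : ℚ) / (v r : ℚ) := ⟨_, rfl⟩
  have hgv : ∀ i, ((av g v i : ℤ) : ℚ) = μ * (v i : ℚ) := by
    intro i
    have h1 := hp r i
    have h2 : ((v r : ℤ) : ℚ) * (av g v i : ℚ) = (v i : ℚ) * (av g v r : ℚ) := by exact_mod_cast h1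
    rw [hμ]
    field_simp
    linarith
  have hw0 : qv v ≠ 0 := fun h0 => hv (qv_zero h0)
  have hgw : toQ g *ᵥ qv v = μ • qv v := by
    ext i
    rw [Pi.smul_apply, smul_eq_mul]
    change _ = μ * (v i : ℚ)
    rw [← hgv]
    simp only [mulVec, dotProduct, toQ, Matrix.map_apply, qv, av]
    push_cast
    rfl
  have h1 : (toQ g).charpoly.eval μ = 0 := by
    rw [Matrix.eval_charpoly]
    apply Matrix.exists_mulVec_eq_zero_iff.1
    refine ⟨qv v, hw0, ?_⟩
    rw [sub_mulVec, hgw, Matrix.scalar_apply]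
    ext i
    simp
  have h2 : IsIntegral ℤ μ := by
    refine ⟨g.1.charpoly, g.1.charpoly_monic, ?_⟩
    rw [← Polynomial.eval_map, ← Matrix.charpoly_map]
    exact h1
  obtain ⟨l, hl⟩ := IsIntegrallyClosed.isIntegral_iff.1 h2
  refine ⟨l, ?_⟩
  ext i
  have h3 := hgv i
  rw [← hl] at h3
  rw [Pi.smul_apply, smul_eq_mul]
  have h4 : ((av g v i : ℤ) : ℚ) = ((l * v i : ℤ) : ℚ) := by
    rw [h3]
    push_cast
    rfl
  exact_mod_cast h4

lemma pm_eig {g : SL3} {v : Fin 3 → ℤ} (hv : v ≠ 0) (hp : Par v (av g v)) :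
    av g v = v ∨ av g v = -v := by
  obtain ⟨l, hl⟩ := int_eig hv hp
  have h1 := congrArg (av g⁻¹) hl
  rw [av_inv_av, av_smul] at h1
  have hp' : Par v (av g⁻¹ v) := by
    intro p q
    have e1 := congrFun h1 p
    have e2 := congrFun h1 q
    simp only [Pi.smul_apply, smul_eq_mul] at e1 e2
    rw [e1, e2]
    ring
  obtain ⟨l', hl'⟩ := int_eig hv hp'
  rw [hl', smul_smul] at h1
  obtain ⟨r, hr⟩ := Function.ne_iff.1 hv
  have hr' : v r ≠ 0 := hr
  have e1 := congrFun h1 r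
  simp only [Pi.smul_apply, smul_eq_mul] at e1
  have h3 : l * l' = 1 := by
    have : (l * l' - 1) * v r = 0 := by linear_combination -e1
    have := (mul_eq_zero.1 this).resolve_right hr'
    linarith
  rcases Int.eq_one_or_neg_one_of_mul_eq_one h3 with h | h
  · left; rw [hl, h, one_smul]
  · right; rw [hl, h, neg_one_smul]

lemma pm_eig' {g : SL3} {φ : Fin 3 → ℤ} (hφ : φ ≠ 0) (hp : Par φ (cv g φ)) :
    cv g φ = φ ∨ cv g φ = -φ := by
  have e : ∀ φ, cv g φ = av (dl g⁻¹) φ := by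
    intro φ
    change φ ᵥ* g.1 = ((g⁻¹⁻¹ : SL3).1)ᵀ *ᵥ φ
    rw [inv_inv, mulVec_transpose]
  rw [e] at hp ⊢
  exact pm_eig hφ hp

/-- The group preserves a rational line or a rational plane. -/
def Red (H : Subgroup SL3) : Prop :=
  (∃ v : Fin 3 → ℤ, v ≠ 0 ∧ ∀ k ∈ H, av k v = v ∨ av k v = -v) ∨
    ∃ φ : Fin 3 → ℤ, φ ≠ 0 ∧ ∀ k ∈ H, cv k φ = φ ∨ cv k φ = -φ

/-- The group preserves a rational line and a complementary rational plane. -/
def Dec (H : Subgroup SL3) : Prop :=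
  ∃ v φ : Fin 3 → ℤ, φ ⬝ᵥ v ≠ 0 ∧ (∀ k ∈ H, av k v = v ∨ av k v = -v) ∧
    ∀ k ∈ H, cv k φ = φ ∨ cv k φ = -φ

/-- The case of trace three. -/
theorem trace_three {v φ y ψ : Fin 3 → ℤ} (hK : HasHaagerup H) (hv : v ≠ 0) (hφ : φ ≠ 0)
    (hψ : ψ ≠ 0) (hy : y ≠ 0) (T1 : Tr H v φ) (T2 : Tr H y ψ)
    (hne : ¬ (Par v y ∧ Par φ ψ)) (h0 : φ ⬝ᵥ y = 0) : Red H := by
  by_cases hp : Par v y
  · -- the same centre
    have hφψ : ¬ Par φ ψ := fun h => hne ⟨hp, h⟩
    obtain ⟨r, hr⟩ := Function.ne_iff.1 hv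
    have hr' : v r ≠ 0 := hr
    have e1 := hp.smul_eq r
    have hyr : y r ≠ 0 := by
      intro h1
      rw [h1, zero_smul] at e1
      exact hy ((smul_eq_zero.1 e1).resolve_left hr')
    have T3 : Tr H (y r • v) φ := T1.smulv _
    have T4 : Tr H (y r • v) ψ := by
      rw [← e1]
      exact T2.smulv _
    left
    refine ⟨y r • v, smul_ne_zero hyr hv, fun k hk => ?_⟩
    exact pm_eig (smul_ne_zero hyr hv) (centre hK (smul_ne_zero hyr hv) T3 T4 hφψ hk)
  · right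
    by_cases h1 : ψ ⬝ᵥ v = 0
    · -- the same axis
      have hφψ : Par φ ψ := by
        by_contra hn
        exact hp (par_of_two hn T1.1 h1 h0 T2.1)
      obtain ⟨r, hr⟩ := Function.ne_iff.1 hφ
      have hr' : φ r ≠ 0 := hr
      have e1 := hφψ.smul_eq r
      have hψr : ψ r ≠ 0 := by
        intro h2
        rw [h2, zero_smul] at e1
        exact hψ ((smul_eq_zero.1 e1).resolve_left hr')
      have T3 : Tr H v (ψ r • φ) := T1.smulf _
      have T4 : Tr H y (ψ r • φ) := by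
        rw [← e1]
        exact T2.smulf _
      refine ⟨ψ r • φ, smul_ne_zero hψr hφ, fun k hk => ?_⟩
      exact pm_eig' (smul_ne_zero hψr hφ) (axis hK (smul_ne_zero hψr hφ) T3 T4 hp hk)
    · -- the commutator
      have T3 : Tr H ((ψ ⬝ᵥ v) • y) φ := T2.comm T1 h0
      have hnp : ¬ Par v ((ψ ⬝ᵥ v) • y) := by
        intro h2
        apply hp
        intro p q
        have h3 := h2 p q
        simp only [Pi.smul_apply, smul_eq_mul] at h3
        have : (ψ ⬝ᵥ v) * (v p * y q - v q * y p) = 0 := by linear_combination h3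
        have := (mul_eq_zero.1 this).resolve_left h1
        linarith
      exact ⟨φ, hφ, fun k hk => pm_eig' hφ (axis hK hφ T1 T3 hnp hk)⟩

/-- Block diagonal groups. -/
theorem dec_of_bd {x : M3} (hx : x.det ≠ 0) (h : ∀ k ∈ H, BD (cj x k)) : Dec H := by
  obtain ⟨N, v, hN, hv⟩ := denom (x *ᵥ Pi.single 2 1)
  obtain ⟨N', φ, hN', hφ⟩ := denom (Pi.single 2 1 ᵥ* x⁻¹)
  have hv' : qv v = N • (x *ᵥ Pi.single 2 1) := by
    funext i
    rw [Pi.smul_apply, smul_eq_mul]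
    exact hv i
  have hφ' : qv φ = N' • (Pi.single 2 1 ᵥ* x⁻¹) := by
    funext i
    rw [Pi.smul_apply, smul_eq_mul]
    exact hφ i
  have hdot : ((φ ⬝ᵥ v : ℤ) : ℚ) = N' * N := by
    rw [← qv_dot, hv', hφ', smul_dotProduct, dotProduct_smul, ← dotProduct_mulVec, mulVec_mulVec,
      xx' hx, one_mulVec]
    simp
  have hne : φ ⬝ᵥ v ≠ 0 := by
    intro h0
    rw [h0, Int.cast_zero] at hdot
    exact mul_ne_zero hN' hN hdot.symm
  have hv0 : v ≠ 0 := by
    rintro rfl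
    exact hne (dotProduct_zero _)
  have hφ0 : φ ≠ 0 := by
    rintro rfl
    exact hne (zero_dotProduct _)
  have hav : ∀ k : SL3, qv (av k v) = toQ k *ᵥ qv v := by
    intro k
    ext i
    simp only [mulVec, dotProduct, toQ, Matrix.map_apply, qv, av]
    push_cast
    rfl
  have hcv : ∀ k : SL3, qv (cv k φ) = qv φ ᵥ* toQ k := by
    intro k
    ext i
    simp only [vecMul, dotProduct, toQ, Matrix.map_apply, qv, cv]
    push_cast
    rfl
  have par_of : ∀ {a b : Fin 3 → ℤ} {c : ℚ}, qv b = c • qv a → Par a b := by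
    intro a b c hab p q
    have e1 := congrFun hab p
    have e2 := congrFun hab q
    simp only [qv, Pi.smul_apply, smul_eq_mul] at e1 e2
    have : ((a p * b q : ℤ) : ℚ) = ((a q * b p : ℤ) : ℚ) := by
      push_cast
      rw [e1, e2]
      ring
    exact_mod_cast this
  refine ⟨v, φ, hne, fun k hk => ?_, fun k hk => ?_⟩
  · apply pm_eig hv0
    apply par_of (c := cj x k 2 2)
    rw [hav, hv', mulVec_smul, smul_comm]
    congr 1
    have h1 : cj x k *ᵥ Pi.single 2 1 = cj x k 2 2 • (Pi.single 2 1 : Fin 3 → ℚ) := by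
      obtain ⟨_, _, a3, a4⟩ := h k hk
      rw [mulVec_single_one]
      ext i
      fin_cases i
      · simpa [Matrix.col_apply] using a3
      · simpa [Matrix.col_apply] using a4
      · simp [Matrix.col_apply]
    have h2 := congrArg (fun z => x *ᵥ z) h1
    simp only [mulVec_smul] at h2
    rw [← h2, mulVec_mulVec, mulVec_mulVec]
    unfold cj
    rw [← mul_assoc, ← mul_assoc, xx hx, one_mul]
  · apply pm_eig' hφ0
    apply par_of (c := cj x k 2 2)
    rw [hcv, hφ', smul_vecMul, smul_comm]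
    congr 1
    have h1 : Pi.single 2 1 ᵥ* cj x k = cj x k 2 2 • (Pi.single 2 1 : Fin 3 → ℚ) := by
      obtain ⟨a1, a2, _, _⟩ := h k hk
      rw [single_one_vecMul]
      ext i
      fin_cases i
      · simpa [Matrix.row_apply] using a1
      · simpa [Matrix.row_apply] using a2
      · simp [Matrix.row_apply]
    have h2 := congrArg (fun z => z ᵥ* x⁻¹) h1
    simp only [smul_vecMul] at h2
    rw [← h2, vecMul_vecMul, vecMul_vecMul]
    unfold cj
    rw [mul_assoc, xx hx, mul_one]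

/-- The case of trace different from three. -/
theorem trace_small {v φ y ψ : Fin 3 → ℤ} (hK : HasHaagerup H) (hφ : φ ≠ 0)
    (hψ : ψ ≠ 0) (T1 : Tr H v φ) (T2 : Tr H y ψ)
    (h0 : (φ ⬝ᵥ y) * (ψ ⬝ᵥ v) ≠ 0) (h4 : |(φ ⬝ᵥ y) * (ψ ⬝ᵥ v)| ≤ 4) : Dec H := by
  have ha : φ ⬝ᵥ y ≠ 0 := left_ne_zero_of_mul h0
  have hb : ψ ⬝ᵥ v ≠ 0 := right_ne_zero_of_mul h0
  -- the intersection of the axes
  obtain ⟨l, hl⟩ : ∃ l : Fin 3 → ℤ, l = ![φ 1 * ψ 2 - φ 2 * ψ 1, φ 2 * ψ 0 - φ 0 * ψ 2,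
    φ 0 * ψ 1 - φ 1 * ψ 0] := ⟨_, rfl⟩
  have hφl : φ ⬝ᵥ l = 0 := by
    rw [hl]
    simp [dotProduct, Fin.sum_univ_three]
    ring
  have hψl : ψ ⬝ᵥ l = 0 := by
    rw [hl]
    simp [dotProduct, Fin.sum_univ_three]
    ring
  have hφψ : ¬ Par φ ψ := by
    intro h
    obtain ⟨r, hr⟩ := Function.ne_iff.1 hφ
    have hr' : φ r ≠ 0 := hr
    have e1 := congrArg (fun z => z ⬝ᵥ v) (h.smul_eq r)
    simp only [smul_dotProduct, T1.1, smul_eq_mul, mul_zero] at e1
    exact mul_ne_zero hr' hb e1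
  have hl0 : l ≠ 0 := by
    intro h1
    apply hφψ
    rw [hl] at h1
    have c0 := congrFun h1 0
    have c1 := congrFun h1 1
    have c2 := congrFun h1 2
    simp at c0 c1 c2
    intro p q
    fin_cases p <;> fin_cases q
    · rfl
    · change φ 0 * ψ 1 = φ 1 * ψ 0
      linarith
    · change φ 0 * ψ 2 = φ 2 * ψ 0
      linarith
    · change φ 1 * ψ 0 = φ 0 * ψ 1
      linarith
    · rfl
    · change φ 1 * ψ 2 = φ 2 * ψ 1
      linarith
    · change φ 2 * ψ 0 = φ 0 * ψ 2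
      linarith
    · change φ 2 * ψ 1 = φ 1 * ψ 2
      linarith
    · rfl
  -- the subgroup which fixes this line
  obtain ⟨H', hH'⟩ : ∃ H' : Subgroup SL3, ∀ g, g ∈ H' ↔ g ∈ H ∧ av g l = l := by
    refine ⟨{ carrier := {g | g ∈ H ∧ av g l = l}, one_mem' := ⟨one_mem _, av_one l⟩,
              mul_mem' := fun {g h} hg hh => ⟨mul_mem hg.1 hh.1, by rw [av_mul, hh.2, hg.2]⟩,
              inv_mem' := fun {g} hg => ⟨inv_mem hg.1, ?_⟩ }, fun g => Iff.rfl⟩
    have h1 := congrArg (av g⁻¹) hg.2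
    rw [av_inv_av] at h1
    exact h1.symm
  have T1' : Tr H' v φ := by
    obtain ⟨h1, A, hA, hA'⟩ := T1
    exact ⟨h1, A, (hH' A).2 ⟨hA, by rw [av_of hA', hφl, zero_smul, add_zero]⟩, hA'⟩
  have T2' : Tr H' y ψ := by
    obtain ⟨h1, A, hA, hA'⟩ := T2
    exact ⟨h1, A, (hH' A).2 ⟨hA, by rw [av_of hA', hψl, zero_smul, add_zero]⟩, hA'⟩
  -- the basis
  obtain ⟨x, hxd⟩ : ∃ x : M3, x = Matrix.of fun i => ![qv v i, qv y i, qv l i] := ⟨_, rfl⟩
  have hmul : ∀ c : Fin 3 → ℚ, x *ᵥ c = c 0 • qv v + c 1 • qv y + c 2 • qv l := by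
    intro c
    ext i
    rw [hxd]
    simp [mulVec, dotProduct, Fin.sum_univ_three]
    ring
  have hrow : ∀ φ : Fin 3 → ℤ, qv φ ᵥ* x =
      ![((φ ⬝ᵥ v : ℤ) : ℚ), ((φ ⬝ᵥ y : ℤ) : ℚ), ((φ ⬝ᵥ l : ℤ) : ℚ)] := by
    intro φ
    rw [← qv_dot, ← qv_dot, ← qv_dot, hxd]
    ext j
    fin_cases j <;> simp [vecMul, dotProduct, Fin.sum_univ_three]
  have hx : x.det ≠ 0 := by
    intro h1
    obtain ⟨c, hc, hxc⟩ := Matrix.exists_mulVec_eq_zero_iff.2 h1
    apply hc
    rw [hmul] at hxc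
    have q1 := congrArg (fun z => qv φ ⬝ᵥ z) hxc
    have q2 := congrArg (fun z => qv ψ ⬝ᵥ z) hxc
    simp only [dotProduct_add, dotProduct_smul, qv_dot, T1.1, hφl, dotProduct_zero, smul_eq_mul,
      Int.cast_zero, mul_zero, zero_add, add_zero] at q1
    simp only [dotProduct_add, dotProduct_smul, qv_dot, T2.1, hψl, dotProduct_zero, smul_eq_mul,
      Int.cast_zero, mul_zero, add_zero] at q2
    have c1 : c 1 = 0 := (mul_eq_zero.1 q1).resolve_right (by exact_mod_cast ha)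
    have c0 : c 0 = 0 := (mul_eq_zero.1 q2).resolve_right (by exact_mod_cast hb)
    rw [c1, c0, zero_smul, zero_smul, zero_add, zero_add] at hxc
    have c2 : c 2 = 0 := (smul_eq_zero.1 hxc).resolve_right fun h => hl0 (qv_zero h)
    ext i
    fin_cases i
    · exact c0
    · exact c1
    · exact c2
  have hinj : Function.Injective (cjK hx H) := fun g h hgh => Subtype.ext (cj_inj hx hgh)
  have hfull : Full (cjK hx H) := by
    intro z θ hz hθ hθz
    by_cases hz0 : z = 0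
    · refine ⟨1, one_ne_zero, 1, ?_⟩
      rw [map_one, hz0, zero_vecMulVec, smul_zero, add_zero]
    by_cases hθ0 : θ = 0
    · refine ⟨1, one_ne_zero, 1, ?_⟩
      rw [map_one, hθ0, vecMulVec_zero, smul_zero, add_zero]
    obtain ⟨N, w, hN, hw⟩ := denom z
    obtain ⟨n, hn⟩ : ∃ n : ℕ, |w 0| + |w 1| ≤ n := ⟨_, Int.self_le_toNat _⟩
    obtain ⟨η, hη, hT⟩ := cen_of_small hφ hψ T1' T2' h0 h4 n (w 0) (w 1) hn
    obtain ⟨hT1, A, hA, hA'⟩ := hT
    have hAl := ((hH' A).1 hA).2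
    -- the vector
    have hzx : x *ᵥ (N • z) = qv (w 0 • v + w 1 • y) := by
      rw [hmul]
      simp only [Pi.smul_apply, smul_eq_mul, ← hw, hz, mul_zero, zero_smul, add_zero]
      have : N * z 2 = 0 := by rw [hz, mul_zero]
      ext i
      simp [qv]
    have hne : w 0 • v + w 1 • y ≠ 0 := by
      intro h1
      rw [h1] at hzx
      have h2 : N • z = 0 := by
        calc N • z = x⁻¹ *ᵥ (x *ᵥ (N • z)) := by rw [mulVec_mulVec, xx' hx, one_mulVec]
          _ = 0 := by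
            rw [hzx]
            have : qv 0 = 0 := by funext i; simp [qv]
            rw [this, mulVec_zero]
      exact hz0 ((smul_eq_zero.1 h2).resolve_left hN)
    have hηl : η ⬝ᵥ l = 0 := by
      rw [av_of hA', add_eq_left] at hAl
      exact (smul_eq_zero.1 hAl).resolve_right hne
    have hcj := cj_tv hx hA' hzx (hrow η)
    rw [hηl, Int.cast_zero] at hcj
    -- the form is proportional
    obtain ⟨ρ, hρ⟩ : ∃ ρ : Fin 3 → ℚ, ρ = ![((η ⬝ᵥ v : ℤ) : ℚ), ((η ⬝ᵥ y : ℤ) : ℚ), 0] := ⟨_, rfl⟩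
    rw [← hρ] at hcj
    have hρz : ρ 0 * z 0 + ρ 1 * z 1 = 0 := by
      have h1 : ((η ⬝ᵥ (w 0 • v + w 1 • y) : ℤ) : ℚ) = 0 := by rw [hT1, Int.cast_zero]
      rw [dotProduct_add, dotProduct_smul, dotProduct_smul] at h1
      push_cast at h1
      simp only [smul_eq_mul] at h1
      push_cast at h1
      rw [hw, hw] at h1
      have e0 : ρ 0 = ((η ⬝ᵥ v : ℤ) : ℚ) := by rw [hρ]; rfl
      have e1 : ρ 1 = ((η ⬝ᵥ y : ℤ) : ℚ) := by rw [hρ]; rfl
      have h2 : N * (ρ 0 * z 0 + ρ 1 * z 1) = 0 := by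
        rw [e0, e1]
        linear_combination h1
      exact (mul_eq_zero.1 h2).resolve_left hN
    have hρ2 : ρ 2 = 0 := by rw [hρ]; simp
    have hρ0 : ρ ≠ 0 := by
      intro h1
      have h2 : qv η = 0 := by
        have h3 : qv η ᵥ* x = 0 := by rw [hrow, hηl, Int.cast_zero, ← hρ, h1]
        calc qv η = (qv η ᵥ* x) ᵥ* x⁻¹ := by rw [vecMul_vecMul, xx hx, vecMul_one]
          _ = 0 := by rw [h3, zero_vecMul]
      exact hη (qv_zero h2)
    have hθz' : θ 0 * z 0 + θ 1 * z 1 = 0 := by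
      simp only [dotProduct, Fin.sum_univ_three, hz, mul_zero, add_zero] at hθz
      exact hθz
    have hz01 : z 0 ≠ 0 ∨ z 1 ≠ 0 := vec3_ne hz0 hz
    have hθ01 : θ 0 ≠ 0 ∨ θ 1 ≠ 0 := vec3_ne hθ0 hθ
    have hρ01 : ρ 0 ≠ 0 ∨ ρ 1 ≠ 0 := vec3_ne hρ0 hρ2
    obtain ⟨c, hc, hcρ⟩ : ∃ c : ℚ, c ≠ 0 ∧ ρ = c • θ := by
      by_cases hz1 : z 1 = 0
      · have hz00 : z 0 ≠ 0 := hz01.resolve_right (not_not.2 hz1)
        rw [hz1, mul_zero, add_zero] at hρz hθz'
        have r0 : ρ 0 = 0 := (mul_eq_zero.1 hρz).resolve_right hz00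
        have t0 : θ 0 = 0 := (mul_eq_zero.1 hθz').resolve_right hz00
        have r1 : ρ 1 ≠ 0 := hρ01.resolve_left (not_not.2 r0)
        have t1 : θ 1 ≠ 0 := hθ01.resolve_left (not_not.2 t0)
        refine ⟨ρ 1 / θ 1, div_ne_zero r1 t1, ?_⟩
        ext i
        fin_cases i
        · simp [r0, t0]
        · simp [t1]
        · simp [hρ2, hθ]
      · have t0 : θ 0 ≠ 0 := by
          intro h1
          rw [h1, zero_mul, zero_add] at hθz'
          exact (hθ01.resolve_left (not_not.2 h1)) ((mul_eq_zero.1 hθz').resolve_right hz1)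
        have r0 : ρ 0 ≠ 0 := by
          intro h1
          rw [h1, zero_mul, zero_add] at hρz
          exact (hρ01.resolve_left (not_not.2 h1)) ((mul_eq_zero.1 hρz).resolve_right hz1)
        refine ⟨ρ 0 / θ 0, div_ne_zero r0 t0, ?_⟩
        ext i
        fin_cases i
        · simp [t0]
        · simp only [Fin.mk_one, Pi.smul_apply, smul_eq_mul]
          have h1 : (ρ 1 * θ 0 - ρ 0 * θ 1) * z 1 = 0 := by
            linear_combination θ 0 * hρz - ρ 0 * hθz'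
          have h2 := (mul_eq_zero.1 h1).resolve_right hz1
          field_simp
          linarith
        · simp [hρ2, hθ]
    refine ⟨N * c, mul_ne_zero hN hc, ⟨A, ((hH' A).1 hA).1⟩, ?_⟩
    change cj x A = _
    rw [hcj, hcρ, vecMulVec_smul, smul_vecMulVec, smul_smul, mul_comm c N]
  exact dec_of_bd hx fun k hk => by
    have h1 := block hinj hfull hK ⟨k, hk⟩
    exact h1

end Pool.Agent.Run7.h25.HA
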