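import Pool.Agent.Run7.h25.HA.Gns

/-!
# Groups of `3 × 3` matrices containing many block diagonal transvections
-/

set_option autoImplicit false

namespace Pool.Agent.Run7.h25.HA

open Matrix

/-- Three by three rational matrices. -/
abbrev M3 : Type := Matrix (Fin 3) (Fin 3) ℚ

/-- Elements of the unipotent radical. -/
def lo (a b : ℚ) : M3 := !![1, 0, 0; 0, 1, 0; a, b, 1]

/-- Upper elementary matrices. -/
def e12 (t : ℚ) : M3 := !![1, t, 0; 0, 1, 0; 0, 0, 1]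

/-- Lower elementary matrices. -/
def e21 (t : ℚ) : M3 := !![1, 0, 0; t, 1, 0; 0, 0, 1]

lemma lo_mul (a b c d : ℚ) : lo a b * lo c d = lo (a + c) (b + d) := by
  ext i j
  fin_cases i <;> fin_cases j <;> simp [lo, Matrix.mul_apply, Fin.sum_univ_three]

lemma e12_mul (s t : ℚ) : e12 s * e12 t = e12 (s + t) := by
  ext i j
  fin_cases i <;> fin_cases j <;> simp [e12, Matrix.mul_apply, Fin.sum_univ_three]
  ring

lemma e21_mul (s t : ℚ) : e21 s * e21 t = e21 (s + t) := by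
  ext i j
  fin_cases i <;> fin_cases j <;> simp [e21, Matrix.mul_apply, Fin.sum_univ_three]

lemma lo_e12 (a b t : ℚ) : lo a b * e12 t = e12 t * lo a (b + t * a) := by
  ext i j
  fin_cases i <;> fin_cases j <;> simp [e12, lo, Matrix.mul_apply, Fin.sum_univ_three]
  ring

lemma lo_e21 (a b t : ℚ) : lo a b * e21 t = e21 t * lo (a + t * b) b := by
  ext i j
  fin_cases i <;> fin_cases j <;> simp [e21, lo, Matrix.mul_apply, Fin.sum_univ_three]
  ring

lemma lo_zero : lo 0 0 = 1 := by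
  ext i j
  fin_cases i <;> fin_cases j <;> simp [lo]

lemma e12_zero : e12 0 = 1 := by
  ext i j
  fin_cases i <;> fin_cases j <;> simp [e12]

lemma e21_zero : e21 0 = 1 := by
  ext i j
  fin_cases i <;> fin_cases j <;> simp [e21]

section grp

variable {Γ : Type} [Group Γ] (m : Γ →* M3)

lemma m_inv_mul (g : Γ) : m g⁻¹ * m g = 1 := by rw [← map_mul, inv_mul_cancel, map_one]

lemma m_mul_inv (g : Γ) : m g * m g⁻¹ = 1 := by rw [← map_mul, mul_inv_cancel, map_one]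

variable {m}

lemma m_inv_of {g : Γ} {X : M3} (h : X * m g = 1) : m g⁻¹ = X := by
  calc m g⁻¹ = X * m g * m g⁻¹ := by rw [h, one_mul]
    _ = X := by rw [mul_assoc, m_mul_inv, mul_one]

/-- One-parameter groups. -/
lemma m_zpow {f : ℚ → M3} (hf0 : f 0 = 1) (hf : ∀ s t, f s * f t = f (s + t)) {g : Γ} {t : ℚ}
    (hg : m g = f t) (j : ℤ) : m (g ^ j) = f (j * t) := by
  have hinv : m g⁻¹ = f (-t) := by
    apply m_inv_of
    rw [hg, hf, neg_add_cancel, hf0]
  induction j using Int.induction_on with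
  | zero => rw [zpow_zero, map_one, Int.cast_zero, zero_mul, hf0]
  | succ i ih =>
    rw [_root_.zpow_add_one, map_mul, ih, hg, hf]
    congr 1
    push_cast
    ring
  | pred i ih =>
    rw [_root_.zpow_sub_one, map_mul, ih, hinv, hf]
    congr 1
    push_cast
    ring

lemma lo1_zpow {g : Γ} {a : ℚ} (hg : m g = lo a 0) (j : ℤ) : m (g ^ j) = lo (j * a) 0 :=
  m_zpow (f := fun t => lo t 0) lo_zero (fun s t => by rw [lo_mul, add_zero]) hg j

lemma lo2_zpow {g : Γ} {a : ℚ} (hg : m g = lo 0 a) (j : ℤ) : m (g ^ j) = lo 0 (j * a) :=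
  m_zpow (f := fun t => lo 0 t) lo_zero (fun s t => by rw [lo_mul, add_zero]) hg j

lemma lo_inj {a b c d : ℚ} (h : lo a b = lo c d) : a = c ∧ b = d := by
  have h1 := congrFun (congrFun h 2) 0
  have h2 := congrFun (congrFun h 2) 1
  simp [lo] at h1 h2
  exact ⟨h1, h2⟩

/-- The configuration to which relative property (T) applies. -/
lemma config (hm : Function.Injective m) {A B u v : Γ} {s t c d : ℚ} (hs : s ≠ 0) (ht : t ≠ 0)
    (hc : c ≠ 0) (hd : d ≠ 0) (hA : m A = e12 t) (hB : m B = e21 s) (hu : m u = lo c 0)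
    (hv : m v = lo 0 d) : ¬ HasHaagerup Γ := by
  obtain ⟨p, hp⟩ : ∃ p : ℚ, p = t * c / d := ⟨_, rfl⟩
  obtain ⟨q, hq⟩ : ∃ q : ℚ, q = s * d / c := ⟨_, rfl⟩
  have hp0 : p ≠ 0 := by rw [hp]; exact div_ne_zero (mul_ne_zero ht hc) hd
  have hq0 : q ≠ 0 := by rw [hq]; exact div_ne_zero (mul_ne_zero hs hd) hc
  have hpn : p.num ≠ 0 := Rat.num_ne_zero.2 hp0
  have hqn : q.num ≠ 0 := Rat.num_ne_zero.2 hq0
  obtain ⟨n, hn⟩ : ∃ n : ℕ, n = 7 * p.num.natAbs ^ 2 * q.num.natAbs ^ 2 := ⟨_, rfl⟩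
  have hn7 : 7 ≤ n := by
    rw [hn]
    have h1 : 0 < p.num.natAbs ^ 2 := by positivity
    have h2 : 0 < q.num.natAbs ^ 2 := by positivity
    have h3 : 0 < p.num.natAbs ^ 2 * q.num.natAbs ^ 2 := Nat.mul_pos h1 h2
    nlinarith
  have hnQ : (n : ℚ) = 7 * (p.num : ℚ) ^ 2 * (q.num : ℚ) ^ 2 := by
    rw [hn]
    push_cast
    rw [show ((p.num.natAbs : ℕ) : ℚ) = |(p.num : ℚ)| by rw [Nat.cast_natAbs]; push_cast; rfl,
      show ((q.num.natAbs : ℕ) : ℚ) = |(q.num : ℚ)| by rw [Nat.cast_natAbs]; push_cast; rfl,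
      sq_abs, sq_abs]
  have hpd : (p.den : ℚ) ≠ 0 := by exact_mod_cast p.den_ne_zero
  have hqd : (q.den : ℚ) ≠ 0 := by exact_mod_cast q.den_ne_zero
  have hpp : p * p.den = p.num := Rat.mul_den_eq_num p
  have hqq : q * q.den = q.num := Rat.mul_den_eq_num q
  obtain ⟨j, hj⟩ : ∃ j : ℤ, (j : ℚ) * t * c = n * d := by
    refine ⟨7 * q.num ^ 2 * p.num * p.den, ?_⟩
    have h1 : t * c = p * d := by rw [hp]; field_simp
    push_cast
    rw [hnQ, mul_assoc _ t c, h1]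
    linear_combination (7 * (q.num : ℚ) ^ 2 * p.num * d) * hpp
  obtain ⟨l, hl⟩ : ∃ l : ℤ, (l : ℚ) * s * d = n * c := by
    refine ⟨7 * p.num ^ 2 * q.num * q.den, ?_⟩
    have h1 : s * d = q * c := by rw [hq]; field_simp
    push_cast
    rw [hnQ, mul_assoc _ s d, h1]
    linear_combination (7 * (p.num : ℚ) ^ 2 * q.num * c) * hqq
  have hAj : m (A ^ (-j)) = e12 (-(j * t)) := by
    rw [m_zpow (f := e12) e12_zero e12_mul hA (-j)]
    congr 1
    push_cast
    ring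
  have hBl : m (B ^ (-l)) = e21 (-(l * s)) := by
    rw [m_zpow (f := e21) e21_zero e21_mul hB (-l)]
    congr 1
    push_cast
    ring
  have hvn : m (v ^ n) = lo 0 (n * d) := by
    rw [← zpow_natCast, lo2_zpow hv]
    push_cast
    rfl
  have hun : m (u ^ n) = lo (n * c) 0 := by
    rw [← zpow_natCast, lo1_zpow hu]
    push_cast
    rfl
  have r1 : ∀ a b t : ℚ, e12 (-t) * lo a b = lo a (b + t * a) * e12 (-t) := by
    intro a b t
    rw [lo_e12]
    congr 2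
    ring
  have r2 : ∀ a b t : ℚ, e21 (-t) * lo a b = lo (a + t * b) b * e21 (-t) := by
    intro a b t
    rw [lo_e21]
    congr 2
    ring
  refine not_haagerup (u := u) (v := v) (a := A ^ (-j)) (b := B ^ (-l)) hn7 ?_ ?_ ?_ ?_ ?_ ?_
  · apply hm
    rw [map_mul, map_mul, hu, hv, lo_mul, lo_mul, add_comm c, add_comm 0 d]
  · apply hm
    rw [map_mul, map_mul, map_mul, hAj, hu, hvn, r1, lo_mul]
    congr 2
    · ring
    · linear_combination hj
  · apply hm
    rw [map_mul, map_mul, hAj, hv, r1, mul_zero, add_zero]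
  · apply hm
    rw [map_mul, map_mul, map_mul, hBl, hv, hun, r2, lo_mul]
    congr 2
    · linear_combination hl
    · ring
  · apply hm
    rw [map_mul, map_mul, hBl, hu, r2, mul_zero, add_zero]
  · intro k hk
    have h1 := lo1_zpow hu k
    rw [hk, map_one, ← lo_zero] at h1
    have h2 := (lo_inj h1).1
    have h3 := (mul_eq_zero.1 h2.symm).resolve_right hc
    exact_mod_cast h3

/-- A nontrivial element of the unipotent radical. -/
lemma radical (hm : Function.Injective m) {A B r : Γ} {s t a b : ℚ} (hs : s ≠ 0) (ht : t ≠ 0)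
    (hA : m A = e12 t) (hB : m B = e21 s) (hr : m r = lo a b) (hab : a ≠ 0 ∨ b ≠ 0) :
    ¬ HasHaagerup Γ := by
  have hinvA : m A⁻¹ = e12 (-t) := by
    apply m_inv_of
    rw [hA, e12_mul, neg_add_cancel, e12_zero]
  have hinvB : m B⁻¹ = e21 (-s) := by
    apply m_inv_of
    rw [hB, e21_mul, neg_add_cancel, e21_zero]
  have c1 : ∀ {r : Γ} {a b : ℚ}, m r = lo a b → m (A⁻¹ * r * A * r⁻¹) = lo 0 (t * a) := by
    intro r a b hr
    have hinv : m r⁻¹ = lo (-a) (-b) := by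
      apply m_inv_of
      rw [hr, lo_mul, neg_add_cancel, neg_add_cancel, lo_zero]
    rw [map_mul, map_mul, map_mul, hinvA, hr, hA, hinv, mul_assoc (e12 (-t)), lo_e12, ← mul_assoc,
      e12_mul, neg_add_cancel, e12_zero, one_mul, lo_mul]
    congr 1 <;> ring
  have c2 : ∀ {r : Γ} {a b : ℚ}, m r = lo a b → m (B⁻¹ * r * B * r⁻¹) = lo (s * b) 0 := by
    intro r a b hr
    have hinv : m r⁻¹ = lo (-a) (-b) := by
      apply m_inv_of
      rw [hr, lo_mul, neg_add_cancel, neg_add_cancel, lo_zero]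
    rw [map_mul, map_mul, map_mul, hinvB, hr, hB, hinv, mul_assoc (e21 (-s)), lo_e21, ← mul_assoc,
      e21_mul, neg_add_cancel, e21_zero, one_mul, lo_mul]
    congr 1 <;> ring
  by_cases ha : a = 0
  · have hb : b ≠ 0 := hab.resolve_left (not_not.2 ha)
    have h1 := c2 hr
    have h2 := c1 h1
    exact config hm hs ht (mul_ne_zero hs hb) (mul_ne_zero ht (mul_ne_zero hs hb)) hA hB h1 h2
  · have h1 := c1 hr
    have h2 := c2 h1
    exact config hm hs ht (mul_ne_zero hs (mul_ne_zero ht ha)) (mul_ne_zero ht ha) hA hB h2 h1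

/-- The group contains a power of each transvection of the plane. -/
def Full (m : Γ →* M3) : Prop :=
  ∀ y θ : Fin 3 → ℚ, y 2 = 0 → θ 2 = 0 → θ ⬝ᵥ y = 0 →
    ∃ M : ℚ, M ≠ 0 ∧ ∃ g : Γ, m g = 1 + M • vecMulVec y θ

lemma vvq_zero {v w φ ψ : Fin 3 → ℚ} (h : φ ⬝ᵥ w = 0) : vecMulVec v φ * vecMulVec w ψ = 0 := by
  rw [vecMulVec_mul_vecMulVec, h, zero_smul, vecMulVec_zero]

lemma tv_mul {v w φ : Fin 3 → ℚ} (h : φ ⬝ᵥ w = 0) (s t : ℚ) :
    (1 + s • vecMulVec v φ) * (1 + t • vecMulVec w φ) = 1 + vecMulVec (s • v + t • w) φ := by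
  rw [add_mul, one_mul, mul_add, mul_one, Matrix.smul_mul, Matrix.mul_smul, vvq_zero h, smul_zero,
    smul_zero, add_zero, add_vecMulVec, smul_vecMulVec, smul_vecMulVec]
  abel

lemma tv_inv {v φ : Fin 3 → ℚ} (h : φ ⬝ᵥ v = 0) {s : ℚ} {g : Γ}
    (hg : m g = 1 + s • vecMulVec v φ) : m g⁻¹ = 1 + (-s) • vecMulVec v φ := by
  apply m_inv_of
  rw [hg, tv_mul h, ← add_smul, neg_add_cancel, zero_smul, zero_vecMulVec, add_zero]

lemma lo_eq (c : ℚ) {φ : Fin 3 → ℚ} (hφ : φ 2 = 0) :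
    1 + vecMulVec (![0, 0, c]) φ = lo (c * φ 0) (c * φ 1) := by
  ext i j
  rw [Matrix.add_apply, Matrix.one_apply, vecMulVec_apply]
  fin_cases i <;> fin_cases j <;> simp [lo, hφ]

lemma full_e12 (hf : Full m) : ∃ t : ℚ, t ≠ 0 ∧ ∃ g, m g = e12 t := by
  obtain ⟨M, hM, g, hg⟩ := hf ![1, 0, 0] ![0, 1, 0] rfl rfl (by simp [dotProduct, Fin.sum_univ_three])
  refine ⟨M, hM, g, ?_⟩
  rw [hg]
  ext i j
  fin_cases i <;> fin_cases j <;> simp [e12]

lemma full_e21 (hf : Full m) : ∃ t : ℚ, t ≠ 0 ∧ ∃ g, m g = e21 t := by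
  obtain ⟨M, hM, g, hg⟩ := hf ![0, 1, 0] ![1, 0, 0] rfl rfl (by simp [dotProduct, Fin.sum_univ_three])
  refine ⟨M, hM, g, ?_⟩
  rw [hg]
  ext i j
  fin_cases i <;> fin_cases j <;> simp [e21]

lemma vec3_ne {φ : Fin 3 → ℚ} (h : φ ≠ 0) (h2 : φ 2 = 0) : φ 0 ≠ 0 ∨ φ 1 ≠ 0 := by
  by_contra hcon
  push Not at hcon
  apply h
  ext i
  fin_cases i
  · exact hcon.1
  · exact hcon.2
  · exact h2

/-- A transvection with axis containing the third vector and centre outside the plane. -/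
lemma alpha (hm : Function.Injective m) (hf : Full m) {T : Γ} {s : ℚ} (hs : s ≠ 0)
    {z η : Fin 3 → ℚ} (hT : m T = 1 + s • vecMulVec z η) (hηz : η ⬝ᵥ z = 0) (hη : η ≠ 0)
    (hη2 : η 2 = 0) (hz : z 2 ≠ 0) : ¬ HasHaagerup Γ := by
  obtain ⟨t1, ht1, A, hA⟩ := full_e12 hf
  obtain ⟨t2, ht2, B, hB⟩ := full_e21 hf
  have hd : η ⬝ᵥ ![z 0, z 1, 0] = 0 := by
    have h1 : η ⬝ᵥ z = η 0 * z 0 + η 1 * z 1 + η 2 * z 2 := by
      simp [dotProduct, Fin.sum_univ_three]
    rw [hηz, hη2] at h1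
    simp only [dotProduct, Fin.sum_univ_three]
    simp
    linarith
  obtain ⟨M, hM, g, hg⟩ := hf ![z 0, z 1, 0] η rfl hη2 hd
  -- make the two scalars equal
  have hMs : M / s ≠ 0 := div_ne_zero hM hs
  obtain ⟨p, hp⟩ : ∃ p : ℚ, p = s / M := ⟨_, rfl⟩
  have hp0 : p ≠ 0 := by rw [hp]; exact div_ne_zero hs hM
  have hpd : (p.den : ℚ) ≠ 0 := by exact_mod_cast p.den_ne_zero
  have hpn : (p.num : ℚ) ≠ 0 := by exact_mod_cast Rat.num_ne_zero.2 hp0
  have hpp : p * p.den = p.num := Rat.mul_den_eq_num p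
  have hT' : m (T ^ (p.den : ℤ)) = 1 + ((p.den : ℚ) * s) • vecMulVec z η := by
    have := m_zpow (m := m) (f := fun t => 1 + t • vecMulVec z η) (by simp only [zero_smul, add_zero])
      (fun s t => by rw [tv_mul hηz, ← add_smul, smul_vecMulVec]) hT (p.den : ℤ)
    simpa using this
  have hg' : m (g ^ (-p.num)) = 1 + (-((p.den : ℚ) * s)) • vecMulVec ![z 0, z 1, 0] η := by
    have := m_zpow (m := m) (f := fun t => 1 + t • vecMulVec ![z 0, z 1, 0] η)
      (by simp only [zero_smul, add_zero])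
      (fun s t => by rw [tv_mul hd, ← add_smul, smul_vecMulVec]) hg (-p.num)
    rw [this]
    congr 2
    push_cast
    have h1 : s = p * M := by rw [hp]; field_simp
    rw [h1]
    linear_combination M * hpp
  have hr : m (T ^ (p.den : ℤ) * g ^ (-p.num)) =
      lo ((p.den : ℚ) * s * z 2 * η 0) ((p.den : ℚ) * s * z 2 * η 1) := by
    rw [map_mul, hT', hg', tv_mul hd, ← lo_eq _ hη2]
    congr 2
    ext i
    fin_cases i <;> simp
  refine radical hm ht2 ht1 hA hB hr ?_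
  have hne : (p.den : ℚ) * s * z 2 ≠ 0 := mul_ne_zero (mul_ne_zero hpd hs) hz
  rcases vec3_ne hη hη2 with h | h
  · exact Or.inl (mul_ne_zero hne h)
  · exact Or.inr (mul_ne_zero hne h)

lemma vecMul_ne {g : Γ} {θ : Fin 3 → ℚ} (hθ : θ ≠ 0) : θ ᵥ* m g ≠ 0 := by
  intro h
  apply hθ
  calc θ = (θ ᵥ* m g) ᵥ* m g⁻¹ := by rw [vecMul_vecMul, m_mul_inv, vecMul_one]
    _ = 0 := by rw [h, zero_vecMul]

lemma conj_tv (k g : Γ) {s : ℚ} {y θ : Fin 3 → ℚ} (hg : m g = 1 + s • vecMulVec y θ) :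
    m (k * g * k⁻¹) = 1 + s • vecMulVec (m k *ᵥ y) (θ ᵥ* m k⁻¹) := by
  rw [map_mul, map_mul, hg, mul_add, add_mul, mul_one, m_mul_inv, Matrix.mul_smul, Matrix.smul_mul,
    mul_vecMulVec, vecMulVec_mul]

lemma conj_dot (k : Γ) {y θ : Fin 3 → ℚ} (h : θ ⬝ᵥ y = 0) :
    (θ ᵥ* m k⁻¹) ⬝ᵥ (m k *ᵥ y) = 0 := by
  rw [← dotProduct_mulVec, mulVec_mulVec, m_inv_mul, one_mulVec, h]

/-- An element whose corner entries do not have product one. -/
lemma gamma (hm : Function.Injective m) (hf : Full m) (T : Γ)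
    (h : m T 2 2 * m T⁻¹ 2 2 ≠ 1) : ¬ HasHaagerup Γ := by
  obtain ⟨X, hX⟩ : ∃ X, X = m T := ⟨_, rfl⟩
  obtain ⟨Y, hY⟩ : ∃ Y, Y = m T⁻¹ := ⟨_, rfl⟩
  rw [← hX, ← hY] at h
  have hYX : Y * X = 1 := by rw [hX, hY]; exact m_inv_mul m T
  obtain ⟨M, hM, g, hg⟩ := hf ![X 0 2, X 1 2, 0] ![-(X 1 2), X 0 2, 0] rfl rfl (by
    simp [dotProduct, Fin.sum_univ_three]
    ring)
  have e22 := congrFun (congrFun hYX 2) 2
  rw [Matrix.mul_apply, Fin.sum_univ_three, Matrix.one_apply_eq] at e22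
  have hz : (Y *ᵥ ![X 0 2, X 1 2, 0]) 2 = 1 - Y 2 2 * X 2 2 := by
    simp [mulVec, dotProduct, Fin.sum_univ_three]
    linarith
  have hne : (![-(X 1 2), X 0 2, 0] : Fin 3 → ℚ) ≠ 0 := by
    intro h0
    have h1 := congrFun h0 0
    have h2 := congrFun h0 1
    simp at h1 h2
    rw [h1, h2] at e22
    apply h
    linarith
  have hW := conj_tv T⁻¹ g hg
  rw [inv_inv, ← hX, ← hY] at hW
  refine alpha hm hf hM hW ?_ ?_ ?_ ?_
  · have := conj_dot (m := m) T⁻¹ (y := ![X 0 2, X 1 2, 0]) (θ := ![-(X 1 2), X 0 2, 0]) (by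
      simp [dotProduct, Fin.sum_univ_three]
      ring)
    rw [inv_inv, ← hX, ← hY] at this
    exact this
  · rw [hX]
    rw [hX] at hne
    exact vecMul_ne hne
  · simp [vecMul, dotProduct, Fin.sum_univ_three]
    ring
  · rw [hz]
    intro h0
    apply h
    linarith

/-- An element which does not preserve the plane. -/
lemma row_case (hm : Function.Injective m) (hf : Full m) (k : Γ)
    (h : m k 2 0 ≠ 0 ∨ m k 2 1 ≠ 0) : ¬ HasHaagerup Γ := by
  have main : ∀ y θ : Fin 3 → ℚ, y 2 = 0 → θ 2 = 0 → θ ⬝ᵥ y = 0 → θ ≠ 0 →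
      (m k *ᵥ y) 2 ≠ 0 → ¬ HasHaagerup Γ := by
    intro y θ hy hθ hθy hθ0 hz
    obtain ⟨M, hM, g, hg⟩ := hf y θ hy hθ hθy
    have hW := conj_tv k g hg
    have hd := conj_dot (m := m) k hθy
    by_cases hη : (θ ᵥ* m k⁻¹) 2 = 0
    · exact alpha hm hf hM hW hd (vecMul_ne hθ0) hη hz
    · apply gamma hm hf (k * g * k⁻¹)
      have hW' := tv_inv hd hW
      rw [hW', hW]
      simp only [Matrix.add_apply, Matrix.smul_apply, vecMulVec_apply, Matrix.one_apply_eq,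
        smul_eq_mul]
      intro h0
      have h1 : (M * ((m k *ᵥ y) 2 * (θ ᵥ* m k⁻¹) 2)) ^ 2 = 0 := by linear_combination -h0
      exact pow_ne_zero 2 (mul_ne_zero hM (mul_ne_zero hz hη)) h1
  rcases h with h | h
  · refine main ![1, 0, 0] ![0, 1, 0] rfl rfl (by simp [dotProduct, Fin.sum_univ_three]) ?_ ?_
    · intro h0
      have := congrFun h0 1
      simp at this
    · simpa [mulVec, dotProduct, Fin.sum_univ_three] using h
  · refine main ![0, 1, 0] ![1, 0, 0] rfl rfl (by simp [dotProduct, Fin.sum_univ_three]) ?_ ?_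
    · intro h0
      have := congrFun h0 0
      simp at this
    · simpa [mulVec, dotProduct, Fin.sum_univ_three] using h

/-- The inverse transpose. -/
def invT (m : Γ →* M3) : Γ →* M3 where
  toFun g := (m g⁻¹)ᵀ
  map_one' := by rw [inv_one, map_one, transpose_one]
  map_mul' g h := by rw [_root_.mul_inv_rev, map_mul, transpose_mul]

/-- **Haagerup subgroups are block diagonal.** -/
theorem block (hm : Function.Injective m) (hf : Full m) (hh : HasHaagerup Γ) (k : Γ) :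
    m k 2 0 = 0 ∧ m k 2 1 = 0 ∧ m k 0 2 = 0 ∧ m k 1 2 = 0 := by
  have h1 : ¬ (m k 2 0 ≠ 0 ∨ m k 2 1 ≠ 0) := fun h => row_case hm hf k h hh
  have hm' : Function.Injective (invT m) := by
    intro g h hgh
    have : m g⁻¹ = m h⁻¹ := transpose_injective hgh
    exact inv_injective (hm this)
  have hf' : Full (invT m) := by
    intro y θ hy hθ hθy
    obtain ⟨M, hM, g, hg⟩ := hf θ y hθ hy (by rw [dotProduct_comm, hθy])
    refine ⟨-M, neg_ne_zero.2 hM, g, ?_⟩
    change (m g⁻¹)ᵀ = _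
    rw [tv_inv (by rw [dotProduct_comm, hθy]) hg, transpose_add, transpose_one, transpose_smul,
      transpose_vecMulVec]
  have h2 : ¬ (invT m k⁻¹ 2 0 ≠ 0 ∨ invT m k⁻¹ 2 1 ≠ 0) := fun h => row_case hm' hf' k⁻¹ h hh
  have e : invT m k⁻¹ = (m k)ᵀ := by
    change (m k⁻¹⁻¹)ᵀ = _
    rw [inv_inv]
  rw [e, transpose_apply, transpose_apply] at h2
  push Not at h1 h2
  exact ⟨h1.1, h1.2, h2.1, h2.2⟩

end grp

end Pool.Agent.Run7.h25.HA
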