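import Pool.Agent.Run7.h25.HA.Gns

/-!
# The Haagerup property of groups of `2 × 2` matrices
-/

set_option autoImplicit false

namespace Pool.Agent.Run7.h25.HA

open Finset Matrix
open scoped ComplexOrder

section ker

variable {κ : Type} [Fintype κ]

lemma psd_real (a : κ → ℝ) :
    (Matrix.of fun i j : κ => ((a i * a j : ℝ) : ℂ)).PosSemidef := by
  have h := Matrix.posSemidef_vecMulVec_self_star (fun i : κ => (a i : ℂ))
  have h2 : (Matrix.of fun i j : κ => ((a i * a j : ℝ) : ℂ)) =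
      Matrix.vecMulVec (fun i : κ => (a i : ℂ)) (star fun i : κ => (a i : ℂ)) := by
    ext i j
    simp [Matrix.vecMulVec]
  rw [h2]
  exact h

lemma pow_kernel (a b c : κ → ℝ) (k : ℕ) :
    0 ≤ ∑ i, ∑ j, c i * c j * (a i * a j + b i * b j) ^ k := by
  have h1 := psd_re (psd_pow ((psd_real a).add (psd_real b)) k) (fun i => (c i : ℂ))
  refine h1.trans (le_of_eq ?_)
  rw [Complex.re_sum]
  refine sum_congr rfl fun i _ => ?_
  rw [Complex.re_sum]
  refine sum_congr rfl fun j _ => ?_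
  rw [Matrix.of_apply, Matrix.add_apply, Matrix.of_apply, Matrix.of_apply, Complex.conj_ofReal,
    ← Complex.ofReal_add, ← Complex.ofReal_pow, ← Complex.ofReal_mul, ← Complex.ofReal_mul,
    Complex.ofReal_re]

/-- The logarithmic kernel. -/
lemma log_kernel (a b c : κ → ℝ) (h : ∀ i, a i ^ 2 + b i ^ 2 < 1) :
    ∑ i, ∑ j, c i * c j * Real.log (1 - (a i * a j + b i * b j)) ≤ 0 := by
  have hx : ∀ i j, |a i * a j + b i * b j| < 1 := by
    intro i j
    have h1 := h i
    have h2 := h j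
    rw [abs_lt]
    constructor
    · nlinarith [sq_nonneg (a i + a j), sq_nonneg (b i + b j)]
    · nlinarith [sq_nonneg (a i - a j), sq_nonneg (b i - b j)]
  have h1 : ∀ i j, HasSum (fun k : ℕ => (a i * a j + b i * b j) ^ (k + 1) / ((k : ℝ) + 1))
      (-Real.log (1 - (a i * a j + b i * b j))) := fun i j =>
    Real.hasSum_pow_div_log_of_abs_lt_one (hx i j)
  have h2 : HasSum (fun k : ℕ => ∑ i, ∑ j, c i * c j *
      ((a i * a j + b i * b j) ^ (k + 1) / ((k : ℝ) + 1)))
      (∑ i, ∑ j, c i * c j * (-Real.log (1 - (a i * a j + b i * b j)))) :=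
    hasSum_sum fun i _ => hasSum_sum fun j _ => (h1 i j).mul_left _
  have h3 : 0 ≤ ∑ i, ∑ j, c i * c j * (-Real.log (1 - (a i * a j + b i * b j))) := by
    refine h2.nonneg fun k => ?_
    have h4 := pow_kernel a b c (k + 1)
    have h5 : ∑ i, ∑ j, c i * c j * ((a i * a j + b i * b j) ^ (k + 1) / ((k : ℝ) + 1)) =
        (∑ i, ∑ j, c i * c j * (a i * a j + b i * b j) ^ (k + 1)) / ((k : ℝ) + 1) := by
      rw [sum_div]
      refine sum_congr rfl fun i _ => ?_
      rw [sum_div]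
      refine sum_congr rfl fun j _ => ?_
      rw [mul_div_assoc]
    rw [h5]
    positivity
  have h6 : ∑ i, ∑ j, c i * c j * (-Real.log (1 - (a i * a j + b i * b j))) =
      -∑ i, ∑ j, c i * c j * Real.log (1 - (a i * a j + b i * b j)) := by
    rw [← sum_neg_distrib]
    refine sum_congr rfl fun i _ => ?_
    rw [← sum_neg_distrib]
    refine sum_congr rfl fun j _ => ?_
    ring
  rw [h6] at h3
  linarith

end ker

variable {Γ : Type} [Group Γ] (h : Γ →* Matrix (Fin 2) (Fin 2) ℝ)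

/-- Half of the square of the norm. -/
noncomputable def tau (g : Γ) : ℝ :=
  (h g 0 0 ^ 2 + h g 0 1 ^ 2 + h g 1 0 ^ 2 + h g 1 1 ^ 2) / 2

/-- Half of the difference of the norms of the rows. -/
noncomputable def sig (g : Γ) : ℝ :=
  (h g 0 0 ^ 2 + h g 0 1 ^ 2 - h g 1 0 ^ 2 - h g 1 1 ^ 2) / 2

/-- The product of the rows. -/
noncomputable def quu (g : Γ) : ℝ := h g 0 0 * h g 1 0 + h g 0 1 * h g 1 1

variable {h}

lemma tau_sq (hdet : ∀ g, (h g).det ^ 2 = 1) (g : Γ) : tau h g ^ 2 = 1 + sig h g ^ 2 + quu h g ^ 2 := by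
  have h1 := hdet g
  rw [det_fin_two] at h1
  unfold tau sig quu
  linear_combination h1

lemma tau_pos (hdet : ∀ g, (h g).det ^ 2 = 1) (g : Γ) : 1 ≤ tau h g := by
  have h1 := tau_sq hdet g
  have h0 : 0 ≤ tau h g := by unfold tau; positivity
  nlinarith [sq_nonneg (sig h g), sq_nonneg (quu h g)]

lemma inv_entries (hdet : ∀ g, (h g).det ^ 2 = 1) (g : Γ) :
    h g⁻¹ 0 0 = (h g).det * h g 1 1 ∧ h g⁻¹ 0 1 = -((h g).det * h g 0 1) ∧
      h g⁻¹ 1 0 = -((h g).det * h g 1 0) ∧ h g⁻¹ 1 1 = (h g).det * h g 0 0 := by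
  have h1 : h g⁻¹ * h g = 1 := by rw [← map_mul, inv_mul_cancel, map_one]
  have h2 := hdet g
  have h3 : h g⁻¹ = (h g).det • (h g).adjugate := by
    have h4 : (h g) * (h g).adjugate = (h g).det • (1 : Matrix (Fin 2) (Fin 2) ℝ) :=
      mul_adjugate _
    calc h g⁻¹ = ((h g).det * (h g).det) • h g⁻¹ := by rw [← sq, h2, one_smul]
      _ = (h g).det • (h g⁻¹ * ((h g).det • (1 : Matrix (Fin 2) (Fin 2) ℝ))) := by
        rw [Matrix.mul_smul, mul_one, smul_smul]
      _ = (h g).det • (h g).adjugate := by rw [← h4, ← mul_assoc, h1, one_mul]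
  rw [h3, adjugate_fin_two]
  simp

lemma tau_mul (hdet : ∀ g, (h g).det ^ 2 = 1) (g k : Γ) :
    tau h (g⁻¹ * k) = tau h g * tau h k - sig h g * sig h k - quu h g * quu h k := by
  obtain ⟨e1, e2, e3, e4⟩ := inv_entries hdet g
  have h2 := hdet g
  have m00 : h (g⁻¹ * k) 0 0 = h g⁻¹ 0 0 * h k 0 0 + h g⁻¹ 0 1 * h k 1 0 := by
    rw [map_mul, Matrix.mul_apply, Fin.sum_univ_two]
  have m01 : h (g⁻¹ * k) 0 1 = h g⁻¹ 0 0 * h k 0 1 + h g⁻¹ 0 1 * h k 1 1 := by
    rw [map_mul, Matrix.mul_apply, Fin.sum_univ_two]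
  have m10 : h (g⁻¹ * k) 1 0 = h g⁻¹ 1 0 * h k 0 0 + h g⁻¹ 1 1 * h k 1 0 := by
    rw [map_mul, Matrix.mul_apply, Fin.sum_univ_two]
  have m11 : h (g⁻¹ * k) 1 1 = h g⁻¹ 1 0 * h k 0 1 + h g⁻¹ 1 1 * h k 1 1 := by
    rw [map_mul, Matrix.mul_apply, Fin.sum_univ_two]
  unfold tau sig quu
  rw [m00, m01, m10, m11, e1, e2, e3, e4]
  obtain ⟨D, hD⟩ : ∃ D, D = (h g).det := ⟨_, rfl⟩
  rw [← hD] at h2 ⊢
  linear_combination ((h g 1 1 * h k 0 0 - h g 0 1 * h k 1 0) ^ 2 +
    (h g 1 1 * h k 0 1 - h g 0 1 * h k 1 1) ^ 2 + (h g 0 0 * h k 1 0 - h g 1 0 * h k 0 0) ^ 2 +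
    (h g 0 0 * h k 1 1 - h g 1 0 * h k 0 1) ^ 2) / 2 * h2

/-- **Discrete groups of `2 × 2` matrices of determinant `± 1` have the Haagerup property.** -/
theorem levi_haagerup (hdet : ∀ g, (h g).det ^ 2 = 1)
    (hfin : ∀ R : ℝ, {g | ∀ i j, |h g i j| ≤ R}.Finite) : HasHaagerup Γ := by
  refine ⟨fun g => Real.log (tau h g), ⟨fun g => Real.log_nonneg (tau_pos hdet g), fun g => ?_,
    fun n g c hc => ?_⟩, fun R => ?_⟩
  · congr 1
    obtain ⟨e1, e2, e3, e4⟩ := inv_entries hdet g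
    have h2 := hdet g
    unfold tau
    rw [e1, e2, e3, e4]
    linear_combination (h g 0 0 ^ 2 + h g 0 1 ^ 2 + h g 1 0 ^ 2 + h g 1 1 ^ 2) / 2 * h2
  · have hτ : ∀ i, 0 < tau h (g i) := fun i => lt_of_lt_of_le one_pos (tau_pos hdet _)
    have hlt : ∀ i, (sig h (g i) / tau h (g i)) ^ 2 + (quu h (g i) / tau h (g i)) ^ 2 < 1 := by
      intro i
      have h1 := tau_sq hdet (g i)
      have h2 := hτ i
      rw [div_pow, div_pow, ← add_div, div_lt_one (by positivity)]
      linarith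
    have h1 := log_kernel (fun i => sig h (g i) / tau h (g i)) (fun i => quu h (g i) / tau h (g i))
      c hlt
    have h2 : ∀ i j, Real.log (tau h ((g i)⁻¹ * g j)) = Real.log (tau h (g i)) +
        Real.log (tau h (g j)) + Real.log (1 - (sig h (g i) / tau h (g i) *
          (sig h (g j) / tau h (g j)) + quu h (g i) / tau h (g i) * (quu h (g j) / tau h (g j)))) := by
      intro i j
      have k1 := hτ i
      have k2 := hτ j
      have k3 : 0 < tau h ((g i)⁻¹ * g j) := lt_of_lt_of_le one_pos (tau_pos hdet _)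
      have e : tau h ((g i)⁻¹ * g j) = tau h (g i) * tau h (g j) * (1 - (sig h (g i) / tau h (g i) *
          (sig h (g j) / tau h (g j)) + quu h (g i) / tau h (g i) *
            (quu h (g j) / tau h (g j)))) := by
        rw [tau_mul hdet]
        field_simp
        ring
      have k4 : (1 - (sig h (g i) / tau h (g i) * (sig h (g j) / tau h (g j)) +
          quu h (g i) / tau h (g i) * (quu h (g j) / tau h (g j)))) ≠ 0 := by
        intro h0
        rw [h0, mul_zero] at e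
        exact k3.ne' e
      rw [e, Real.log_mul (by positivity) k4, Real.log_mul k1.ne' k2.ne']
    have h3 : ∑ i, ∑ j, c i * c j * Real.log (tau h ((g i)⁻¹ * g j)) =
        (∑ i, c i * Real.log (tau h (g i))) * (∑ j, c j) +
        (∑ i, c i) * (∑ j, c j * Real.log (tau h (g j))) +
        ∑ i, ∑ j, c i * c j * Real.log (1 - (sig h (g i) / tau h (g i) *
          (sig h (g j) / tau h (g j)) + quu h (g i) / tau h (g i) *
            (quu h (g j) / tau h (g j)))) := by
      rw [sum_mul_sum, sum_mul_sum, ← sum_add_distrib, ← sum_add_distrib]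
      refine sum_congr rfl fun i _ => ?_
      rw [← sum_add_distrib, ← sum_add_distrib]
      refine sum_congr rfl fun j _ => ?_
      rw [h2]
      ring
    rw [h3, hc, mul_zero, zero_mul, zero_add, zero_add]
    exact h1
  · refine (hfin (2 * Real.exp R + 1)).subset fun g hg i j => ?_
    have h1 : tau h g ≤ Real.exp R := by
      rw [← Real.exp_log (lt_of_lt_of_le one_pos (tau_pos hdet g))]
      exact Real.exp_le_exp.2 hg
    have h2 : h g i j ^ 2 ≤ 2 * Real.exp R := by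
      unfold tau at h1
      fin_cases i <;> fin_cases j <;> simp only [Fin.zero_eta, Fin.mk_one] <;>
        nlinarith [sq_nonneg (h g 0 0), sq_nonneg (h g 0 1), sq_nonneg (h g 1 0),
          sq_nonneg (h g 1 1)]
    have h3 := Real.exp_pos R
    rw [abs_le]
    constructor <;> nlinarith

end Pool.Agent.Run7.h25.HA
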