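import Pool.Agent.Run7.h25.HA.Blk
import Pool.Agent.Run7.h25.HA.Levi

/-!
# Integral matrices in a rational basis
-/

set_option autoImplicit false

namespace Pool.Agent.Run7.h25.HA

open Matrix

/-- The group `SL (3, ℤ)`. -/
abbrev SL3 : Type := Matrix.SpecialLinearGroup (Fin 3) ℤ

/-- The rational matrix of an integral matrix. -/
def toQ (g : SL3) : M3 := g.1.map (Int.castRingHom ℚ)

lemma toQ_mul (g h : SL3) : toQ (g * h) = toQ g * toQ h := by
  change (g.1 * h.1).map (Int.castRingHom ℚ) = _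
  exact Matrix.map_mul

lemma toQ_one : toQ 1 = 1 := by
  change (1 : Matrix (Fin 3) (Fin 3) ℤ).map (Int.castRingHom ℚ) = 1
  exact Matrix.map_one _ (map_zero _) (map_one _)

lemma toQ_inj {g h : SL3} (hgh : toQ g = toQ h) : g = h := by
  apply Subtype.ext
  ext i j
  have := congrFun (congrFun hgh i) j
  change ((g.1 i j : ℤ) : ℚ) = ((h.1 i j : ℤ) : ℚ) at this
  exact_mod_cast this

lemma toQ_det (g : SL3) : (toQ g).det = 1 := by
  unfold toQ
  have h1 := (RingHom.map_det (Int.castRingHom ℚ) g.1).symm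
  rw [g.2, map_one] at h1
  exact h1

/-- The matrix of `g` in the basis given by the columns of `x`. -/
noncomputable def cj (x : M3) (g : SL3) : M3 := x⁻¹ * toQ g * x

variable {x : M3}

lemma xx (hx : x.det ≠ 0) : x * x⁻¹ = 1 := mul_nonsing_inv _ (isUnit_iff_ne_zero.2 hx)

lemma xx' (hx : x.det ≠ 0) : x⁻¹ * x = 1 := nonsing_inv_mul _ (isUnit_iff_ne_zero.2 hx)

lemma cj_mul (hx : x.det ≠ 0) (g h : SL3) : cj x (g * h) = cj x g * cj x h := by
  unfold cj
  rw [toQ_mul]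
  calc x⁻¹ * (toQ g * toQ h) * x = x⁻¹ * toQ g * 1 * toQ h * x := by
        simp only [mul_assoc, mul_one, one_mul]
    _ = x⁻¹ * toQ g * x * (x⁻¹ * toQ h * x) := by
        rw [← xx hx]
        simp only [mul_assoc]

lemma cj_one (hx : x.det ≠ 0) : cj x 1 = 1 := by
  unfold cj
  rw [toQ_one, mul_one, xx' hx]

lemma cj_inj (hx : x.det ≠ 0) {g h : SL3} (hgh : cj x g = cj x h) : g = h := by
  apply toQ_inj
  have e : ∀ g, x * cj x g * x⁻¹ = toQ g := by
    intro g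
    unfold cj
    calc x * (x⁻¹ * toQ g * x) * x⁻¹ = (x * x⁻¹) * toQ g * (x * x⁻¹) := by
          simp only [mul_assoc]
      _ = toQ g := by rw [xx hx, one_mul, mul_one]
  rw [← e, ← e, hgh]

lemma cj_det (hx : x.det ≠ 0) (g : SL3) : (cj x g).det = 1 := by
  unfold cj
  rw [det_mul, det_mul, toQ_det, mul_one, ← det_mul, xx' hx, det_one]

/-- Block diagonal matrices. -/
def BD (A : M3) : Prop := A 2 0 = 0 ∧ A 2 1 = 0 ∧ A 0 2 = 0 ∧ A 1 2 = 0

lemma BD.one : BD 1 := by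
  refine ⟨?_, ?_, ?_, ?_⟩ <;> simp

lemma BD.mul {A B : M3} (hA : BD A) (hB : BD B) : BD (A * B) := by
  obtain ⟨a1, a2, a3, a4⟩ := hA
  obtain ⟨b1, b2, b3, b4⟩ := hB
  refine ⟨?_, ?_, ?_, ?_⟩ <;> rw [Matrix.mul_apply, Fin.sum_univ_three] <;>
    simp [a1, a2, a3, a4, b1, b2, b3, b4]

lemma BD.det {A : M3} (hA : BD A) : A.det = (A 0 0 * A 1 1 - A 0 1 * A 1 0) * A 2 2 := by
  obtain ⟨a1, a2, a3, a4⟩ := hA
  rw [det_fin_three, a1, a2, a3, a4]
  ring

lemma BD.inv {A B : M3} (hA : BD A) (hd : A.det = 1) (hAB : A * B = 1) : BD B := by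
  rw [hA.det] at hd
  obtain ⟨a1, a2, a3, a4⟩ := hA
  have h22 : A 2 2 ≠ 0 := by
    intro h
    rw [h, mul_zero] at hd
    exact zero_ne_one hd
  have e : ∀ i j, A i 0 * B 0 j + A i 1 * B 1 j + A i 2 * B 2 j = (1 : M3) i j := by
    intro i j
    rw [← hAB, Matrix.mul_apply, Fin.sum_univ_three]
  have e20 := e 2 0
  have e21 := e 2 1
  have e02 := e 0 2
  have e12 := e 1 2
  rw [a1, a2] at e20 e21
  rw [a3] at e02
  rw [a4] at e12
  have z1 : (1 : M3) 2 0 = 0 := by simp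
  have z2 : (1 : M3) 2 1 = 0 := by simp
  have z3 : (1 : M3) 0 2 = 0 := by simp
  have z4 : (1 : M3) 1 2 = 0 := by simp
  rw [z1] at e20
  rw [z2] at e21
  rw [z3] at e02
  rw [z4] at e12
  refine ⟨?_, ?_, ?_, ?_⟩
  · have : A 2 2 * B 2 0 = 0 := by linear_combination e20
    exact (mul_eq_zero.1 this).resolve_left h22
  · have : A 2 2 * B 2 1 = 0 := by linear_combination e21
    exact (mul_eq_zero.1 this).resolve_left h22
  · linear_combination (A 1 1 * A 2 2) * e02 - (A 0 1 * A 2 2) * e12 - B 0 2 * hd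
  · linear_combination (A 0 0 * A 2 2) * e12 - (A 1 0 * A 2 2) * e02 - B 1 2 * hd

/-- The matrices of the elements of a subgroup. -/
noncomputable def cjK (hx : x.det ≠ 0) (K : Subgroup SL3) : K →* M3 where
  toFun g := cj x g
  map_one' := cj_one hx
  map_mul' g h := cj_mul hx g h

/-- Common denominators. -/
lemma denom (w : Fin 3 → ℚ) : ∃ (N : ℚ) (v : Fin 3 → ℤ), N ≠ 0 ∧ ∀ i, ((v i : ℤ) : ℚ) = N * w i := by
  refine ⟨(w 0).den * (w 1).den * (w 2).den, ![(w 0).num * (w 1).den * (w 2).den,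
    (w 0).den * (w 1).num * (w 2).den, (w 0).den * (w 1).den * (w 2).num], ?_, ?_⟩
  · have h0 := (w 0).den_ne_zero
    have h1 := (w 1).den_ne_zero
    have h2 := (w 2).den_ne_zero
    positivity
  · have h0 := Rat.mul_den_eq_num (w 0)
    have h1 := Rat.mul_den_eq_num (w 1)
    have h2 := Rat.mul_den_eq_num (w 2)
    intro i
    fin_cases i
    · simp only [Fin.zero_eta, Matrix.cons_val_zero]
      push_cast
      rw [← h0]
      ring
    · simp only [Fin.mk_one, Matrix.cons_val_one]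
      push_cast
      rw [← h1]
      ring
    · simp only [Fin.reduceFinMk, Matrix.cons_val]
      push_cast
      rw [← h2]
      ring

/-- Transvections of the plane are integral after scaling. -/
lemma ex_tv (hx : x.det ≠ 0) {y θ : Fin 3 → ℚ} (hy : y ≠ 0) (hθ : θ ≠ 0) (hθy : θ ⬝ᵥ y = 0) :
    ∃ (M : ℚ) (g : SL3) (v φ : Fin 3 → ℤ), M ≠ 0 ∧ cj x g = 1 + M • vecMulVec y θ ∧ v ≠ 0 ∧
      φ ≠ 0 ∧ φ ⬝ᵥ v = 0 ∧ g.1 = 1 + vecMulVec v φ := by
  obtain ⟨N, v, hN, hv⟩ := denom (x *ᵥ y)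
  obtain ⟨N', φ, hN', hφ⟩ := denom (θ ᵥ* x⁻¹)
  have hv' : (fun i => ((v i : ℤ) : ℚ)) = N • (x *ᵥ y) := by
    funext i
    rw [hv, Pi.smul_apply, smul_eq_mul]
  have hφ' : (fun i => ((φ i : ℤ) : ℚ)) = N' • (θ ᵥ* x⁻¹) := by
    funext i
    rw [hφ, Pi.smul_apply, smul_eq_mul]
  have hdot : φ ⬝ᵥ v = 0 := by
    have h1 : ((φ ⬝ᵥ v : ℤ) : ℚ) = (fun i => ((φ i : ℤ) : ℚ)) ⬝ᵥ (fun i => ((v i : ℤ) : ℚ)) := by
      simp only [dotProduct]
      push_cast
      rfl
    rw [hv', hφ', smul_dotProduct, dotProduct_smul, ← dotProduct_mulVec, mulVec_mulVec, xx' hx,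
      one_mulVec, hθy, smul_zero, smul_zero] at h1
    exact_mod_cast h1
  have hdet : (1 + vecMulVec v φ).det = 1 := by
    rw [vecMulVec_eq Unit, det_one_add_replicateCol_mul_replicateRow, hdot, add_zero]
  refine ⟨N * N', ⟨1 + vecMulVec v φ, hdet⟩, v, φ, mul_ne_zero hN hN', ?_, ?_, ?_, hdot, rfl⟩
  · have e : toQ ⟨1 + vecMulVec v φ, hdet⟩ = 1 + (N * N') • vecMulVec (x *ᵥ y) (θ ᵥ* x⁻¹) := by
      ext i j
      change (((1 + vecMulVec v φ) i j : ℤ) : ℚ) = _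
      rw [Matrix.add_apply, Matrix.add_apply, Matrix.smul_apply, vecMulVec_apply, vecMulVec_apply,
        Matrix.one_apply, Matrix.one_apply]
      push_cast
      rw [hv, hφ, smul_eq_mul]
      split_ifs <;> push_cast <;> ring
    unfold cj
    rw [e, mul_add, add_mul, mul_one, xx' hx, Matrix.mul_smul, Matrix.smul_mul, mul_vecMulVec,
      vecMulVec_mul, mulVec_mulVec, xx' hx, one_mulVec, vecMul_vecMul, xx' hx, vecMul_one]
  · rintro rfl
    have h1 : N • (x *ᵥ y) = 0 := by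
      rw [← hv']
      funext i
      simp
    have h2 := (smul_eq_zero.1 h1).resolve_left hN
    apply hy
    calc y = x⁻¹ *ᵥ (x *ᵥ y) := by rw [mulVec_mulVec, xx' hx, one_mulVec]
      _ = 0 := by rw [h2, mulVec_zero]
  · rintro rfl
    have h1 : N' • (θ ᵥ* x⁻¹) = 0 := by
      rw [← hφ']
      funext i
      simp
    have h2 := (smul_eq_zero.1 h1).resolve_left hN'
    apply hθ
    calc θ = (θ ᵥ* x⁻¹) ᵥ* x := by rw [vecMul_vecMul, xx' hx, vecMul_one]
      _ = 0 := by rw [h2, zero_vecMul]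

/-- The eigenvalue on the line is `± 1`. -/
lemma eig_int (hx : x.det ≠ 0) {g : SL3} (hg : BD (cj x g)) :
    ∃ l : ℤ, (l : ℚ) = cj x g 2 2 := by
  obtain ⟨w, hw⟩ : ∃ w : Fin 3 → ℚ, w = x *ᵥ Pi.single 2 1 := ⟨_, rfl⟩
  have hw0 : w ≠ 0 := by
    intro h0
    have h1 : (Pi.single 2 1 : Fin 3 → ℚ) = 0 := by
      calc (Pi.single 2 1 : Fin 3 → ℚ) = x⁻¹ *ᵥ w := by
            rw [hw, mulVec_mulVec, xx' hx, one_mulVec]
        _ = 0 := by rw [h0, mulVec_zero]
    have h2 := congrFun h1 2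
    simp at h2
  have hgw : toQ g *ᵥ w = cj x g 2 2 • w := by
    have h1 : cj x g *ᵥ Pi.single 2 1 = cj x g 2 2 • (Pi.single 2 1 : Fin 3 → ℚ) := by
      obtain ⟨_, _, a3, a4⟩ := hg
      rw [mulVec_single_one]
      ext i
      fin_cases i
      · simpa [Matrix.col_apply] using a3
      · simpa [Matrix.col_apply] using a4
      · simp [Matrix.col_apply]
    have h2 := congrArg (fun z => x *ᵥ z) h1
    simp only [mulVec_smul, ← hw] at h2
    rw [← h2, hw, mulVec_mulVec, mulVec_mulVec]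
    unfold cj
    rw [← mul_assoc, ← mul_assoc, xx hx, one_mul]
  have h1 : (toQ g).charpoly.eval (cj x g 2 2) = 0 := by
    rw [Matrix.eval_charpoly]
    apply Matrix.exists_mulVec_eq_zero_iff.1
    refine ⟨w, hw0, ?_⟩
    rw [sub_mulVec, hgw, Matrix.scalar_apply]
    ext i
    simp [mulVec_diagonal]
  have h2 : IsIntegral ℤ (cj x g 2 2) := by
    refine ⟨g.1.charpoly, g.1.charpoly_monic, ?_⟩
    rw [← Polynomial.eval_map, ← Matrix.charpoly_map]
    exact h1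
  obtain ⟨l, hl⟩ := IsIntegrallyClosed.isIntegral_iff.1 h2
  exact ⟨l, hl⟩

end Pool.Agent.Run7.h25.HA
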