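import Mathlib

/-!
# Positivity of trigonometric polynomials of commuting unitary operators
-/

set_option autoImplicit false

namespace Pool.Agent.Run7.h25.HA

open Finset
open scoped InnerProductSpace

variable {E : Type} [SeminormedAddCommGroup E] [InnerProductSpace ℂ E]

lemma rootsum {M : ℕ} {ω : ℂ} (hω : IsPrimitiveRoot ω M) (t : ℤ) :
    ∑ m ∈ range M, (ω ^ m) ^ t = if (M : ℤ) ∣ t then (M : ℂ) else 0 := by
  have h1 : ∀ m : ℕ, (ω ^ m) ^ t = (ω ^ t) ^ m := by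
    intro m
    rw [← zpow_natCast, ← zpow_natCast, ← zpow_mul, ← zpow_mul, mul_comm]
  simp only [h1]
  by_cases h : (M : ℤ) ∣ t
  · rw [if_pos h, (hω.zpow_eq_one_iff_dvd t).2 h]
    simp
  · rw [if_neg h]
    have h2 : ω ^ t ≠ 1 := fun h3 => h ((hω.zpow_eq_one_iff_dvd t).1 h3)
    have h3 := mul_neg_geom_sum (ω ^ t) M
    have h4 : (ω ^ t) ^ M = 1 := by
      rw [← zpow_natCast, ← zpow_mul, mul_comm, zpow_mul, zpow_natCast, hω.pow_eq_one, one_zpow]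
    rw [h4, sub_self] at h3
    exact (mul_eq_zero.1 h3).resolve_left (sub_ne_zero.2 (Ne.symm h2))

lemma count (N : ℕ) (k : ℤ) :
    (N : ℤ) - |k| ≤ ((Ico (0 : ℤ) N).filter fun j => j + k ∈ Ico (0 : ℤ) N).card := by
  have h : ((Ico (0 : ℤ) N).filter fun j => j + k ∈ Ico (0 : ℤ) N) =
      Ico (max 0 (-k)) (min N (N - k)) := by
    ext j
    simp only [mem_filter, mem_Ico, max_le_iff, lt_min_iff]
    omega
  rw [h, Int.card_Ico]
  rcases abs_cases k with ⟨h1, h2⟩ | ⟨h1, h2⟩ <;> omega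

lemma count' (N : ℕ) (k : ℤ) :
    (((Ico (0 : ℤ) N).filter fun j => j + k ∈ Ico (0 : ℤ) N).card : ℤ) ≤ N := by
  have h := card_filter_le (Ico (0 : ℤ) N) (fun j => j + k ∈ Ico (0 : ℤ) N)
  rw [Int.card_Ico] at h
  omega

lemma inner_zpow (U : E ≃ₗᵢ[ℂ] E) (j : ℤ) (x y : E) :
    ⟪(U ^ j) x, (U ^ j) y⟫_ℂ = ⟪x, y⟫_ℂ := LinearIsometryEquiv.inner_map_map _ _ _

/-- A trigonometric polynomial with operator coefficients which commute with the unitary `U`. -/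
theorem fejer {κ : Type} (s : Finset κ) (e : κ → ℤ) (U : E ≃ₗᵢ[ℂ] E) (c : κ → E →ₗ[ℂ] E)
    (hc : ∀ k ∈ s, ∀ (j : ℤ) (η : E), c k ((U ^ j) η) = (U ^ j) (c k η))
    (hpos : ∀ z : ℂ, ‖z‖ = 1 → ∀ η, 0 ≤ (⟪η, ∑ k ∈ s, z ^ e k • c k η⟫_ℂ).re) (ζ : E) :
    0 ≤ (⟪ζ, ∑ k ∈ s, c k ((U ^ e k) ζ)⟫_ℂ).re := by
  obtain ⟨D, hD⟩ : ∃ D : ℕ, ∀ k ∈ s, |e k| ≤ D := by
    refine ⟨s.sup fun k => (e k).natAbs, fun k hk => ?_⟩
    have := Finset.le_sup (f := fun k => (e k).natAbs) hk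
    rw [Int.abs_eq_natAbs]
    exact_mod_cast this
  have γd : ∀ k ∈ s, ∀ j : ℤ, ⟪(U ^ j) ζ, c k ((U ^ (j + e k)) ζ)⟫_ℂ = ⟪ζ, c k ((U ^ e k) ζ)⟫_ℂ := by
    intro k hk j
    rw [zpow_add]
    change ⟪(U ^ j) ζ, c k ((U ^ j) ((U ^ e k) ζ))⟫_ℂ = _
    rw [hc k hk, inner_zpow]
  -- the main estimate
  have main : ∀ N : ℕ, 0 ≤ (∑ k ∈ s, (((Ico (0 : ℤ) N).filter fun j => j + e k ∈ Ico (0 : ℤ) N).card : ℂ) *
      ⟪ζ, c k ((U ^ e k) ζ)⟫_ℂ).re := by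
    intro N
    let M : ℕ := N + D + 1
    have hM : M ≠ 0 := by omega
    have hω := Complex.isPrimitiveRoot_exp M hM
    set ω := Complex.exp (2 * Real.pi * Complex.I / M)
    let S : ℂ → E := fun z => ∑ j ∈ Ico (0 : ℤ) N, z ^ (-j) • (U ^ j) ζ
    have hn : ∀ m : ℕ, ‖ω ^ m‖ = 1 := by
      intro m
      rw [norm_pow, hω.norm'_eq_one hM, one_pow]
    have h1 : ∀ z : ℂ, ‖z‖ = 1 → ⟪S z, ∑ k ∈ s, z ^ e k • c k (S z)⟫_ℂ =
        ∑ k ∈ s, ∑ j ∈ Ico (0 : ℤ) N, ∑ j' ∈ Ico (0 : ℤ) N,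
          z ^ (j + e k - j') * ⟪(U ^ j) ζ, c k ((U ^ j') ζ)⟫_ℂ := by
      intro z hz
      have hz0 : z ≠ 0 := by
        rintro rfl
        simp at hz
      rw [inner_sum]
      refine sum_congr rfl fun k _ => ?_
      simp only [S, map_sum, map_smul]
      rw [inner_smul_right, sum_inner, mul_sum]
      refine sum_congr rfl fun j _ => ?_
      rw [inner_sum, mul_sum]
      refine sum_congr rfl fun j' _ => ?_
      rw [inner_smul_left, inner_smul_right, map_zpow₀]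
      have h2 : (starRingEnd ℂ) z = z⁻¹ := by
        rw [Complex.inv_eq_conj hz]
      rw [h2, inv_zpow, zpow_neg, inv_inv, sub_eq_add_neg, zpow_add₀ hz0, zpow_add₀ hz0]
      ring
    have h2 : 0 ≤ (∑ m ∈ range M, ∑ k ∈ s, ∑ j ∈ Ico (0 : ℤ) N, ∑ j' ∈ Ico (0 : ℤ) N,
          (ω ^ m) ^ (j + e k - j') * ⟪(U ^ j) ζ, c k ((U ^ j') ζ)⟫_ℂ).re := by
      rw [Complex.re_sum]
      refine sum_nonneg fun m _ => ?_
      rw [← h1 _ (hn m)]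
      exact hpos _ (hn m) _
    have h3 : (∑ m ∈ range M, ∑ k ∈ s, ∑ j ∈ Ico (0 : ℤ) N, ∑ j' ∈ Ico (0 : ℤ) N,
          (ω ^ m) ^ (j + e k - j') * ⟪(U ^ j) ζ, c k ((U ^ j') ζ)⟫_ℂ) =
        (M : ℂ) * ∑ k ∈ s, (((Ico (0 : ℤ) N).filter fun j => j + e k ∈ Ico (0 : ℤ) N).card : ℂ) *
          ⟪ζ, c k ((U ^ e k) ζ)⟫_ℂ := by
      rw [sum_comm, mul_sum]
      refine sum_congr rfl fun k hk => ?_
      rw [sum_comm]
      have h4 : ∀ j ∈ Ico (0 : ℤ) N, ∑ m ∈ range M, ∑ j' ∈ Ico (0 : ℤ) N,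
          (ω ^ m) ^ (j + e k - j') * ⟪(U ^ j) ζ, c k ((U ^ j') ζ)⟫_ℂ =
          if j + e k ∈ Ico (0 : ℤ) N then (M : ℂ) * ⟪ζ, c k ((U ^ e k) ζ)⟫_ℂ else 0 := by
        intro j hj
        rw [sum_comm]
        have h5 : ∀ j' ∈ Ico (0 : ℤ) N, ∑ m ∈ range M,
            (ω ^ m) ^ (j + e k - j') * ⟪(U ^ j) ζ, c k ((U ^ j') ζ)⟫_ℂ =
            if j + e k = j' then (M : ℂ) * ⟪ζ, c k ((U ^ e k) ζ)⟫_ℂ else 0 := by
          intro j' hj'
          rw [← sum_mul, rootsum hω]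
          rw [mem_Ico] at hj hj'
          have h6 := abs_le.1 (hD k hk)
          by_cases h7 : j + e k = j'
          · rw [if_pos h7, if_pos (by rw [h7, sub_self]; exact dvd_zero _), ← h7, γd k hk]
          · rw [if_neg h7, if_neg, zero_mul]
            intro h8
            apply h7
            have h9 := Int.eq_zero_of_abs_lt_dvd h8 (by
              rw [abs_lt]
              constructor <;> push_cast [M] <;> omega)
            linarith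
        rw [sum_congr rfl h5, sum_ite_eq]
      rw [sum_congr rfl h4, ← sum_filter, sum_const, nsmul_eq_mul]
      ring
    rw [h3, ← Complex.ofReal_natCast, Complex.re_ofReal_mul] at h2
    exact nonneg_of_mul_nonneg_right h2 (by positivity)
  -- the limit
  by_contra hneg
  rw [not_le] at hneg
  obtain ⟨C, hC⟩ : ∃ C : ℝ, C = ∑ k ∈ s, |(e k : ℝ)| * ‖⟪ζ, c k ((U ^ e k) ζ)⟫_ℂ‖ := ⟨_, rfl⟩
  have key : ∀ N : ℕ, -C ≤ (N : ℝ) * (⟪ζ, ∑ k ∈ s, c k ((U ^ e k) ζ)⟫_ℂ).re := by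
    intro N
    have h1 := main N
    rw [Complex.re_sum] at h1
    rw [inner_sum, Complex.re_sum, mul_sum, hC, ← sum_neg_distrib]
    refine le_trans ?_ (le_of_eq (sum_congr rfl fun k _ => rfl))
    have h2 : ∑ k ∈ s, (-(|(e k : ℝ)| * ‖⟪ζ, c k ((U ^ e k) ζ)⟫_ℂ‖)) +
        ∑ k ∈ s, ((((Ico (0 : ℤ) N).filter fun j => j + e k ∈ Ico (0 : ℤ) N).card : ℂ) *
          ⟪ζ, c k ((U ^ e k) ζ)⟫_ℂ).re ≤ ∑ k ∈ s, (N : ℝ) * (⟪ζ, c k ((U ^ e k) ζ)⟫_ℂ).re := by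
      rw [← sum_add_distrib]
      refine sum_le_sum fun k _ => ?_
      have h3 : (N : ℝ) - |(e k : ℝ)| ≤
          (((Ico (0 : ℤ) N).filter fun j => j + e k ∈ Ico (0 : ℤ) N).card : ℝ) := by
        exact_mod_cast count N (e k)
      have h4 : (((Ico (0 : ℤ) N).filter fun j => j + e k ∈ Ico (0 : ℤ) N).card : ℝ) ≤ N := by
        exact_mod_cast count' N (e k)
      rw [← Complex.ofReal_natCast, Complex.re_ofReal_mul]
      obtain ⟨n, hn⟩ : ∃ n : ℝ, n =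
        (((Ico (0 : ℤ) N).filter fun j => j + e k ∈ Ico (0 : ℤ) N).card : ℝ) := ⟨_, rfl⟩
      rw [← hn] at h3 h4 ⊢
      have h5 := Complex.abs_re_le_norm ⟪ζ, c k ((U ^ e k) ζ)⟫_ℂ
      have h6 := abs_le.1 h5
      have h7 := norm_nonneg ⟪ζ, c k ((U ^ e k) ζ)⟫_ℂ
      nlinarith
    linarith
  obtain ⟨N, hN⟩ := exists_nat_gt (C / -(⟪ζ, ∑ k ∈ s, c k ((U ^ e k) ζ)⟫_ℂ).re)
  have h1 := key N
  rw [div_lt_iff₀ (by linarith)] at hN
  linarith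

end Pool.Agent.Run7.h25.HA
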