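import Pool.Agent.Run7.h25.HA.Flag

/-!
# Overgroups of finite index
-/

set_option autoImplicit false

namespace Pool.Agent.Run7.h25.HA

open Matrix Pool.Agent.Run7.h25.TV Pool.Agent.Helper460_CSP

/-- A group with a Haagerup subgroup of finite index has the Haagerup property. -/
theorem haag_finite {G : Type} [Group G] (K : Subgroup G) [Finite (G ⧸ K)] (hK : HasHaagerup K) :
    HasHaagerup G := by
  classical
  obtain ⟨ψ, hψ, hp⟩ := hK
  haveI := Fintype.ofFinite (G ⧸ K)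
  have hmem : ∀ (q : G ⧸ K) (g : G), q.out⁻¹ * g * (g⁻¹ • q).out ∈ K := by
    intro q g
    have h1 : (((g⁻¹ • q).out : G) : G ⧸ K) = g⁻¹ • q := QuotientGroup.out_eq' _
    have h2 : ((g⁻¹ * q.out : G) : G ⧸ K) = g⁻¹ • q := by
      have h3 : ((q.out : G) : G ⧸ K) = q := QuotientGroup.out_eq' _
      calc ((g⁻¹ * q.out : G) : G ⧸ K) = g⁻¹ • ((q.out : G) : G ⧸ K) := rfl
        _ = g⁻¹ • q := by rw [h3]
    have h4 := QuotientGroup.eq.1 (h2.trans h1.symm)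
    rwa [_root_.mul_inv_rev, inv_inv] at h4
  obtain ⟨F, hF⟩ : ∃ F : (G ⧸ K) → G → K, ∀ q g, (F q g : G) = q.out⁻¹ * g * (g⁻¹ • q).out :=
    ⟨fun q g => ⟨_, hmem q g⟩, fun _ _ => rfl⟩
  have key : ∀ q g g', F (g⁻¹ • q) (g⁻¹ * g') = (F q g)⁻¹ * F q g' := by
    intro q g g'
    apply Subtype.ext
    rw [Subgroup.coe_mul, Subgroup.coe_inv, hF, hF, hF]
    have e : (g⁻¹ * g')⁻¹ • (g⁻¹ • q) = g'⁻¹ • q := by
      rw [smul_smul]
      congr 1
      group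
    rw [e]
    group
  have hsum : ∀ g g', ∑ q, ψ (F q (g⁻¹ * g')) = ∑ q, ψ ((F q g)⁻¹ * F q g') := by
    intro g g'
    rw [← Equiv.sum_comp (MulAction.toPerm g⁻¹ : Equiv.Perm (G ⧸ K))
      (fun q => ψ (F q (g⁻¹ * g')))]
    refine Finset.sum_congr rfl fun q _ => ?_
    rw [MulAction.toPerm_apply, key]
  have hone : ∀ q, F q 1 = 1 := by
    intro q
    apply Subtype.ext
    rw [hF, inv_one, one_smul, mul_one, inv_mul_cancel, Subgroup.coe_one]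
  refine ⟨fun g => ∑ q, ψ (F q g), ⟨fun g => Finset.sum_nonneg fun q _ => hψ.nonneg _, fun g => ?_,
    fun n g c hc => ?_⟩, fun R => ?_⟩
  · have h1 := hsum g 1
    rw [mul_one] at h1
    change ∑ q, ψ (F q g⁻¹) = ∑ q, ψ (F q g)
    rw [h1]
    refine Finset.sum_congr rfl fun q _ => ?_
    rw [hone, mul_one, hψ.symm]
  · have h1 : ∑ i, ∑ j, c i * c j * ∑ q, ψ (F q ((g i)⁻¹ * g j)) =
        ∑ q, ∑ i, ∑ j, c i * c j * ψ ((F q (g i))⁻¹ * F q (g j)) := by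
      rw [Finset.sum_comm]
      simp only [hsum, Finset.mul_sum]
      rw [Finset.sum_comm]
      rw [Finset.sum_comm (s := Finset.univ (α := G ⧸ K))]
      refine Finset.sum_congr rfl fun i _ => ?_
      rw [Finset.sum_comm]
    change ∑ i, ∑ j, c i * c j * ∑ q, ψ (F q ((g i)⁻¹ * g j)) ≤ 0
    rw [h1]
    exact Finset.sum_nonpos fun q _ => hψ.neg n (fun i => F q (g i)) c hc
  · obtain ⟨q0⟩ : Nonempty (G ⧸ K) := ⟨((1 : G) : G ⧸ K)⟩
    have hfin : (({k | ψ k ≤ R} : Set K) ×ˢ (Set.univ : Set (G ⧸ K))).Finite :=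
      (hp R).prod Set.finite_univ
    refine (hfin.image fun z => q0.out * (z.1 : G) * z.2.out⁻¹).subset fun g hg => ?_
    refine ⟨(F q0 g, g⁻¹ • q0), ⟨?_, Set.mem_univ _⟩, ?_⟩
    · have h1 : ψ (F q0 g) ≤ ∑ q, ψ (F q g) :=
        Finset.single_le_sum (f := fun q => ψ (F q g)) (fun q _ => hψ.nonneg _)
          (Finset.mem_univ q0)
      exact h1.trans hg
    · change q0.out * (F q0 g : G) * (g⁻¹ • q0).out⁻¹ = g
      rw [hF]
      group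

/-- Multiples of the vectors of the plane. -/
lemma gram {φ v y u : Fin 3 → ℤ} (hφ : φ ≠ 0) (hv : φ ⬝ᵥ v = 0) (hy : φ ⬝ᵥ y = 0)
    (hu : φ ⬝ᵥ u = 0) : ((v ⬝ᵥ v) * (y ⬝ᵥ y) - (v ⬝ᵥ y) * (v ⬝ᵥ y)) • u =
      ((u ⬝ᵥ v) * (y ⬝ᵥ y) - (u ⬝ᵥ y) * (v ⬝ᵥ y)) • v +
      ((u ⬝ᵥ y) * (v ⬝ᵥ v) - (u ⬝ᵥ v) * (v ⬝ᵥ y)) • y := by
  simp only [dotProduct, Fin.sum_univ_three] at hv hy hu
  have hd : u 0 * (v 1 * y 2 - v 2 * y 1) - u 1 * (v 0 * y 2 - v 2 * y 0) +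
      u 2 * (v 0 * y 1 - v 1 * y 0) = 0 := by
    obtain ⟨r, hr⟩ := Function.ne_iff.1 hφ
    have hr' : φ r ≠ 0 := hr
    have : φ r * (u 0 * (v 1 * y 2 - v 2 * y 1) - u 1 * (v 0 * y 2 - v 2 * y 0) +
      u 2 * (v 0 * y 1 - v 1 * y 0)) = 0 := by
      fin_cases r
      · change φ 0 * _ = 0
        linear_combination (v 1 * y 2 - v 2 * y 1) * hu - (u 1 * y 2 - u 2 * y 1) * hv +
          (u 1 * v 2 - u 2 * v 1) * hy
      · change φ 1 * _ = 0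
        linear_combination -(v 0 * y 2 - v 2 * y 0) * hu + (u 0 * y 2 - u 2 * y 0) * hv -
          (u 0 * v 2 - u 2 * v 0) * hy
      · change φ 2 * _ = 0
        linear_combination (v 0 * y 1 - v 1 * y 0) * hu - (u 0 * y 1 - u 1 * y 0) * hv +
          (u 0 * v 1 - u 1 * v 0) * hy
    exact (mul_eq_zero.1 this).resolve_left hr'
  ext i
  simp only [dotProduct, Fin.sum_univ_three, Pi.add_apply, Pi.smul_apply, smul_eq_mul]
  fin_cases i
  · change _ * u 0 = _ * v 0 + _ * y 0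
    linear_combination (v 1 * y 2 - v 2 * y 1) * hd
  · change _ * u 1 = _ * v 1 + _ * y 1
    linear_combination -(v 0 * y 2 - v 2 * y 0) * hd
  · change _ * u 2 = _ * v 2 + _ * y 2
    linear_combination (v 0 * y 1 - v 1 * y 0) * hd

lemma gram_ne {v y : Fin 3 → ℤ} (hvy : ¬ Par v y) :
    (v ⬝ᵥ v) * (y ⬝ᵥ y) - (v ⬝ᵥ y) * (v ⬝ᵥ y) ≠ 0 := by
  intro h0
  apply hvy
  simp only [dotProduct, Fin.sum_univ_three] at h0
  have h1 : (v 1 * y 2 - v 2 * y 1) ^ 2 + (v 0 * y 2 - v 2 * y 0) ^ 2 +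
      (v 0 * y 1 - v 1 * y 0) ^ 2 = 0 := by linear_combination h0
  have c0 : v 1 * y 2 - v 2 * y 1 = 0 := by
    nlinarith [sq_nonneg (v 1 * y 2 - v 2 * y 1), sq_nonneg (v 0 * y 2 - v 2 * y 0),
      sq_nonneg (v 0 * y 1 - v 1 * y 0)]
  have c1 : v 0 * y 2 - v 2 * y 0 = 0 := by
    nlinarith [sq_nonneg (v 1 * y 2 - v 2 * y 1), sq_nonneg (v 0 * y 2 - v 2 * y 0),
      sq_nonneg (v 0 * y 1 - v 1 * y 0)]
  have c2 : v 0 * y 1 - v 1 * y 0 = 0 := by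
    nlinarith [sq_nonneg (v 1 * y 2 - v 2 * y 1), sq_nonneg (v 0 * y 2 - v 2 * y 0),
      sq_nonneg (v 0 * y 1 - v 1 * y 0)]
  intro p q
  fin_cases p <;> fin_cases q
  · rfl
  · change v 0 * y 1 = v 1 * y 0
    linarith
  · change v 0 * y 2 = v 2 * y 0
    linarith
  · change v 1 * y 0 = v 0 * y 1
    linarith
  · rfl
  · change v 1 * y 2 = v 2 * y 1
    linarith
  · change v 2 * y 0 = v 0 * y 2
    linarith
  · change v 2 * y 1 = v 1 * y 2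
    linarith
  · rfl

/-- Haagerup subgroups which contain many transvections with a given axis. -/
theorem rad {φ v y : Fin 3 → ℤ} {K : Subgroup SL3} (hK : HasHaagerup K) (hφ : φ ≠ 0)
    (T1 : Tr K v φ) (T2 : Tr K y φ) (hvy : ¬ Par v y) :
    ∃ H : Subgroup SL3, K ≤ H ∧ HasHaagerup H ∧ ∀ w : Fin 3 → ℤ, φ ⬝ᵥ w = 0 → Tr H w φ := by
  have hst : ∀ k ∈ K, cv k φ = φ ∨ cv k φ = -φ := fun k hk => pm_eig' hφ (axis hK hφ T1 T2 hvy hk)
  have mtm : ∀ {A B : SL3} {w w' : Fin 3 → ℤ}, φ ⬝ᵥ w' = 0 → mt A = 1 + vecMulVec w φ →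
      mt B = 1 + vecMulVec w' φ → mt (A * B) = 1 + vecMulVec (w + w') φ := by
    intro A B w w' h2 hA' hB'
    rw [mt_mul, hA', hB', add_vecMulVec, add_mul, one_mul, mul_add, mul_one, vv_zero h2]
    abel
  obtain ⟨R, hR⟩ : ∃ R : Subgroup SL3, ∀ g, g ∈ R ↔ ∃ w : Fin 3 → ℤ, φ ⬝ᵥ w = 0 ∧
      mt g = 1 + vecMulVec w φ := by
    refine ⟨{ carrier := {g | ∃ w : Fin 3 → ℤ, φ ⬝ᵥ w = 0 ∧ mt g = 1 + vecMulVec w φ},
              one_mem' := ⟨0, dotProduct_zero _, by rw [mt_one, zero_vecMulVec, add_zero]⟩,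
              mul_mem' := ?_, inv_mem' := ?_ }, fun g => Iff.rfl⟩
    · rintro a b ⟨w, hw, ha⟩ ⟨w', hw', hb⟩
      exact ⟨w + w', by rw [dotProduct_add, hw, hw', add_zero], mtm hw' ha hb⟩
    · rintro a ⟨w, hw, ha⟩
      exact ⟨-w, by rw [dotProduct_neg, hw, neg_zero], by
        rw [mt_inv_of hw ha, neg_vecMulVec, sub_eq_add_neg]⟩
  have hconj : ∀ k ∈ K, ∀ r ∈ R, k * r * k⁻¹ ∈ R := by
    intro k hk r hr
    obtain ⟨w, hw, hr'⟩ := (hR r).1 hr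
    have h2 : mt k * mt k⁻¹ = 1 := by rw [← mt_mul, mul_inv_cancel, mt_one]
    have h3 : mt (k * r * k⁻¹) = 1 + vecMulVec (av k w) (cv k⁻¹ φ) := by
      rw [mt_mul, mt_mul, hr', mul_add, mul_one, add_mul, h2, mul_vecMulVec, vecMulVec_mul]
      rfl
    have h4 : cv k⁻¹ φ ⬝ᵥ av k w = 0 := by rw [cv_dot, av_inv_av, hw]
    rcases hst k⁻¹ (inv_mem hk) with h1 | h1
    · rw [h1] at h3 h4
      exact (hR _).2 ⟨_, h4, h3⟩
    · rw [h1] at h3 h4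
      refine (hR _).2 ⟨-(av k w), ?_, ?_⟩
      · rw [dotProduct_neg, ← neg_dotProduct]
        exact h4
      · rw [h3, vecMulVec_neg, neg_vecMulVec]
  obtain ⟨H, hH⟩ : ∃ H : Subgroup SL3, ∀ g, g ∈ H ↔ ∃ r ∈ R, ∃ k ∈ K, g = r * k := by
    refine ⟨{ carrier := {g | ∃ r ∈ R, ∃ k ∈ K, g = r * k},
              one_mem' := ⟨1, one_mem _, 1, one_mem _, (mul_one 1).symm⟩,
              mul_mem' := ?_, inv_mem' := ?_ }, fun g => Iff.rfl⟩
    · rintro a b ⟨r, hr, k, hk, rfl⟩ ⟨r', hr', k', hk', rfl⟩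
      exact ⟨r * (k * r' * k⁻¹), mul_mem hr (hconj k hk r' hr'), k * k', mul_mem hk hk', by group⟩
    · rintro a ⟨r, hr, k, hk, rfl⟩
      refine ⟨k⁻¹ * r⁻¹ * k⁻¹⁻¹, hconj k⁻¹ (inv_mem hk) r⁻¹ (inv_mem hr), k⁻¹, inv_mem hk, ?_⟩
      group
  have hle : K ≤ H := fun k hk => (hH k).2 ⟨1, one_mem _, k, hk, (one_mul k).symm⟩
  obtain ⟨D, hD⟩ : ∃ D : ℤ, D = (v ⬝ᵥ v) * (y ⬝ᵥ y) - (v ⬝ᵥ y) * (v ⬝ᵥ y) := ⟨_, rfl⟩
  have hD0 : D ≠ 0 := hD ▸ gram_ne hvy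
  have hDK : ∀ u : Fin 3 → ℤ, φ ⬝ᵥ u = 0 → Tr K (D • u) φ := by
    intro u hu
    rw [hD, gram hφ T1.1 T2.1 hu]
    exact (T1.smulv _).addv (T2.smulv _)
  refine ⟨H, hle, ?_, fun w hw => ?_⟩
  · have hK' : HasHaagerup (K.subgroupOf H) := haag_congr (Subgroup.subgroupOfEquivOfLe hle).symm hK
    haveI : NeZero D.natAbs := ⟨Int.natAbs_ne_zero.2 hD0⟩
    haveI : Finite (H ⧸ K.subgroupOf H) := by
      have hch : ∀ q : H ⧸ K.subgroupOf H, ∃ (w : Fin 3 → ℤ) (r k : SL3), φ ⬝ᵥ w = 0 ∧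
          mt r = 1 + vecMulVec w φ ∧ k ∈ K ∧ (q.out : SL3) = r * k := by
        intro q
        obtain ⟨r, hr, k, hk, e⟩ := (hH _).1 q.out.2
        obtain ⟨w, hw, hr'⟩ := (hR r).1 hr
        exact ⟨w, r, k, hw, hr', hk, e⟩
      choose w r k hw hr hk he using hch
      refine Finite.of_injective (fun q => fun i => ((w q i : ℤ) : ZMod D.natAbs)) fun q q' hqq => ?_
      have hdvd : ∀ i, D ∣ w q' i - w q i := by
        intro i
        have h1 := congrFun hqq i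
        have h2 := (ZMod.intCast_eq_intCast_iff_dvd_sub _ _ _).1 h1
        rwa [Int.natAbs_dvd] at h2
      choose u hu using hdvd
      have hwu : w q' - w q = D • u := by
        funext i
        rw [Pi.sub_apply, hu, Pi.smul_apply, smul_eq_mul]
      have hφu : φ ⬝ᵥ u = 0 := by
        have h1 := congrArg (fun z => φ ⬝ᵥ z) hwu
        simp only [dotProduct_sub, dotProduct_smul, hw, sub_zero, smul_eq_mul] at h1
        exact (mul_eq_zero.1 h1.symm).resolve_left hD0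
      obtain ⟨_, A, hA, hA'⟩ := hDK u hφu
      have hrA : (r q)⁻¹ * r q' = A := by
        apply mt_inj
        have h1 : mt (r q)⁻¹ = 1 + vecMulVec (-(w q)) φ := by
          rw [mt_inv_of (hw q) (hr q), neg_vecMulVec, sub_eq_add_neg]
        rw [mtm (hw q') h1 (hr q'), hA', ← hwu]
        congr 2
        abel
      have h5 : ((q.out : H) : H ⧸ K.subgroupOf H) = ((q'.out : H) : H ⧸ K.subgroupOf H) := by
        apply QuotientGroup.eq.2
        rw [Subgroup.mem_subgroupOf, Subgroup.coe_mul, Subgroup.coe_inv, he, he]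
        have h6 : (r q * k q)⁻¹ * (r q' * k q') = (k q)⁻¹ * ((r q)⁻¹ * r q') * k q' := by group
        rw [h6, hrA]
        exact mul_mem (mul_mem (inv_mem (hk q)) hA) (hk q')
      rw [QuotientGroup.out_eq', QuotientGroup.out_eq'] at h5
      exact h5
    exact haag_finite (K.subgroupOf H) hK'
  · obtain ⟨A, hA⟩ := tr_exists hw
    exact ⟨hw, A, (hH A).2 ⟨A, (hR A).2 ⟨w, hw, hA⟩, 1, one_mem _, (mul_one A).symm⟩, hA⟩

end Pool.Agent.Run7.h25.HA
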