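import Pool.Agent.Run7.h25.HA.Heis

/-!
# Stabilisers of rational flags of `ℚ ^ 3`
-/

set_option autoImplicit false

namespace Pool.Agent.Run7.h25.HA

open Matrix Pool.Agent.Run7.h25.TV Pool.Agent.Helper460_CSP

/-- There are finitely many elements with bounded entries. -/
theorem cj_fin {x : M3} (hx : x.det ≠ 0) (R : ℝ) :
    {g : SL3 | ∀ a b, |((cj x g a b : ℚ) : ℝ)| ≤ R}.Finite := by
  obtain ⟨C, hC⟩ : ∃ C : ℝ, C = ∑ i, ∑ j, ∑ a, ∑ b,
      |((x i a : ℚ) : ℝ)| * (|R| + 1) * |((x⁻¹ b j : ℚ) : ℝ)| := ⟨_, rfl⟩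
  obtain ⟨N, hN⟩ := exists_nat_gt C
  have hfin : (Set.Icc (fun _ _ => -(N : ℤ) : Fin 3 → Fin 3 → ℤ) (fun _ _ => (N : ℤ))).Finite :=
    Set.finite_Icc _ _
  refine (hfin.preimage (f := fun g : SL3 => (g.1 : Fin 3 → Fin 3 → ℤ)) ?_).subset ?_
  · intro g _ h _ hgh
    exact Subtype.ext hgh
  · intro g hg
    have hent : ∀ a b, |((cj x g a b : ℚ) : ℝ)| ≤ |R| + 1 := by
      intro a b
      have hR := le_abs_self R
      have h1 := hg a b
      linarith
    have hQ : ∀ i j, ((g.1 i j : ℤ) : ℝ) =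
        ∑ b, ∑ a, ((x i a : ℚ) : ℝ) * ((cj x g a b : ℚ) : ℝ) * ((x⁻¹ b j : ℚ) : ℝ) := by
      intro i j
      have h1 : toQ g = x * cj x g * x⁻¹ := by
        unfold cj
        calc toQ g = (x * x⁻¹) * toQ g * (x * x⁻¹) := by
              rw [xx hx, one_mul, mul_one]
          _ = _ := by simp only [mul_assoc]
      have h2 := congrFun (congrFun h1 i) j
      rw [Matrix.mul_apply] at h2
      simp only [Matrix.mul_apply, Finset.sum_mul] at h2
      have h3 : ((g.1 i j : ℤ) : ℚ) = toQ g i j := rfl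
      have h4 : ((g.1 i j : ℤ) : ℝ) = (((g.1 i j : ℤ) : ℚ) : ℝ) := by push_cast; rfl
      rw [h4, h3, h2]
      push_cast
      rfl
    have hbd : ∀ i j, |((g.1 i j : ℤ) : ℝ)| ≤ C := by
      intro i j
      rw [hQ]
      have t1 : |∑ b, ∑ a, ((x i a : ℚ) : ℝ) * ((cj x g a b : ℚ) : ℝ) *
          ((x⁻¹ b j : ℚ) : ℝ)| ≤
          ∑ a, ∑ b, |((x i a : ℚ) : ℝ)| * (|R| + 1) * |((x⁻¹ b j : ℚ) : ℝ)| := by
        rw [Finset.sum_comm (f := fun a b => |((x i a : ℚ) : ℝ)| * (|R| + 1) *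
          |((x⁻¹ b j : ℚ) : ℝ)|)]
        refine (Finset.abs_sum_le_sum_abs _ _).trans (Finset.sum_le_sum fun b _ => ?_)
        refine (Finset.abs_sum_le_sum_abs _ _).trans (Finset.sum_le_sum fun a _ => ?_)
        rw [abs_mul, abs_mul]
        exact mul_le_mul_of_nonneg_right (mul_le_mul_of_nonneg_left (hent a b) (abs_nonneg _))
          (abs_nonneg _)
      refine t1.trans ?_
      rw [hC]
      have nn : ∀ i j a b, 0 ≤ |((x i a : ℚ) : ℝ)| * (|R| + 1) * |((x⁻¹ b j : ℚ) : ℝ)| := by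
        intro i j a b
        positivity
      have t2 := Finset.single_le_sum (f := fun j => ∑ a, ∑ b, |((x i a : ℚ) : ℝ)| * (|R| + 1) *
        |((x⁻¹ b j : ℚ) : ℝ)|) (fun j _ => Finset.sum_nonneg fun a _ =>
          Finset.sum_nonneg fun b _ => nn i j a b) (Finset.mem_univ j)
      have t3 := Finset.single_le_sum (f := fun i => ∑ j, ∑ a, ∑ b, |((x i a : ℚ) : ℝ)| *
        (|R| + 1) * |((x⁻¹ b j : ℚ) : ℝ)|) (fun i _ => Finset.sum_nonneg fun j _ =>
          Finset.sum_nonneg fun a _ => Finset.sum_nonneg fun b _ => nn i j a b) (Finset.mem_univ i)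
      exact t2.trans t3
    have hle : ∀ i j, |g.1 i j| ≤ (N : ℤ) := by
      intro i j
      have h1 := (hbd i j).trans hN.le
      rw [← Int.cast_abs] at h1
      exact_mod_cast h1
    exact Set.mem_preimage.2 ⟨fun i j => (abs_le.1 (hle i j)).1, fun i j => (abs_le.1 (hle i j)).2⟩

lemma toQ_av (g : SL3) (v : Fin 3 → ℤ) : toQ g *ᵥ qv v = qv (av g v) := by
  ext i
  simp only [mulVec, dotProduct, toQ, Matrix.map_apply, qv, av]
  push_cast
  rfl

lemma toQ_cv (g : SL3) (φ : Fin 3 → ℤ) : qv φ ᵥ* toQ g = qv (cv g φ) := by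
  ext i
  simp only [vecMul, dotProduct, toQ, Matrix.map_apply, qv, cv]
  push_cast
  rfl

lemma qv_neg (v : Fin 3 → ℤ) : qv (-v) = -qv v := by
  funext i
  simp [qv]

lemma av_neg' (g : SL3) (v : Fin 3 → ℤ) : av g (-v) = -av g v := mulVec_neg _ _

lemma cv_neg' (g : SL3) (v : Fin 3 → ℤ) : cv g (-v) = -cv g v := neg_vecMul _ _

/-- The stabiliser of the line spanned by `y` and of the kernel of `φ`. -/
def FS (y φ : Fin 3 → ℤ) : Subgroup SL3 where
  carrier := {g | (av g y = y ∨ av g y = -y) ∧ (cv g φ = φ ∨ cv g φ = -φ)}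
  one_mem' := ⟨Or.inl (av_one y), Or.inl (cv_one φ)⟩
  mul_mem' := by
    intro g h hg hh
    refine ⟨?_, ?_⟩
    · rw [av_mul]
      rcases hg.1 with h1 | h1 <;> rcases hh.1 with h2 | h2 <;> simp [h1, h2, av_neg']
    · rw [cv_mul]
      rcases hg.2 with h1 | h1 <;> rcases hh.2 with h2 | h2 <;> simp [h1, h2, cv_neg']
  inv_mem' := by
    intro g hg
    refine ⟨?_, ?_⟩
    · rcases hg.1 with h1 | h1
      · left
        have h2 := congrArg (av g⁻¹) h1
        rw [av_inv_av] at h2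
        exact h2.symm
      · right
        have h2 := congrArg (av g⁻¹) h1
        rw [av_inv_av, av_neg'] at h2
        rw [← neg_eq_iff_eq_neg]
        exact h2.symm
    · have e : ∀ θ : Fin 3 → ℤ, cv g⁻¹ (cv g θ) = θ := by
        intro θ
        rw [← cv_mul, mul_inv_cancel, cv_one]
      rcases hg.2 with h1 | h1
      · left
        have h2 := congrArg (cv g⁻¹) h1
        rw [e] at h2
        exact h2.symm
      · right
        have h2 := congrArg (cv g⁻¹) h1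
        rw [e, cv_neg'] at h2
        rw [← neg_eq_iff_eq_neg]
        exact h2.symm

lemma par_perp {a b : Fin 3 → ℤ} (ha : a ≠ 0) (hp : Par a b) (h : a ⬝ᵥ b = 0) : b = 0 := by
  obtain ⟨r, hr⟩ := Function.ne_iff.1 ha
  have hr' : a r ≠ 0 := hr
  have e1 := hp.smul_eq r
  have e2 := congrArg (fun z => a ⬝ᵥ z) e1
  simp only [dotProduct_smul, smul_eq_mul, h, mul_zero] at e2
  have haa : a ⬝ᵥ a ≠ 0 := by
    intro h0
    exact ha (dotProduct_self_eq_zero.1 h0)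
  have hb : b r = 0 := by
    rcases mul_eq_zero.1 e2.symm with h1 | h1
    · exact h1
    · exact absurd h1 haa
  rw [hb, zero_smul] at e1
  exact (smul_eq_zero.1 e1).resolve_left hr'

/-- Another vector in the plane. -/
lemma other {y φ : Fin 3 → ℤ} (hy : y ≠ 0) (hφ : φ ≠ 0) (h : φ ⬝ᵥ y = 0) :
    ∃ z : Fin 3 → ℤ, φ ⬝ᵥ z = 0 ∧ ¬ Par y z := by
  refine ⟨![φ 1 * y 2 - φ 2 * y 1, φ 2 * y 0 - φ 0 * y 2, φ 0 * y 1 - φ 1 * y 0], ?_, ?_⟩
  · simp [dotProduct, Fin.sum_univ_three]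
    ring
  · intro hp
    have h1 := par_perp hy hp (by simp [dotProduct, Fin.sum_univ_three]; ring)
    apply hy
    refine par_perp hφ ?_ h
    have c0 := congrFun h1 0
    have c1 := congrFun h1 1
    have c2 := congrFun h1 2
    simp at c0 c1 c2
    intro p q
    fin_cases p <;> fin_cases q
    · rfl
    · change φ 0 * y 1 = φ 1 * y 0
      linarith
    · change φ 0 * y 2 = φ 2 * y 0
      linarith
    · change φ 1 * y 0 = φ 0 * y 1
      linarith
    · rfl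
    · change φ 1 * y 2 = φ 2 * y 1
      linarith
    · change φ 2 * y 0 = φ 0 * y 2
      linarith
    · change φ 2 * y 1 = φ 1 * y 2
      linarith
    · rfl

/-- The stabiliser of a flag is upper triangular in a basis. -/
theorem flag_ut {y φ : Fin 3 → ℤ} (hy : y ≠ 0) (hφ : φ ≠ 0) (h : φ ⬝ᵥ y = 0) :
    ∃ x : M3, x.det ≠ 0 ∧ ∀ g ∈ FS y φ, UT (cj x g) := by
  obtain ⟨z, hz, hyz⟩ := other hy hφ h
  obtain ⟨w, hw⟩ : ∃ w : Fin 3 → ℤ, φ ⬝ᵥ w ≠ 0 :=
    ⟨φ, fun h0 => hφ (dotProduct_self_eq_zero.1 h0)⟩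
  obtain ⟨x, hxd⟩ : ∃ x : M3, x = Matrix.of fun i => ![qv y i, qv z i, qv w i] := ⟨_, rfl⟩
  have hmul : ∀ c : Fin 3 → ℚ, x *ᵥ c = c 0 • qv y + c 1 • qv z + c 2 • qv w := by
    intro c
    ext i
    rw [hxd]
    simp [mulVec, dotProduct, Fin.sum_univ_three]
    ring
  have hrow : ∀ φ : Fin 3 → ℤ, qv φ ᵥ* x =
      ![((φ ⬝ᵥ y : ℤ) : ℚ), ((φ ⬝ᵥ z : ℤ) : ℚ), ((φ ⬝ᵥ w : ℤ) : ℚ)] := by
    intro φ
    rw [← qv_dot, ← qv_dot, ← qv_dot, hxd]
    ext j
    fin_cases j <;> simp [vecMul, dotProduct, Fin.sum_univ_three]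
  have hwq : ((φ ⬝ᵥ w : ℤ) : ℚ) ≠ 0 := by exact_mod_cast hw
  have hx : x.det ≠ 0 := by
    intro h1
    obtain ⟨c, hc, hxc⟩ := Matrix.exists_mulVec_eq_zero_iff.2 h1
    apply hc
    rw [hmul] at hxc
    have q1 := congrArg (fun z => qv φ ⬝ᵥ z) hxc
    simp only [dotProduct_add, dotProduct_smul, qv_dot, h, hz, dotProduct_zero, smul_eq_mul,
      Int.cast_zero, mul_zero, zero_add, add_zero] at q1
    have c2 : c 2 = 0 := (mul_eq_zero.1 q1).resolve_right hwq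
    rw [c2, zero_smul, add_zero] at hxc
    obtain ⟨p, q, hpq⟩ : ∃ p q, y p * z q ≠ y q * z p := by
      by_contra hcon
      push Not at hcon
      exact hyz hcon
    have e1 := congrFun hxc p
    have e2 := congrFun hxc q
    simp only [Pi.add_apply, Pi.smul_apply, smul_eq_mul, Pi.zero_apply, qv] at e1 e2
    have hne : ((y p : ℤ) : ℚ) * (z q : ℚ) - (y q : ℚ) * (z p : ℚ) ≠ 0 := by
      intro h0
      apply hpq
      have : ((y p : ℤ) : ℚ) * (z q : ℚ) = (y q : ℚ) * (z p : ℚ) := by linarith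
      exact_mod_cast this
    have c1 : c 1 = 0 := by
      have : c 1 * (((y p : ℤ) : ℚ) * (z q : ℚ) - (y q : ℚ) * (z p : ℚ)) = 0 := by
        linear_combination (y p : ℚ) * e2 - (y q : ℚ) * e1
      exact (mul_eq_zero.1 this).resolve_right hne
    rw [c1, zero_smul, add_zero] at hxc
    have c0 : c 0 = 0 := (smul_eq_zero.1 hxc).resolve_right fun h => hy (qv_zero h)
    ext i
    fin_cases i
    · exact c0
    · exact c1
    · exact c2
  refine ⟨x, hx, fun g hg => ?_⟩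
  have k0 : x *ᵥ Pi.single 0 1 = qv y := by rw [hmul]; simp
  have k2 : qv φ ᵥ* x = ((φ ⬝ᵥ w : ℤ) : ℚ) • (Pi.single 2 1 : Fin 3 → ℚ) := by
    rw [hrow, h, hz]
    ext i
    fin_cases i <;> simp
  obtain ⟨s, hs, hcol⟩ : ∃ s : ℚ, s ^ 2 = 1 ∧
      cj x g *ᵥ Pi.single 0 1 = s • (Pi.single 0 1 : Fin 3 → ℚ) := by
    have e1 : cj x g *ᵥ Pi.single 0 1 = x⁻¹ *ᵥ qv (av g y) := by
      unfold cj
      rw [← mulVec_mulVec, k0, ← mulVec_mulVec, toQ_av]
    have e2 : x⁻¹ *ᵥ qv y = Pi.single 0 1 := by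
      rw [← k0, mulVec_mulVec, xx' hx, one_mulVec]
    rcases hg.1 with h1 | h1
    · exact ⟨1, by norm_num, by rw [e1, h1, e2, one_smul]⟩
    · exact ⟨-1, by norm_num, by rw [e1, h1, qv_neg, mulVec_neg, e2, neg_one_smul]⟩
  obtain ⟨t, ht, hrw⟩ : ∃ t : ℚ, t ^ 2 = 1 ∧
      (Pi.single 2 1 : Fin 3 → ℚ) ᵥ* cj x g = t • (Pi.single 2 1 : Fin 3 → ℚ) := by
    have e1 : (((φ ⬝ᵥ w : ℤ) : ℚ) • (Pi.single 2 1 : Fin 3 → ℚ)) ᵥ* cj x g =
        qv (cv g φ) ᵥ* x := by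
      rw [← k2]
      unfold cj
      rw [vecMul_vecMul, ← mul_assoc, ← mul_assoc, xx hx, one_mul, ← vecMul_vecMul, toQ_cv]
    rw [smul_vecMul] at e1
    rcases hg.2 with h1 | h1
    · refine ⟨1, by norm_num, ?_⟩
      rw [h1, k2] at e1
      rw [one_smul]
      exact smul_right_injective _ hwq e1
    · refine ⟨-1, by norm_num, ?_⟩
      rw [h1, qv_neg, neg_vecMul, k2, ← smul_neg] at e1
      rw [neg_one_smul]
      exact smul_right_injective _ hwq e1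
  rw [mulVec_single_one] at hcol
  rw [single_one_vecMul] at hrw
  have a00 : cj x g 0 0 = s := by
    have := congrFun hcol 0
    simpa [Matrix.col_apply] using this
  have a10 : cj x g 1 0 = 0 := by
    have := congrFun hcol 1
    simpa [Matrix.col_apply] using this
  have a20 : cj x g 2 0 = 0 := by
    have := congrFun hcol 2
    simpa [Matrix.col_apply] using this
  have a21 : cj x g 2 1 = 0 := by
    have := congrFun hrw 1
    simpa [Matrix.row_apply] using this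
  have a22 : cj x g 2 2 = t := by
    have := congrFun hrw 2
    simpa [Matrix.row_apply] using this
  have hd := cj_det hx g
  rw [det_fin_three, a10, a20, a21, a00, a22] at hd
  refine ⟨a10, a20, a21, by rw [a00, hs], ?_, by rw [a22, ht]⟩
  have h1 : (s * cj x g 1 1 * t) ^ 2 = 1 := by
    have : s * cj x g 1 1 * t = 1 := by linarith
    rw [this, one_pow]
  rw [mul_pow, mul_pow, hs, ht, one_mul, mul_one] at h1
  exact h1

/-- The stabiliser of a flag has the Haagerup property. -/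
theorem fs_haagerup {y φ : Fin 3 → ℤ} (hy : y ≠ 0) (hφ : φ ≠ 0) (h : φ ⬝ᵥ y = 0) :
    HasHaagerup (FS y φ) := by
  obtain ⟨x, hx, hU⟩ := flag_ut hy hφ h
  refine heis_haagerup (m := cjK hx (FS y φ)) (fun g => hU g g.2) fun R => ?_
  exact (cj_fin hx R).preimage (f := fun g : FS y φ => (g : SL3)) Subtype.val_injective.injOn

/-- Transvections in the stabiliser. -/
lemma mem_fs {y φ a α : Fin 3 → ℤ} {A : SL3} (hA : mt A = 1 + vecMulVec a α)
    (h2 : α ⬝ᵥ y = 0) (h3 : φ ⬝ᵥ a = 0) : A ∈ FS y φ := by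
  refine ⟨Or.inl ?_, Or.inl ?_⟩
  · rw [av_of hA, h2, zero_smul, add_zero]
  · change φ ᵥ* A.1 = φ
    have h4 : A.1 = 1 + vecMulVec a α := hA
    rw [h4, vecMul_add, vecMul_one, vecMul_vecMulVec, h3, zero_smul, add_zero]

lemma tr_fs {y φ a α : Fin 3 → ℤ} (h1 : α ⬝ᵥ a = 0) (h2 : α ⬝ᵥ y = 0) (h3 : φ ⬝ᵥ a = 0) :
    Tr (FS y φ) a α := by
  obtain ⟨A, hA⟩ := tr_exists h1
  exact ⟨h1, A, mem_fs hA h2 h3, hA⟩

/-- Maximality. -/
theorem fs_max {y φ : Fin 3 → ℤ} (hy : y ≠ 0) (hφ : φ ≠ 0) (h : φ ⬝ᵥ y = 0)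
    {K : Subgroup SL3} (hK : HasHaagerup K) (hle : FS y φ ≤ K) : K ≤ FS y φ := by
  obtain ⟨z, hz, hyz⟩ := other hy hφ h
  obtain ⟨θ, hθ, hφθ⟩ := other hφ hy (by rw [dotProduct_comm, h])
  have mono : ∀ {a α : Fin 3 → ℤ}, Tr (FS y φ) a α → Tr K a α :=
    fun ⟨h1, A, hA, hA'⟩ => ⟨h1, A, hle hA, hA'⟩
  have T1 : Tr K y φ := mono (tr_fs h h h)
  have T2 : Tr K z φ := mono (tr_fs hz h hz)
  have T3 : Tr K y θ := mono (tr_fs (by rw [dotProduct_comm, hθ]) (by rw [dotProduct_comm, hθ]) h)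
  exact fun k hk => ⟨pm_eig hy (centre hK hy T1 T3 hφθ hk), pm_eig' hφ (axis hK hφ T1 T2 hyz hk)⟩

/-- Two transvections which generate a Heisenberg group. -/
theorem fs_two {v φ y ψ : Fin 3 → ℤ} {K : Subgroup SL3} (hK : HasHaagerup K) (hφ : φ ≠ 0)
    (hy : y ≠ 0) (T1 : Tr K v φ) (T2 : Tr K y ψ) (h0 : φ ⬝ᵥ y = 0) (h1 : ψ ⬝ᵥ v ≠ 0) :
    K ≤ FS y φ := by
  have T3 : Tr K ((ψ ⬝ᵥ v) • y) φ := T2.comm T1 h0
  have T4 : Tr K ((ψ ⬝ᵥ v) • y) ψ := T2.smulv _
  have hne : (ψ ⬝ᵥ v) • y ≠ 0 := smul_ne_zero h1 hy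
  have hnp : ¬ Par v ((ψ ⬝ᵥ v) • y) := by
    intro h2
    obtain ⟨r, hr⟩ := Function.ne_iff.1 hy
    have hr' : y r ≠ 0 := hr
    have e1 := h2.smul_eq r
    have e2 := congrArg (fun z => ψ ⬝ᵥ z) e1
    simp only [dotProduct_smul, T2.1, smul_eq_mul, mul_zero, Pi.smul_apply] at e2
    exact mul_ne_zero (mul_ne_zero h1 hr') h1 e2.symm
  have hφψ : ¬ Par φ ψ := by
    intro h2
    obtain ⟨r, hr⟩ := Function.ne_iff.1 hφ
    have hr' : φ r ≠ 0 := hr
    have e1 := congrArg (fun z => z ⬝ᵥ v) (h2.smul_eq r)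
    simp only [smul_dotProduct, T1.1, smul_eq_mul, mul_zero] at e1
    exact mul_ne_zero hr' h1 e1
  intro k hk
  refine ⟨?_, pm_eig' hφ (axis hK hφ T1 T3 hnp hk)⟩
  have h2 := pm_eig hne (centre hK hne T3 T4 hφψ hk)
  rw [av_smul, ← smul_neg] at h2
  rcases h2 with h2 | h2
  · exact Or.inl (smul_right_injective _ h1 h2)
  · exact Or.inr (smul_right_injective _ h1 h2)

end Pool.Agent.Run7.h25.HA
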