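import Pool.Agent.Run7.h25.HA.RelT

/-!
# Groups without the Haagerup property
-/

set_option autoImplicit false

namespace Pool.Agent.Run7.h25.HA

open Finset Filter Topology Matrix
open scoped InnerProductSpace ComplexOrder

/-- Conditionally negative definite functions. -/
structure IsCND {Γ : Type} [Group Γ] (ψ : Γ → ℝ) : Prop where
  nonneg : ∀ g, 0 ≤ ψ g
  symm : ∀ g, ψ g⁻¹ = ψ g
  neg : ∀ (n : ℕ) (g : Fin n → Γ) (c : Fin n → ℝ), ∑ i, c i = 0 →
    ∑ i, ∑ j, c i * c j * ψ ((g i)⁻¹ * g j) ≤ 0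

/-- The Haagerup property. -/
def HasHaagerup (Γ : Type) [Group Γ] : Prop :=
  ∃ ψ : Γ → ℝ, IsCND ψ ∧ ∀ R : ℝ, {g | ψ g ≤ R}.Finite

section psd

variable {κ : Type} [Fintype κ]

theorem psd_re {M : Matrix κ κ ℂ} (h : M.PosSemidef) (c : κ → ℂ) :
    0 ≤ (∑ i, ∑ j, (starRingEnd ℂ) (c i) * c j * M i j).re := by
  have h1 := h.dotProduct_mulVec_nonneg c
  have h2 : star c ⬝ᵥ (M *ᵥ c) = ∑ i, ∑ j, (starRingEnd ℂ) (c i) * c j * M i j := by
    unfold dotProduct mulVec dotProduct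
    refine Finset.sum_congr rfl fun i _ => ?_
    rw [Finset.mul_sum]
    refine Finset.sum_congr rfl fun j _ => ?_
    simp only [Pi.star_apply, RCLike.star_def]
    ring
  rw [h2] at h1
  exact (Complex.le_def.mp h1).1

theorem psd_one : (Matrix.of fun _ _ : κ => (1 : ℂ)).PosSemidef := by
  have h := Matrix.posSemidef_vecMulVec_self_star (fun _ : κ => (1 : ℂ))
  have h2 : (Matrix.of fun _ _ : κ => (1 : ℂ)) =
      Matrix.vecMulVec (fun _ : κ => (1 : ℂ)) (star fun _ : κ => (1 : ℂ)) := by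
    ext i j
    simp [Matrix.vecMulVec]
  rw [h2]
  exact h

theorem psd_pow {M : Matrix κ κ ℂ} (h : M.PosSemidef) (n : ℕ) :
    (Matrix.of fun i j : κ => M i j ^ n).PosSemidef := by
  induction n with
  | zero => simpa using psd_one (κ := κ)
  | succ n ih =>
    have h1 := ih.hadamard h
    have h2 : (Matrix.of fun i j : κ => M i j ^ (n + 1)) =
        (Matrix.of fun i j : κ => M i j ^ n) ⊙ M := by
      ext i j
      simp [pow_succ]
    rw [h2]
    exact h1

theorem psd_exp {M : Matrix κ κ ℂ} (h : M.PosSemidef) {t : ℝ} (ht : 0 ≤ t) (c : κ → ℂ) :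
    0 ≤ (∑ i, ∑ j, (starRingEnd ℂ) (c i) * c j * Complex.exp (t * M i j)).re := by
  have h1 : ∀ i j : κ, Tendsto (fun N : ℕ => ∑ n ∈ Finset.range N, (t * M i j) ^ n / n.factorial)
      atTop (𝓝 (Complex.exp (t * M i j))) := by
    intro i j
    have h2 := NormedSpace.expSeries_div_hasSum_exp (𝔸 := ℂ) (t * M i j)
    rw [← Complex.exp_eq_exp_ℂ] at h2
    exact h2.tendsto_sum_nat
  have h3 : Tendsto (fun N : ℕ => (∑ i, ∑ j, (starRingEnd ℂ) (c i) * c j *
      ∑ n ∈ Finset.range N, (t * M i j) ^ n / n.factorial).re) atTop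
      (𝓝 (∑ i, ∑ j, (starRingEnd ℂ) (c i) * c j * Complex.exp (t * M i j)).re) := by
    refine (Complex.continuous_re.tendsto _).comp ?_
    refine tendsto_finsetSum _ fun i _ => tendsto_finsetSum _ fun j _ => ?_
    exact (h1 i j).const_mul _
  refine ge_of_tendsto' h3 fun N => ?_
  have h4 : (∑ i, ∑ j, (starRingEnd ℂ) (c i) * c j *
      ∑ n ∈ Finset.range N, (t * M i j) ^ n / n.factorial) =
      ∑ n ∈ Finset.range N, ((t ^ n / n.factorial : ℝ) : ℂ) *
        ∑ i, ∑ j, (starRingEnd ℂ) (c i) * c j * (Matrix.of fun i j : κ => M i j ^ n) i j := by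
    symm
    simp only [Finset.mul_sum]
    rw [Finset.sum_comm]
    refine Finset.sum_congr rfl fun i _ => ?_
    rw [Finset.sum_comm]
    refine Finset.sum_congr rfl fun j _ => ?_
    refine Finset.sum_congr rfl fun n _ => ?_
    simp only [Matrix.of_apply]
    push_cast
    rw [mul_pow]
    ring
  rw [h4, Complex.re_sum]
  refine Finset.sum_nonneg fun n _ => ?_
  rw [Complex.re_ofReal_mul]
  exact mul_nonneg (by positivity) (psd_re (psd_pow h n) c)

end psd

section cnd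

variable {Γ : Type} [Group Γ]

/-- The kernel `ψ (g) + ψ (h) - ψ (1) - ψ (g⁻¹ h)`. -/
def kr (ψ : Γ → ℝ) (g h : Γ) : ℝ := ψ g + ψ h - ψ 1 - ψ (g⁻¹ * h)

lemma kr_nonneg {ψ : Γ → ℝ} (hψ : IsCND ψ) (n : ℕ) (g : Fin n → Γ) (c : Fin n → ℝ) :
    0 ≤ ∑ i, ∑ j, c i * c j * kr ψ (g i) (g j) := by
  have h1 := hψ.neg (n + 1) (Fin.cons 1 g) (Fin.cons (-∑ i, c i) c) (by
    rw [Fin.sum_univ_succ]
    simp)
  rw [Fin.sum_univ_succ] at h1
  simp only [Fin.sum_univ_succ, Fin.cons_zero, Fin.cons_succ, inv_one, one_mul, mul_one,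
    hψ.symm] at h1
  obtain ⟨S, hS⟩ : ∃ S, S = ∑ i, c i := ⟨_, rfl⟩
  rw [← hS] at h1
  have e1 : ∑ i, ∑ j, c i * c j * kr ψ (g i) (g j) = S * ∑ i, c i * ψ (g i) +
      S * ∑ i, c i * ψ (g i) - S * S * ψ 1 - ∑ i, ∑ j, c i * c j * ψ ((g i)⁻¹ * g j) := by
    have e2 : S * ∑ i, c i * ψ (g i) = ∑ i, ∑ j, c i * c j * ψ (g i) := by
      rw [hS, sum_mul_sum, sum_comm]
      refine sum_congr rfl fun i _ => sum_congr rfl fun j _ => by ring
    have e3 : S * ∑ i, c i * ψ (g i) = ∑ i, ∑ j, c i * c j * ψ (g j) := by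
      rw [hS, sum_mul_sum]
      refine sum_congr rfl fun i _ => sum_congr rfl fun j _ => by ring
    have e4 : S * S * ψ 1 = ∑ i, ∑ j, c i * c j * ψ 1 := by
      rw [hS, sum_mul_sum, sum_mul]
      refine sum_congr rfl fun i _ => ?_
      rw [sum_mul]
    conv_rhs => rw [e4]
    nth_rewrite 1 [e2]
    rw [e3, ← sum_add_distrib, ← sum_sub_distrib, ← sum_sub_distrib]
    refine sum_congr rfl fun i _ => ?_
    rw [← sum_add_distrib, ← sum_sub_distrib, ← sum_sub_distrib]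
    refine sum_congr rfl fun j _ => ?_
    unfold kr
    ring
  rw [e1]
  have e5 : ∑ x, -S * c x * ψ (g x) = -(S * ∑ i, c i * ψ (g i)) := by
    rw [mul_sum, ← sum_neg_distrib]
    refine sum_congr rfl fun i _ => by ring
  have e6 : ∑ x, (c x * -S * ψ (g x) + ∑ x_1, c x * c x_1 * ψ ((g x)⁻¹ * g x_1)) =
      -(S * ∑ i, c i * ψ (g i)) + ∑ i, ∑ j, c i * c j * ψ ((g i)⁻¹ * g j) := by
    rw [sum_add_distrib, mul_sum, ← sum_neg_distrib]
    congr 1
    refine sum_congr rfl fun i _ => by ring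
  rw [e5, e6] at h1
  linarith

lemma kr_psd {ψ : Γ → ℝ} (hψ : IsCND ψ) {κ : Type} [Fintype κ] (g : κ → Γ) :
    (Matrix.of fun i j : κ => ((kr ψ (g i) (g j) : ℝ) : ℂ)).PosSemidef := by
  have hr : ∀ c : κ → ℝ, 0 ≤ ∑ i, ∑ j, c i * c j * kr ψ (g i) (g j) := by
    intro c
    have e := (Fintype.equivFin κ).symm
    have h1 := kr_nonneg hψ (Fintype.card κ) (fun i => g (e i)) (fun i => c (e i))
    rw [e.sum_comp (fun i => ∑ j, c i * c (e j) * kr ψ (g i) (g (e j)))] at h1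
    have h2 : ∀ i, ∑ j, c i * c (e j) * kr ψ (g i) (g (e j)) =
        ∑ j, c i * c j * kr ψ (g i) (g j) := fun i =>
      e.sum_comp (fun j => c i * c j * kr ψ (g i) (g j))
    simp only [h2] at h1
    exact h1
  have hs : ∀ g h : Γ, kr ψ g h = kr ψ h g := by
    intro g h
    unfold kr
    rw [← hψ.symm (g⁻¹ * h), _root_.mul_inv_rev, inv_inv]
    ring
  apply Matrix.PosSemidef.of_dotProduct_mulVec_nonneg
  · ext i j
    rw [conjTranspose_apply, Matrix.of_apply, Matrix.of_apply, RCLike.star_def,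
      Complex.conj_ofReal, hs]
  · intro c
    have h2 : star c ⬝ᵥ ((Matrix.of fun i j : κ => ((kr ψ (g i) (g j) : ℝ) : ℂ)) *ᵥ c) =
        ((∑ i, ∑ j, (c i).re * (c j).re * kr ψ (g i) (g j) +
          ∑ i, ∑ j, (c i).im * (c j).im * kr ψ (g i) (g j) : ℝ) : ℂ) := by
      have h3 : star c ⬝ᵥ ((Matrix.of fun i j : κ => ((kr ψ (g i) (g j) : ℝ) : ℂ)) *ᵥ c) =
          ∑ i, ∑ j, (starRingEnd ℂ) (c i) * c j * (kr ψ (g i) (g j) : ℂ) := by
        unfold dotProduct mulVec dotProduct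
        refine Finset.sum_congr rfl fun i _ => ?_
        rw [Finset.mul_sum]
        refine Finset.sum_congr rfl fun j _ => ?_
        simp only [Pi.star_apply, RCLike.star_def, Matrix.of_apply]
        ring
      rw [h3]
      apply Complex.ext
      · rw [Complex.ofReal_re, Complex.re_sum, ← sum_add_distrib]
        refine sum_congr rfl fun i _ => ?_
        rw [Complex.re_sum, ← sum_add_distrib]
        refine sum_congr rfl fun j _ => ?_
        rw [Complex.re_mul_ofReal, Complex.mul_re, Complex.conj_re, Complex.conj_im]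
        ring
      · rw [Complex.ofReal_im, Complex.im_sum]
        have h4 : ∑ i, (∑ j, (starRingEnd ℂ) (c i) * c j * (kr ψ (g i) (g j) : ℂ)).im =
            ∑ i, ∑ j, ((c i).re * (c j).im * kr ψ (g i) (g j) -
              (c i).im * (c j).re * kr ψ (g i) (g j)) := by
          refine sum_congr rfl fun i _ => ?_
          rw [Complex.im_sum]
          refine sum_congr rfl fun j _ => ?_
          rw [Complex.im_mul_ofReal, Complex.mul_im, Complex.conj_re, Complex.conj_im]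
          ring
        rw [h4]
        simp only [sum_sub_distrib]
        rw [sub_eq_zero]
        rw [sum_comm]
        refine sum_congr rfl fun i _ => sum_congr rfl fun j _ => ?_
        rw [hs]
        ring
    rw [h2]
    have h5 := hr fun i => (c i).re
    have h6 := hr fun i => (c i).im
    exact_mod_cast add_nonneg h5 h6

/-- Positive definite functions. -/
structure IsPD (φ : Γ → ℝ) : Prop where
  symm : ∀ g, φ g⁻¹ = φ g
  pos : ∀ (s : Finset Γ) (c : Γ → ℂ),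
    0 ≤ (∑ g ∈ s, ∑ h ∈ s, (starRingEnd ℂ) (c g) * c h * (φ (g⁻¹ * h) : ℂ)).re

/-- Schoenberg's theorem. -/
lemma schoenberg {ψ : Γ → ℝ} (hψ : IsCND ψ) {t : ℝ} (ht : 0 ≤ t) :
    IsPD fun g => Real.exp (-(t * (ψ g - ψ 1))) where
  symm g := by simp only [hψ.symm]
  pos s c := by
    have h1 := psd_exp (kr_psd hψ (fun g : s => (g : Γ))) ht
      (fun g : s => c g * ((Real.exp (t * ψ 1 - t * ψ g) : ℝ) : ℂ))
    refine h1.trans (le_of_eq ?_)
    congr 1
    rw [← Finset.sum_coe_sort s]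
    refine sum_congr rfl fun g _ => ?_
    rw [← Finset.sum_coe_sort s]
    refine sum_congr rfl fun h _ => ?_
    rw [map_mul, Complex.conj_ofReal, Matrix.of_apply, ← Complex.ofReal_mul, ← Complex.ofReal_exp]
    have e : Real.exp (-(t * (ψ ((g : Γ)⁻¹ * h) - ψ 1))) =
        Real.exp (t * ψ 1 - t * ψ g) * Real.exp (t * ψ 1 - t * ψ h) *
          Real.exp (t * kr ψ g h) := by
      rw [← Real.exp_add, ← Real.exp_add]
      congr 1
      unfold kr
      ring
    rw [e]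
    push_cast
    ring

/-- The inner product of a positive definite function. -/
noncomputable def ip (φ : Γ → ℝ) (x y : Γ →₀ ℂ) : ℂ :=
  x.sum fun g a => y.sum fun h b => (starRingEnd ℂ) a * b * (φ (g⁻¹ * h) : ℂ)

lemma ip_add_left (φ : Γ → ℝ) (x y z : Γ →₀ ℂ) : ip φ (x + y) z = ip φ x z + ip φ y z := by
  classical
  unfold ip
  rw [Finsupp.sum_add_index']
  · intro g
    simp
  · intro g a b
    rw [← Finsupp.sum_add]
    refine Finsupp.sum_congr fun h _ => ?_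
    rw [map_add]
    ring

lemma ip_smul_left (φ : Γ → ℝ) (x y : Γ →₀ ℂ) (r : ℂ) :
    ip φ (r • x) y = (starRingEnd ℂ) r * ip φ x y := by
  unfold ip
  rw [Finsupp.sum_smul_index', Finsupp.mul_sum]
  · refine Finsupp.sum_congr fun g _ => ?_
    rw [Finsupp.mul_sum]
    refine Finsupp.sum_congr fun h _ => ?_
    rw [smul_eq_mul, map_mul]
    ring
  · intro g
    simp

lemma ip_symm {φ : Γ → ℝ} (hφ : IsPD φ) (x y : Γ →₀ ℂ) : (starRingEnd ℂ) (ip φ y x) = ip φ x y := by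
  unfold ip
  rw [Finsupp.sum, map_sum]
  simp only [Finsupp.sum, map_sum]
  rw [sum_comm]
  refine sum_congr rfl fun g _ => sum_congr rfl fun h _ => ?_
  rw [map_mul, map_mul, Complex.conj_conj, Complex.conj_ofReal, ← hφ.symm (h⁻¹ * g),
    _root_.mul_inv_rev, inv_inv]
  ring

lemma ip_nonneg {φ : Γ → ℝ} (hφ : IsPD φ) (x : Γ →₀ ℂ) : 0 ≤ (ip φ x x).re :=
  hφ.pos x.support x

/-- The pre-Hilbert space of a positive definite function. -/
@[instance_reducible]
noncomputable def pcore {φ : Γ → ℝ} (hφ : IsPD φ) : PreInnerProductSpace.Core ℂ (Γ →₀ ℂ) where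
  inner x y := ip φ x y
  conj_inner_symm x y := ip_symm hφ x y
  re_inner_nonneg x := ip_nonneg hφ x
  add_left x y z := ip_add_left φ x y z
  smul_left x y r := ip_smul_left φ x y r

/-- Translation. -/
noncomputable def trl (g : Γ) : (Γ →₀ ℂ) ≃ₗ[ℂ] (Γ →₀ ℂ) := Finsupp.domLCongr (Equiv.mulLeft g)

lemma ip_trl (φ : Γ → ℝ) (g : Γ) (x y : Γ →₀ ℂ) : ip φ (trl g x) (trl g y) = ip φ x y := by
  have e : ∀ x : Γ →₀ ℂ, trl g x = x.mapDomain (fun h => g * h) := by
    intro x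
    exact Finsupp.equivMapDomain_eq_mapDomain _ _
  rw [e, e]
  unfold ip
  rw [Finsupp.sum_mapDomain_index]
  · refine Finsupp.sum_congr fun h _ => ?_
    rw [Finsupp.sum_mapDomain_index]
    · refine Finsupp.sum_congr fun k _ => ?_
      have e1 : (g * h)⁻¹ * (g * k) = h⁻¹ * k := by group
      rw [e1]
    · intro k
      simp
    · intro k a b
      ring
  · intro h
    simp
  · intro h a b
    rw [← Finsupp.sum_add]
    refine Finsupp.sum_congr fun k _ => ?_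
    rw [map_add]
    ring

/-- The representation of a positive definite function. -/
theorem gns {φ : Γ → ℝ} (hφ : IsPD φ) :
    ∃ (E : Type) (_ : SeminormedAddCommGroup E) (_ : InnerProductSpace ℂ E)
      (π : Γ →* (E ≃ₗᵢ[ℂ] E)) (ξ : E), ∀ g, ⟪ξ, π g ξ⟫_ℂ = (φ g : ℂ) := by
  let c := pcore hφ
  let i1 : SeminormedAddCommGroup (Γ →₀ ℂ) :=
    InnerProductSpace.Core.toSeminormedAddCommGroup (𝕜 := ℂ)
  let i2 : InnerProductSpace ℂ (Γ →₀ ℂ) := InnerProductSpace.ofCore c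
  have hin : ∀ x y : Γ →₀ ℂ, ⟪x, y⟫_ℂ = ip φ x y := fun _ _ => rfl
  have hn : ∀ (g : Γ) (x : Γ →₀ ℂ), ‖trl g x‖ = ‖x‖ := by
    intro g x
    rw [@norm_eq_sqrt_re_inner ℂ, @norm_eq_sqrt_re_inner ℂ, hin, hin, ip_trl]
  refine ⟨Γ →₀ ℂ, i1, i2, ⟨⟨fun g => ⟨trl g, hn g⟩, ?_⟩, ?_⟩, Finsupp.single 1 1, fun g => ?_⟩
  · ext x h
    simp [trl]
    rfl
  · intro g h
    ext x k
    simp [trl]
    rfl
  · rw [hin]
    change ip φ (Finsupp.single 1 1) (trl g (Finsupp.single 1 1)) = _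
    have e : trl g (Finsupp.single (1 : Γ) (1 : ℂ)) = Finsupp.single g 1 := by
      unfold trl
      simp
    rw [e]
    unfold ip
    rw [Finsupp.sum_single_index, Finsupp.sum_single_index]
    · simp
    · simp
    · simp

/-- **Groups containing a lattice of the affine group of the plane do not have the Haagerup
property.** -/
theorem not_haagerup {u v a b : Γ} {n : ℕ} (hn : 7 ≤ n) (huv : u * v = v * u)
    (hau : a * u = u * v ^ n * a) (hav : a * v = v * a) (hbv : b * v = v * u ^ n * b)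
    (hbu : b * u = u * b) (hu : ∀ k : ℤ, u ^ k = 1 → k = 0) : ¬ HasHaagerup Γ := by
  rintro ⟨ψ, hψ, hprop⟩
  obtain ⟨D, hD⟩ : ∃ D : ℝ, D = |ψ u - ψ 1| + |ψ v - ψ 1| + |ψ a - ψ 1| + |ψ b - ψ 1| + 1 := ⟨_, rfl⟩
  have hD0 : 0 < D := by rw [hD]; positivity
  have n7 : (7 : ℝ) ≤ n := by exact_mod_cast hn
  obtain ⟨ε, hε⟩ : ∃ ε : ℝ, ε = 1 / (100 * n ^ 2) := ⟨_, rfl⟩
  have hε0 : 0 < ε := by rw [hε]; positivity
  obtain ⟨t, ht⟩ : ∃ t : ℝ, t = ε ^ 2 / (2 * D) := ⟨_, rfl⟩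
  have ht0 : 0 < t := by rw [ht]; positivity
  obtain ⟨E, _, _, π, ξ, hπ⟩ := gns (schoenberg hψ ht0.le)
  have hξ : ‖ξ‖ = 1 := by
    have h1 := hπ 1
    rw [map_one, sub_self, mul_zero, neg_zero, Real.exp_zero, Complex.ofReal_one] at h1
    change ⟪ξ, ξ⟫_ℂ = 1 at h1
    have h2 := inner_self_eq_norm_sq (𝕜 := ℂ) ξ
    rw [h1] at h2
    have h3 : ‖ξ‖ ^ 2 = 1 := by simpa using h2.symm
    nlinarith [norm_nonneg ξ]
  have key : ∀ g : Γ, |ψ g - ψ 1| ≤ D → ‖π g ξ - ξ‖ ≤ ε := by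
    intro g hg
    have h1 := hπ g
    have h2 := @norm_sub_sq ℂ E _ _ _ (π g ξ) ξ
    rw [LinearIsometryEquiv.norm_map, hξ] at h2
    have h3 : RCLike.re ⟪π g ξ, ξ⟫_ℂ = Real.exp (-(t * (ψ g - ψ 1))) := by
      rw [← inner_conj_symm, h1, Complex.conj_ofReal]
      rfl
    rw [h3] at h2
    have h4 := Real.add_one_le_exp (-(t * (ψ g - ψ 1)))
    have h5 : t * (ψ g - ψ 1) ≤ t * D := mul_le_mul_of_nonneg_left ((le_abs_self _).trans hg) ht0.le
    have h6 : 2 * (t * D) = ε ^ 2 := by rw [ht]; field_simp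
    have h7 : ‖π g ξ - ξ‖ ^ 2 ≤ ε ^ 2 := by linarith
    exact (sq_le_sq₀ (norm_nonneg _) hε0.le).1 h7
  have hpos := fun x : ℝ => abs_nonneg x
  refine rel_T (U := π u) (V := π v) (A := π a) (B := π b) ?_ hn ?_ ?_ ?_ ?_ hξ (ε := ε) ?_
    (key u ?_) (key v ?_) (key a ?_) (key b ?_) ?_
  · change π u * π v = π v * π u
    rw [← map_mul, ← map_mul, huv]
  · rw [← map_mul, ← map_pow, ← map_mul, ← map_mul, hau]
  · rw [← map_mul, ← map_mul, hav]
  · rw [← map_mul, ← map_pow, ← map_mul, ← map_mul, hbv]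
  · rw [← map_mul, ← map_mul, hbu]
  · rw [hε]
    apply le_of_eq
    field_simp
  · rw [hD]
    linarith [hpos (ψ u - ψ 1), hpos (ψ v - ψ 1), hpos (ψ a - ψ 1), hpos (ψ b - ψ 1)]
  · rw [hD]
    linarith [hpos (ψ u - ψ 1), hpos (ψ v - ψ 1), hpos (ψ a - ψ 1), hpos (ψ b - ψ 1)]
  · rw [hD]
    linarith [hpos (ψ u - ψ 1), hpos (ψ v - ψ 1), hpos (ψ a - ψ 1), hpos (ψ b - ψ 1)]
  · rw [hD]
    linarith [hpos (ψ u - ψ 1), hpos (ψ v - ψ 1), hpos (ψ a - ψ 1), hpos (ψ b - ψ 1)]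
  · -- the matrix coefficient
    have hinj : Function.Injective fun k : ℤ => u ^ k := by
      intro k l hkl
      have h1 : u ^ (k - l) = 1 := by
        rw [_root_.zpow_sub, mul_inv_eq_one]
        exact hkl
      have := hu _ h1
      omega
    have hfin : {k : ℤ | ψ (u ^ k) ≤ ψ 1 + 1000 / t}.Finite :=
      (hprop (ψ 1 + 1000 / t)).preimage hinj.injOn
    obtain ⟨k0, hk0⟩ : ∃ k0 : ℕ, ∀ k ∈ {k : ℤ | ψ (u ^ k) ≤ ψ 1 + 1000 / t}, |k| < k0 := by
      refine ⟨(hfin.toFinset.sup fun k => k.natAbs) + 1, fun k hk => ?_⟩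
      have := Finset.le_sup (f := fun k : ℤ => k.natAbs) (hfin.mem_toFinset.2 hk)
      rw [Int.abs_eq_natAbs]
      exact_mod_cast Nat.lt_succ_of_le this
    refine ⟨k0, fun k hk => ?_⟩
    have h1 : ¬ ψ (u ^ k) ≤ ψ 1 + 1000 / t := fun h2 => absurd (hk0 k h2) (not_lt.2 hk)
    rw [not_le] at h1
    rw [← map_zpow, hπ, Complex.ofReal_re]
    have h2 : 1000 ≤ t * (ψ (u ^ k) - ψ 1) := by
      have h3 : t * (1000 / t) = 1000 := by field_simp
      have h4 : t * (1000 / t) ≤ t * (ψ (u ^ k) - ψ 1) := mul_le_mul_of_nonneg_left (by linarith) ht0.le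
      linarith
    rw [Real.exp_neg]
    have h5 := Real.add_one_le_exp (t * (ψ (u ^ k) - ψ 1))
    rw [inv_eq_one_div]
    apply one_div_le_one_div_of_le (by norm_num)
    linarith

end cnd

end Pool.Agent.Run7.h25.HA
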