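import Pool.Agent.Run7.h25.HA.Two

/-!
# The Haagerup property of groups of upper triangular matrices
-/

set_option autoImplicit false

namespace Pool.Agent.Run7.h25.HA

open Finset Matrix
open scoped ComplexOrder

section ker

variable {κ : Type} [Fintype κ]

lemma psd_conj (a : κ → ℂ) :
    (Matrix.of fun i j : κ => (starRingEnd ℂ) (a i) * a j).PosSemidef := by
  have h := Matrix.posSemidef_vecMulVec_star_self a
  have h2 : (Matrix.of fun i j : κ => (starRingEnd ℂ) (a i) * a j) =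
      Matrix.vecMulVec (star a) a := by
    ext i j
    simp [Matrix.vecMulVec]
  rw [h2]
  exact h

lemma cpow_kernel (a b : κ → ℂ) (c : κ → ℝ) (k : ℕ) :
    0 ≤ (∑ i, ∑ j, ((c i * c j : ℝ) : ℂ) *
      ((starRingEnd ℂ) (a i) * a j + (starRingEnd ℂ) (b i) * b j) ^ k).re := by
  have h1 := psd_re (psd_pow ((psd_conj a).add (psd_conj b)) k) (fun i => (c i : ℂ))
  refine h1.trans (le_of_eq ?_)
  congr 1
  refine sum_congr rfl fun i _ => sum_congr rfl fun j _ => ?_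
  rw [Matrix.of_apply, Matrix.add_apply, Matrix.of_apply, Matrix.of_apply, Complex.conj_ofReal]
  push_cast
  ring

/-- The complex logarithmic kernel. -/
lemma clog_kernel (a b : κ → ℂ) (c : κ → ℝ) (h : ∀ i, ‖a i‖ ^ 2 + ‖b i‖ ^ 2 < 1) :
    ∑ i, ∑ j, c i * c j *
      Real.log ‖1 - ((starRingEnd ℂ) (a i) * a j + (starRingEnd ℂ) (b i) * b j)‖ ≤ 0 := by
  have hx : ∀ i j, ‖(starRingEnd ℂ) (a i) * a j + (starRingEnd ℂ) (b i) * b j‖ < 1 := by
    intro i j
    have h1 := h i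
    have h2 := h j
    have h3 : ‖(starRingEnd ℂ) (a i) * a j + (starRingEnd ℂ) (b i) * b j‖ ≤
        ‖a i‖ * ‖a j‖ + ‖b i‖ * ‖b j‖ := by
      refine (norm_add_le _ _).trans ?_
      rw [norm_mul, norm_mul, RCLike.norm_conj, RCLike.norm_conj]
    nlinarith [sq_nonneg (‖a i‖ - ‖a j‖), sq_nonneg (‖b i‖ - ‖b j‖)]
  have h1 : ∀ i j, HasSum (fun k : ℕ => ((starRingEnd ℂ) (a i) * a j +
      (starRingEnd ℂ) (b i) * b j) ^ k / k)
      (-Complex.log (1 - ((starRingEnd ℂ) (a i) * a j + (starRingEnd ℂ) (b i) * b j))) :=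
    fun i j => Complex.hasSum_taylorSeries_neg_log (hx i j)
  have h2 : HasSum (fun k : ℕ => ∑ i, ∑ j, ((c i * c j : ℝ) : ℂ) *
      (((starRingEnd ℂ) (a i) * a j + (starRingEnd ℂ) (b i) * b j) ^ k / k))
      (∑ i, ∑ j, ((c i * c j : ℝ) : ℂ) *
        (-Complex.log (1 - ((starRingEnd ℂ) (a i) * a j + (starRingEnd ℂ) (b i) * b j)))) :=
    hasSum_sum fun i _ => hasSum_sum fun j _ => (h1 i j).mul_left _
  have h3 : 0 ≤ (∑ i, ∑ j, ((c i * c j : ℝ) : ℂ) *
      (-Complex.log (1 - ((starRingEnd ℂ) (a i) * a j + (starRingEnd ℂ) (b i) * b j)))).re := by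
    refine (Complex.hasSum_re h2).nonneg fun k => ?_
    have h4 := cpow_kernel a b c k
    have h5 : ∑ i, ∑ j, ((c i * c j : ℝ) : ℂ) *
        (((starRingEnd ℂ) (a i) * a j + (starRingEnd ℂ) (b i) * b j) ^ k / k) =
        (((k : ℝ)⁻¹ : ℝ) : ℂ) * ∑ i, ∑ j, ((c i * c j : ℝ) : ℂ) *
          ((starRingEnd ℂ) (a i) * a j + (starRingEnd ℂ) (b i) * b j) ^ k := by
      rw [mul_sum]
      refine sum_congr rfl fun i _ => ?_
      rw [mul_sum]
      refine sum_congr rfl fun j _ => ?_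
      push_cast
      ring
    rw [h5, Complex.re_ofReal_mul]
    exact mul_nonneg (by positivity) h4
  have h6 : (∑ i, ∑ j, ((c i * c j : ℝ) : ℂ) *
      (-Complex.log (1 - ((starRingEnd ℂ) (a i) * a j + (starRingEnd ℂ) (b i) * b j)))).re =
      -∑ i, ∑ j, c i * c j *
        Real.log ‖1 - ((starRingEnd ℂ) (a i) * a j + (starRingEnd ℂ) (b i) * b j)‖ := by
    rw [Complex.re_sum, ← sum_neg_distrib]
    refine sum_congr rfl fun i _ => ?_
    rw [Complex.re_sum, ← sum_neg_distrib]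
    refine sum_congr rfl fun j _ => ?_
    rw [Complex.re_ofReal_mul, Complex.neg_re, Complex.log_re]
    ring
  rw [h6] at h3
  linarith

end ker

variable {Γ : Type} [Group Γ]

/-- Upper triangular matrices with diagonal entries `± 1`. -/
structure UT (A : M3) : Prop where
  h10 : A 1 0 = 0
  h20 : A 2 0 = 0
  h21 : A 2 1 = 0
  d0 : A 0 0 ^ 2 = 1
  d1 : A 1 1 ^ 2 = 1
  d2 : A 2 2 ^ 2 = 1

/-- The inverse of an upper triangular matrix. -/
def uinv (A : M3) : M3 :=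
  !![A 0 0, -(A 0 0 * A 0 1 * A 1 1), A 0 0 * (-(A 0 2) + A 0 1 * A 1 1 * A 1 2) * A 2 2;
    0, A 1 1, -(A 1 1 * A 1 2 * A 2 2); 0, 0, A 2 2]

lemma uinv_mul {A : M3} (h : UT A) : uinv A * A = 1 := by
  obtain ⟨h10, h20, h21, d0, d1, d2⟩ := h
  ext i j
  rw [Matrix.mul_apply, Fin.sum_univ_three]
  fin_cases i <;> fin_cases j <;> simp [uinv, h10, h20, h21]
  · linear_combination d0
  · linear_combination (-(A 0 0 * A 0 1)) * d1
  · linear_combination (A 0 0 * (-(A 0 2) + A 0 1 * A 1 1 * A 1 2)) * d2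
  · linear_combination d1
  · linear_combination (-(A 1 1 * A 1 2)) * d2
  · linear_combination d2

/-- The coordinates. -/
noncomputable def ca (A : M3) : ℝ := ((A 0 1 * A 1 1 : ℚ) : ℝ)

/-- The coordinates. -/
noncomputable def cb (A : M3) : ℝ := ((A 1 2 * A 2 2 : ℚ) : ℝ)

/-- The coordinates. -/
noncomputable def ct (A : M3) : ℝ := ((2 * (A 0 2 * A 2 2) - A 0 1 * A 1 1 * (A 1 2 * A 2 2) : ℚ) : ℝ)

lemma coords {A B : M3} (hA : UT A) (hB : UT B) :
    ca (uinv A * B) ^ 2 = (ca B - ca A) ^ 2 ∧ cb (uinv A * B) ^ 2 = (cb B - cb A) ^ 2 ∧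
    ct (uinv A * B) ^ 2 = (ct B - ct A - (ca A * cb B - ca B * cb A)) ^ 2 := by
  obtain ⟨h10, h20, h21, d0, d1, d2⟩ := hA
  obtain ⟨g10, g20, g21, f0, f1, f2⟩ := hB
  have m01 : (uinv A * B) 0 1 = A 0 0 * B 0 1 - A 0 0 * A 0 1 * A 1 1 * B 1 1 := by
    rw [Matrix.mul_apply, Fin.sum_univ_three, g21]
    simp [uinv]
    ring
  have m11 : (uinv A * B) 1 1 = A 1 1 * B 1 1 := by
    rw [Matrix.mul_apply, Fin.sum_univ_three, g21]
    simp [uinv]
  have m12 : (uinv A * B) 1 2 = A 1 1 * B 1 2 - A 1 1 * A 1 2 * A 2 2 * B 2 2 := by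
    rw [Matrix.mul_apply, Fin.sum_univ_three]
    simp [uinv]
    ring
  have m22 : (uinv A * B) 2 2 = A 2 2 * B 2 2 := by
    rw [Matrix.mul_apply, Fin.sum_univ_three]
    simp [uinv]
  have m02 : (uinv A * B) 0 2 = A 0 0 * B 0 2 - A 0 0 * A 0 1 * A 1 1 * B 1 2 +
      A 0 0 * (-(A 0 2) + A 0 1 * A 1 1 * A 1 2) * A 2 2 * B 2 2 := by
    rw [Matrix.mul_apply, Fin.sum_univ_three]
    simp [uinv]
    ring
  have ea : (uinv A * B) 0 1 * (uinv A * B) 1 1 =
      A 0 0 * A 1 1 * (B 0 1 * B 1 1 - A 0 1 * A 1 1) := by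
    rw [m01, m11]
    linear_combination (-(A 0 0 * A 0 1 * A 1 1 * A 1 1)) * f1
  have eb : (uinv A * B) 1 2 * (uinv A * B) 2 2 =
      A 1 1 * A 2 2 * (B 1 2 * B 2 2 - A 1 2 * A 2 2) := by
    rw [m12, m22]
    linear_combination (-(A 1 1 * A 1 2 * A 2 2 * A 2 2)) * f2
  have ec : (uinv A * B) 0 2 * (uinv A * B) 2 2 = A 0 0 * A 2 2 * (B 0 2 * B 2 2 - A 0 2 * A 2 2 -
      A 0 1 * A 1 1 * (B 1 2 * B 2 2) + A 0 1 * A 1 1 * (A 1 2 * A 2 2)) := by
    rw [m02, m22]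
    linear_combination (A 0 0 * (-(A 0 2) + A 0 1 * A 1 1 * A 1 2) * A 2 2 * A 2 2) * f2
  have s1 : (A 0 0 * A 1 1) ^ 2 = 1 := by rw [mul_pow, d0, d1, one_mul]
  have s2 : (A 1 1 * A 2 2) ^ 2 = 1 := by rw [mul_pow, d1, d2, one_mul]
  have s3 : (A 0 0 * A 2 2) ^ 2 = 1 := by rw [mul_pow, d0, d2, one_mul]
  refine ⟨?_, ?_, ?_⟩
  · unfold ca
    rw [ea]
    have : (A 0 0 * A 1 1 * (B 0 1 * B 1 1 - A 0 1 * A 1 1)) ^ 2 =
        (B 0 1 * B 1 1 - A 0 1 * A 1 1) ^ 2 := by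
      rw [mul_pow, s1, one_mul]
    exact_mod_cast this
  · unfold cb
    rw [eb]
    have : (A 1 1 * A 2 2 * (B 1 2 * B 2 2 - A 1 2 * A 2 2)) ^ 2 =
        (B 1 2 * B 2 2 - A 1 2 * A 2 2) ^ 2 := by
      rw [mul_pow, s2, one_mul]
    exact_mod_cast this
  · unfold ct ca cb
    rw [ea, eb, ec]
    have : (2 * (A 0 0 * A 2 2 * (B 0 2 * B 2 2 - A 0 2 * A 2 2 -
        A 0 1 * A 1 1 * (B 1 2 * B 2 2) + A 0 1 * A 1 1 * (A 1 2 * A 2 2))) -
        A 0 0 * A 1 1 * (B 0 1 * B 1 1 - A 0 1 * A 1 1) *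
          (A 1 1 * A 2 2 * (B 1 2 * B 2 2 - A 1 2 * A 2 2))) ^ 2 =
        (2 * (B 0 2 * B 2 2) - B 0 1 * B 1 1 * (B 1 2 * B 2 2) - (2 * (A 0 2 * A 2 2) -
          A 0 1 * A 1 1 * (A 1 2 * A 2 2)) - (A 0 1 * A 1 1 * (B 1 2 * B 2 2) -
          B 0 1 * B 1 1 * (A 1 2 * A 2 2))) ^ 2 := by
      have e1 : (2 * (A 0 0 * A 2 2 * (B 0 2 * B 2 2 - A 0 2 * A 2 2 -
        A 0 1 * A 1 1 * (B 1 2 * B 2 2) + A 0 1 * A 1 1 * (A 1 2 * A 2 2))) -
        A 0 0 * A 1 1 * (B 0 1 * B 1 1 - A 0 1 * A 1 1) *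
          (A 1 1 * A 2 2 * (B 1 2 * B 2 2 - A 1 2 * A 2 2))) = A 0 0 * A 2 2 *
        (2 * (B 0 2 * B 2 2) - B 0 1 * B 1 1 * (B 1 2 * B 2 2) - (2 * (A 0 2 * A 2 2) -
          A 0 1 * A 1 1 * (A 1 2 * A 2 2)) - (A 0 1 * A 1 1 * (B 1 2 * B 2 2) -
          B 0 1 * B 1 1 * (A 1 2 * A 2 2))) := by
        linear_combination (-(A 0 0 * A 2 2 * (B 0 1 * B 1 1 - A 0 1 * A 1 1) *
          (B 1 2 * B 2 2 - A 1 2 * A 2 2))) * d1
      rw [e1, mul_pow, s3, one_mul]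
    exact_mod_cast this

/-- The complex number with logarithm of absolute value equal to the conditionally negative
definite function. -/
noncomputable def PA (A : M3) : ℂ := ⟨1 + ca A ^ 2 + cb A ^ 2, 2 * ct A⟩

/-- The point of the Siegel domain. -/
noncomputable def pA (A : M3) : ℂ := ⟨1 / 2 + ca A ^ 2 + cb A ^ 2, 2 * ct A⟩

/-- The horizontal coordinate. -/
noncomputable def zA (A : M3) : ℂ := ⟨ca A, cb A⟩

lemma sq_PA (A : M3) : ‖PA A‖ ^ 2 = (1 + ca A ^ 2 + cb A ^ 2) ^ 2 + 4 * ct A ^ 2 := by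
  rw [← Complex.normSq_eq_norm_sq, Complex.normSq_apply]
  simp only [PA]
  ring

lemma one_le_PA (A : M3) : 1 + ca A ^ 2 + cb A ^ 2 ≤ ‖PA A‖ := by
  have h := (le_abs_self _).trans (Complex.abs_re_le_norm (PA A))
  exact h

lemma kernel_eq {A B : M3} (hA : UT A) (hB : UT B) :
    ‖PA (uinv A * B)‖ = ‖(starRingEnd ℂ) (pA A) + pA B - 2 * ((starRingEnd ℂ) (zA A) * zA B)‖ := by
  obtain ⟨h1, h2, h3⟩ := coords hA hB
  have h4 := sq_PA (uinv A * B)
  rw [h1, h2, h3] at h4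
  have h5 : ‖(starRingEnd ℂ) (pA A) + pA B - 2 * ((starRingEnd ℂ) (zA A) * zA B)‖ ^ 2 =
      (1 + (ca B - ca A) ^ 2 + (cb B - cb A) ^ 2) ^ 2 +
        4 * (ct B - ct A - (ca A * cb B - ca B * cb A)) ^ 2 := by
    rw [← Complex.normSq_eq_norm_sq, Complex.normSq_apply]
    simp only [pA, zA, Complex.sub_re, Complex.sub_im, Complex.add_re, Complex.add_im,
      Complex.mul_re, Complex.mul_im, Complex.conj_re, Complex.conj_im, Complex.re_ofNat,
      Complex.im_ofNat]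
    ring
  rw [← h5] at h4
  exact (sq_eq_sq₀ (norm_nonneg _) (norm_nonneg _)).1 h4

lemma one_add_pA (A : M3) : 1 + pA A ≠ 0 := by
  intro h
  have h1 := congrArg Complex.re h
  simp only [pA, Complex.add_re, Complex.one_re, Complex.zero_re] at h1
  nlinarith [sq_nonneg (ca A), sq_nonneg (cb A)]

lemma kernel_factor (A B : M3) :
    (starRingEnd ℂ) (pA A) + pA B - 2 * ((starRingEnd ℂ) (zA A) * zA B) =
      (1 / 2) * (1 + (starRingEnd ℂ) (pA A)) * (1 + pA B) *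
      (1 - ((starRingEnd ℂ) ((1 - pA A) / (1 + pA A)) * ((1 - pA B) / (1 + pA B)) +
        (starRingEnd ℂ) (2 * zA A / (1 + pA A)) * (2 * zA B / (1 + pA B)))) := by
  have h1 := one_add_pA A
  have h2 := one_add_pA B
  have h3 : 1 + (starRingEnd ℂ) (pA A) ≠ 0 := by
    intro h
    apply h1
    have := congrArg (starRingEnd ℂ) h
    simpa using this
  simp only [map_div₀, map_mul, map_sub, map_add, map_one, map_ofNat]
  field_simp
  ring

lemma ball (A : M3) : ‖(1 - pA A) / (1 + pA A)‖ ^ 2 + ‖2 * zA A / (1 + pA A)‖ ^ 2 < 1 := by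
  have h1 := one_add_pA A
  have h2 : 0 < ‖1 + pA A‖ ^ 2 := by positivity
  rw [norm_div, norm_div, div_pow, div_pow, ← add_div, div_lt_one h2,
    ← Complex.normSq_eq_norm_sq, ← Complex.normSq_eq_norm_sq, ← Complex.normSq_eq_norm_sq,
    Complex.normSq_apply, Complex.normSq_apply, Complex.normSq_apply]
  simp only [pA, zA, Complex.sub_re, Complex.sub_im, Complex.add_re, Complex.add_im, Complex.mul_re,
    Complex.mul_im, Complex.one_re, Complex.one_im, Complex.re_ofNat, Complex.im_ofNat]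
  nlinarith

/-- **Discrete groups of upper triangular matrices with diagonal entries `± 1` have the Haagerup
property.** -/
theorem heis_haagerup {m : Γ →* M3} (hU : ∀ g, UT (m g))
    (hfin : ∀ R : ℝ, {g | ∀ i j, |((m g i j : ℚ) : ℝ)| ≤ R}.Finite) : HasHaagerup Γ := by
  have hmi : ∀ g h, m (g⁻¹ * h) = uinv (m g) * m h := by
    intro g h
    rw [map_mul, m_inv_of (uinv_mul (hU g))]
  have hpos : ∀ g, 1 ≤ ‖PA (m g)‖ := by
    intro g
    have := one_le_PA (m g)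
    nlinarith [sq_nonneg (ca (m g)), sq_nonneg (cb (m g))]
  refine ⟨fun g => Real.log ‖PA (m g)‖, ⟨fun g => Real.log_nonneg (hpos g), fun g => ?_,
    fun n g c hc => ?_⟩, fun R => ?_⟩
  · congr 1
    have h1 := hmi g 1
    rw [mul_one, map_one] at h1
    have hU1 : UT (1 : M3) := by
      have := hU 1
      rwa [map_one] at this
    obtain ⟨e1, e2, e3⟩ := coords (hU g) hU1
    have a0 : ca (1 : M3) = 0 := by simp [ca]
    have b0 : cb (1 : M3) = 0 := by simp [cb]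
    have t0 : ct (1 : M3) = 0 := by simp [ct]
    rw [a0, zero_sub, neg_sq] at e1
    rw [b0, zero_sub, neg_sq] at e2
    rw [a0, b0, t0, mul_zero, zero_mul, sub_zero, sub_zero, zero_sub, neg_sq] at e3
    have h2 := sq_PA (m g⁻¹)
    rw [h1, e1, e2, e3, ← sq_PA] at h2
    rw [h1]
    exact (sq_eq_sq₀ (norm_nonneg _) (norm_nonneg _)).1 h2
  · have h1 := clog_kernel (fun i => (1 - pA (m (g i))) / (1 + pA (m (g i))))
      (fun i => 2 * zA (m (g i)) / (1 + pA (m (g i)))) c (fun i => ball _)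
    have h2 : ∀ i j, Real.log ‖PA (m ((g i)⁻¹ * g j))‖ = Real.log (1 / 2) +
        Real.log ‖1 + pA (m (g i))‖ + Real.log ‖1 + pA (m (g j))‖ +
        Real.log ‖1 - ((starRingEnd ℂ) ((1 - pA (m (g i))) / (1 + pA (m (g i)))) *
          ((1 - pA (m (g j))) / (1 + pA (m (g j)))) +
        (starRingEnd ℂ) (2 * zA (m (g i)) / (1 + pA (m (g i)))) *
          (2 * zA (m (g j)) / (1 + pA (m (g j)))))‖ := by
      intro i j
      have k1 : ‖1 + pA (m (g i))‖ ≠ 0 := norm_ne_zero_iff.2 (one_add_pA _)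
      have k2 : ‖1 + pA (m (g j))‖ ≠ 0 := norm_ne_zero_iff.2 (one_add_pA _)
      have k3 : ‖1 + (starRingEnd ℂ) (pA (m (g i)))‖ = ‖1 + pA (m (g i))‖ := by
        rw [← RCLike.norm_conj (1 + pA (m (g i))), map_add, map_one]
      have k4 : ‖(1 / 2 : ℂ)‖ = 1 / 2 := by norm_num
      have e : ‖PA (m ((g i)⁻¹ * g j))‖ = (1 / 2) * ‖1 + pA (m (g i))‖ * ‖1 + pA (m (g j))‖ *
          ‖1 - ((starRingEnd ℂ) ((1 - pA (m (g i))) / (1 + pA (m (g i)))) *
          ((1 - pA (m (g j))) / (1 + pA (m (g j)))) +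
          (starRingEnd ℂ) (2 * zA (m (g i)) / (1 + pA (m (g i)))) *
          (2 * zA (m (g j)) / (1 + pA (m (g j)))))‖ := by
        rw [hmi, kernel_eq (hU _) (hU _), kernel_factor, norm_mul, norm_mul, norm_mul, k3, k4]
      have k5 : ‖1 - ((starRingEnd ℂ) ((1 - pA (m (g i))) / (1 + pA (m (g i)))) *
          ((1 - pA (m (g j))) / (1 + pA (m (g j)))) +
          (starRingEnd ℂ) (2 * zA (m (g i)) / (1 + pA (m (g i)))) *
          (2 * zA (m (g j)) / (1 + pA (m (g j)))))‖ ≠ 0 := by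
        intro h0
        rw [h0, mul_zero] at e
        have := hpos ((g i)⁻¹ * g j)
        rw [e] at this
        norm_num at this
      rw [e, Real.log_mul (by positivity) k5, Real.log_mul (by positivity) k2,
        Real.log_mul (by norm_num) k1]
    have h3 : ∑ i, ∑ j, c i * c j * Real.log ‖PA (m ((g i)⁻¹ * g j))‖ =
        (∑ i, c i * (Real.log (1 / 2) + Real.log ‖1 + pA (m (g i))‖)) * (∑ j, c j) +
        (∑ i, c i) * (∑ j, c j * Real.log ‖1 + pA (m (g j))‖) +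
        ∑ i, ∑ j, c i * c j * Real.log ‖1 - ((starRingEnd ℂ) ((1 - pA (m (g i))) /
          (1 + pA (m (g i)))) * ((1 - pA (m (g j))) / (1 + pA (m (g j)))) +
          (starRingEnd ℂ) (2 * zA (m (g i)) / (1 + pA (m (g i)))) *
          (2 * zA (m (g j)) / (1 + pA (m (g j)))))‖ := by
      rw [sum_mul_sum, sum_mul_sum, ← sum_add_distrib, ← sum_add_distrib]
      refine sum_congr rfl fun i _ => ?_
      rw [← sum_add_distrib, ← sum_add_distrib]
      refine sum_congr rfl fun j _ => ?_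
      rw [h2]
      ring
    rw [h3, hc, mul_zero, zero_mul, zero_add, zero_add]
    exact h1
  · obtain ⟨M, hM⟩ : ∃ M, M = Real.exp R := ⟨_, rfl⟩
    have hM0 : 0 < M := hM ▸ Real.exp_pos R
    refine (hfin (1 + M + M * M)).subset fun g hg => ?_
    have h1 : ‖PA (m g)‖ ≤ M := by
      rw [← Real.exp_log (lt_of_lt_of_le one_pos (hpos g)), hM]
      exact Real.exp_le_exp.2 hg
    have h2 := (one_le_PA (m g)).trans h1
    have h3 : |2 * ct (m g)| ≤ M := by
      have := (Complex.abs_im_le_norm (PA (m g))).trans h1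
      exact this
    obtain ⟨u10, u20, u21, d0, d1, d2⟩ := hU g
    have r0 : |((m g 0 0 : ℚ) : ℝ)| = 1 := by
      have : ((m g 0 0 : ℚ) : ℝ) ^ 2 = 1 := by exact_mod_cast d0
      rw [← sq_abs] at this
      nlinarith [abs_nonneg ((m g 0 0 : ℚ) : ℝ)]
    have r1 : |((m g 1 1 : ℚ) : ℝ)| = 1 := by
      have : ((m g 1 1 : ℚ) : ℝ) ^ 2 = 1 := by exact_mod_cast d1
      rw [← sq_abs] at this
      nlinarith [abs_nonneg ((m g 1 1 : ℚ) : ℝ)]
    have r2 : |((m g 2 2 : ℚ) : ℝ)| = 1 := by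
      have : ((m g 2 2 : ℚ) : ℝ) ^ 2 = 1 := by exact_mod_cast d2
      rw [← sq_abs] at this
      nlinarith [abs_nonneg ((m g 2 2 : ℚ) : ℝ)]
    have ea : |((m g 0 1 : ℚ) : ℝ)| = |ca (m g)| := by
      unfold ca
      rw [Rat.cast_mul, abs_mul, r1, mul_one]
    have eb : |((m g 1 2 : ℚ) : ℝ)| = |cb (m g)| := by
      unfold cb
      rw [Rat.cast_mul, abs_mul, r2, mul_one]
    have ec : 2 * |((m g 0 2 : ℚ) : ℝ)| = |ct (m g) + ca (m g) * cb (m g)| := by
      have e1 : ct (m g) + ca (m g) * cb (m g) = 2 * (((m g 0 2 : ℚ) : ℝ) * ((m g 2 2 : ℚ) : ℝ)) := by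
        unfold ct ca cb
        push_cast
        ring
      rw [e1, abs_mul, abs_mul, r2, mul_one]
      norm_num
    have fa : |ca (m g)| ≤ M := by
      have := sq_abs (ca (m g))
      nlinarith [abs_nonneg (ca (m g)), sq_nonneg (cb (m g)), sq_nonneg (|ca (m g)| - 1)]
    have fb : |cb (m g)| ≤ M := by
      have := sq_abs (cb (m g))
      nlinarith [abs_nonneg (cb (m g)), sq_nonneg (ca (m g)), sq_nonneg (|cb (m g)| - 1)]
    have ft : |ct (m g)| ≤ M := by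
      rw [abs_mul] at h3
      norm_num at h3
      linarith [abs_nonneg (ct (m g))]
    have fc : |((m g 0 2 : ℚ) : ℝ)| ≤ M + M * M := by
      have e1 := abs_add_le (ct (m g)) (ca (m g) * cb (m g))
      rw [abs_mul] at e1
      have e2 : |ca (m g)| * |cb (m g)| ≤ M * M := mul_le_mul fa fb (abs_nonneg _) hM0.le
      have e3 : 0 ≤ M * M := by positivity
      linarith
    have hMM : 0 ≤ M * M := by positivity
    intro i j
    fin_cases i <;> fin_cases j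
    · change |((m g 0 0 : ℚ) : ℝ)| ≤ _
      rw [r0]
      linarith
    · change |((m g 0 1 : ℚ) : ℝ)| ≤ _
      rw [ea]
      linarith
    · change |((m g 0 2 : ℚ) : ℝ)| ≤ _
      linarith
    · change |((m g 1 0 : ℚ) : ℝ)| ≤ _
      rw [u10, Rat.cast_zero, abs_zero]
      linarith
    · change |((m g 1 1 : ℚ) : ℝ)| ≤ _
      rw [r1]
      linarith
    · change |((m g 1 2 : ℚ) : ℝ)| ≤ _
      rw [eb]
      linarith
    · change |((m g 2 0 : ℚ) : ℝ)| ≤ _
      rw [u20, Rat.cast_zero, abs_zero]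
      linarith
    · change |((m g 2 1 : ℚ) : ℝ)| ≤ _
      rw [u21, Rat.cast_zero, abs_zero]
      linarith
    · change |((m g 2 2 : ℚ) : ℝ)| ≤ _
      rw [r2]
      linarith

end Pool.Agent.Run7.h25.HA
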