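import Pool.Agent.Run7.h25.HA.Stb
import Pool.Agent.Run7.h25.TV.Plane

/-!
# Haagerup subgroups of `SL (3, ℤ)` with two transvections with the same axis
-/

set_option autoImplicit false

namespace Pool.Agent.Run7.h25.HA

open Matrix Pool.Agent.Run7.h25.TV Pool.Agent.Helper460_CSP

lemma haag_congr {Γ Γ' : Type} [Group Γ] [Group Γ'] (e : Γ ≃* Γ') (h : HasHaagerup Γ) :
    HasHaagerup Γ' := by
  obtain ⟨ψ, hψ, hp⟩ := h
  refine ⟨fun g => ψ (e.symm g), ⟨fun g => hψ.nonneg _, fun g => ?_, fun n g c hc => ?_⟩,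
    fun R => ?_⟩
  · simp only [map_inv, hψ.symm]
  · have := hψ.neg n (fun i => e.symm (g i)) c hc
    simpa only [map_mul, map_inv] using this
  · exact (hp R).preimage e.symm.injective.injOn

variable {H : Subgroup SL3}

/-- A vector as a rational vector. -/
def qv (v : Fin 3 → ℤ) : Fin 3 → ℚ := fun i => (v i : ℚ)

lemma qv_dot (v w : Fin 3 → ℤ) : qv v ⬝ᵥ qv w = ((v ⬝ᵥ w : ℤ) : ℚ) := by
  simp only [dotProduct, qv]
  push_cast
  rfl

lemma qv_zero {v : Fin 3 → ℤ} (h : qv v = 0) : v = 0 := by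
  funext i
  have := congrFun h i
  simp only [qv, Pi.zero_apply] at this
  exact_mod_cast this

lemma toQ_tv {g : SL3} {v φ : Fin 3 → ℤ} (h : mt g = 1 + vecMulVec v φ) :
    toQ g = 1 + vecMulVec (qv v) (qv φ) := by
  ext i j
  have h1 : g.1 = 1 + vecMulVec v φ := h
  unfold toQ
  rw [h1, Matrix.map_apply, Matrix.add_apply, Matrix.add_apply, vecMulVec_apply, vecMulVec_apply,
    Matrix.one_apply, Matrix.one_apply]
  simp only [qv]
  split_ifs <;> simp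

lemma cj_tv {x : M3} (hx : x.det ≠ 0) {g : SL3} {v φ : Fin 3 → ℤ}
    (h : mt g = 1 + vecMulVec v φ) {a b : Fin 3 → ℚ} (ha : x *ᵥ a = qv v)
    (hb : qv φ ᵥ* x = b) : cj x g = 1 + vecMulVec a b := by
  unfold cj
  rw [toQ_tv h, mul_add, add_mul, mul_one, xx' hx, mul_vecMulVec, vecMulVec_mul, ← ha, hb,
    mulVec_mulVec, xx' hx, one_mulVec]

/-- Two pairs of transvections with different axes. -/
theorem hor {φ φ' e1 e2 e3 : Fin 3 → ℤ} (T1 : Tr H e2 φ) (T2 : Tr H e1 φ) (T3 : Tr H e3 φ')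
    (T4 : Tr H e1 φ') (he1 : e1 ≠ 0) (h3 : φ ⬝ᵥ e3 ≠ 0) (h2 : φ' ⬝ᵥ e2 ≠ 0) :
    ¬ HasHaagerup H := by
  obtain ⟨x, hxd⟩ : ∃ x : M3, x = Matrix.of fun i => ![qv e2 i, qv e3 i, qv e1 i] := ⟨_, rfl⟩
  have hmul : ∀ c : Fin 3 → ℚ, x *ᵥ c = c 0 • qv e2 + c 1 • qv e3 + c 2 • qv e1 := by
    intro c
    ext i
    rw [hxd]
    simp [mulVec, dotProduct, Fin.sum_univ_three]
    ring
  have hφ : ∀ φ : Fin 3 → ℤ, qv φ ᵥ* x =
      ![((φ ⬝ᵥ e2 : ℤ) : ℚ), ((φ ⬝ᵥ e3 : ℤ) : ℚ), ((φ ⬝ᵥ e1 : ℤ) : ℚ)] := by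
    intro φ
    rw [← qv_dot, ← qv_dot, ← qv_dot, hxd]
    ext j
    fin_cases j <;> simp [vecMul, dotProduct, Fin.sum_univ_three]
  have hx : x.det ≠ 0 := by
    intro h0
    obtain ⟨c, hc, hxc⟩ := Matrix.exists_mulVec_eq_zero_iff.2 h0
    apply hc
    rw [hmul] at hxc
    have q1 := congrArg (fun z => qv φ ⬝ᵥ z) hxc
    have q2 := congrArg (fun z => qv φ' ⬝ᵥ z) hxc
    simp only [dotProduct_add, dotProduct_smul, qv_dot, T1.1, T2.1, dotProduct_zero, smul_eq_mul,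
      Int.cast_zero, mul_zero, zero_add, add_zero] at q1
    simp only [dotProduct_add, dotProduct_smul, qv_dot, T3.1, T4.1, dotProduct_zero, smul_eq_mul,
      Int.cast_zero, mul_zero, add_zero] at q2
    have c1 : c 1 = 0 := (mul_eq_zero.1 q1).resolve_right (by exact_mod_cast h3)
    have c0 : c 0 = 0 := (mul_eq_zero.1 q2).resolve_right (by exact_mod_cast h2)
    rw [c1, c0, zero_smul, zero_smul, zero_add, zero_add] at hxc
    have c2 : c 2 = 0 := (smul_eq_zero.1 hxc).resolve_right fun h => he1 (qv_zero h)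
    ext i
    fin_cases i
    · exact c0
    · exact c1
    · exact c2
  obtain ⟨z1, A, hA, hA'⟩ := T1
  obtain ⟨z2, v, hv, hv'⟩ := T2
  obtain ⟨z3, B, hB, hB'⟩ := T3
  obtain ⟨z4, u, hu, hu'⟩ := T4
  have k0 : x *ᵥ ![1, 0, 0] = qv e2 := by rw [hmul]; simp
  have k1 : x *ᵥ ![0, 1, 0] = qv e3 := by rw [hmul]; simp
  have k2 : x *ᵥ ![0, 0, 1] = qv e1 := by rw [hmul]; simp
  have hs : ((φ' ⬝ᵥ e2 : ℤ) : ℚ) ≠ 0 := by exact_mod_cast h2
  have ht : ((φ ⬝ᵥ e3 : ℤ) : ℚ) ≠ 0 := by exact_mod_cast h3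
  have hinj : Function.Injective (cjK hx H) := fun g h hgh => Subtype.ext (cj_inj hx hgh)
  refine config (m := cjK hx H) hinj (A := ⟨A, hA⟩) (B := ⟨B, hB⟩) (u := ⟨u, hu⟩) (v := ⟨v, hv⟩)
    hs ht hs ht ?_ ?_ ?_ ?_
  · change cj x A = _
    rw [cj_tv hx hA' k0 (hφ φ), z1, z2]
    ext i j
    rw [Matrix.add_apply, Matrix.one_apply, vecMulVec_apply]
    fin_cases i <;> fin_cases j <;> simp [e12]
  · change cj x B = _
    rw [cj_tv hx hB' k1 (hφ φ'), z3, z4]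
    ext i j
    rw [Matrix.add_apply, Matrix.one_apply, vecMulVec_apply]
    fin_cases i <;> fin_cases j <;> simp [e21]
  · change cj x u = _
    rw [cj_tv hx hu' k2 (hφ φ'), z3, z4]
    ext i j
    rw [Matrix.add_apply, Matrix.one_apply, vecMulVec_apply]
    fin_cases i <;> fin_cases j <;> simp [lo]
  · change cj x v = _
    rw [cj_tv hx hv' k2 (hφ φ), z1, z2]
    ext i j
    rw [Matrix.add_apply, Matrix.one_apply, vecMulVec_apply]
    fin_cases i <;> fin_cases j <;> simp [lo]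

/-- The cross product of two forms. -/
lemma par_cross {φ φ' a : Fin 3 → ℤ} (h1 : φ ⬝ᵥ a = 0) (h2 : φ' ⬝ᵥ a = 0) :
    Par ![φ 1 * φ' 2 - φ 2 * φ' 1, φ 2 * φ' 0 - φ 0 * φ' 2, φ 0 * φ' 1 - φ 1 * φ' 0] a := by
  simp only [dotProduct, Fin.sum_univ_three] at h1 h2
  have k01 : (φ 1 * φ' 2 - φ 2 * φ' 1) * a 1 = (φ 2 * φ' 0 - φ 0 * φ' 2) * a 0 := by
    linear_combination φ' 2 * h1 - φ 2 * h2
  have k12 : (φ 2 * φ' 0 - φ 0 * φ' 2) * a 2 = (φ 0 * φ' 1 - φ 1 * φ' 0) * a 1 := by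
    linear_combination φ' 0 * h1 - φ 0 * h2
  have k20 : (φ 0 * φ' 1 - φ 1 * φ' 0) * a 0 = (φ 1 * φ' 2 - φ 2 * φ' 1) * a 2 := by
    linear_combination φ' 1 * h1 - φ 1 * h2
  intro p q
  fin_cases p <;> fin_cases q
  · rfl
  · exact k01
  · exact k20.symm
  · exact k01.symm
  · rfl
  · exact k12
  · exact k20
  · exact k12.symm
  · rfl

lemma par_trans {c a b : Fin 3 → ℤ} (hc : c ≠ 0) (h1 : Par c a) (h2 : Par c b) : Par a b := by
  obtain ⟨r, hr⟩ := Function.ne_iff.1 hc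
  have hr' : c r ≠ 0 := hr
  intro p q
  have e1 := h1 r p
  have e2 := h1 r q
  have e3 := h2 r p
  have e4 := h2 r q
  have : (c r * c r) * (a p * b q - a q * b p) = 0 := by
    linear_combination (c r * b q) * e1 - (c r * b p) * e2 + (c p * a r) * e4 - (c q * a r) * e3
  have := (mul_eq_zero.1 this).resolve_left (mul_ne_zero hr' hr')
  linarith

/-- Two vectors in two different planes. -/
lemma par_of_two {φ φ' a b : Fin 3 → ℤ} (hp : ¬ Par φ φ') (h1 : φ ⬝ᵥ a = 0) (h2 : φ' ⬝ᵥ a = 0)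
    (h3 : φ ⬝ᵥ b = 0) (h4 : φ' ⬝ᵥ b = 0) : Par a b := by
  refine par_trans ?_ (par_cross h1 h2) (par_cross h3 h4)
  intro h0
  apply hp
  have c0 := congrFun h0 0
  have c1 := congrFun h0 1
  have c2 := congrFun h0 2
  simp at c0 c1 c2
  intro p q
  fin_cases p <;> fin_cases q
  · rfl
  · change φ 0 * φ' 1 = φ 1 * φ' 0
    linarith
  · change φ 0 * φ' 2 = φ 2 * φ' 0
    linarith
  · change φ 1 * φ' 0 = φ 0 * φ' 1
    linarith
  · rfl
  · change φ 1 * φ' 2 = φ 2 * φ' 1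
    linarith
  · change φ 2 * φ' 0 = φ 0 * φ' 2
    linarith
  · change φ 2 * φ' 1 = φ 1 * φ' 2
    linarith
  · rfl

/-- Two transvections with the same axis and different centres: the axis is preserved. -/
theorem axis {φ v y : Fin 3 → ℤ} (hK : HasHaagerup H) (hφ : φ ≠ 0) (T1 : Tr H v φ)
    (T2 : Tr H y φ) (hvy : ¬ Par v y) {k : SL3} (hk : k ∈ H) : Par φ (cv k φ) := by
  by_contra hcon
  -- work with the inverse of `k`
  obtain ⟨k', hk'⟩ : ∃ k', k' = k⁻¹ := ⟨_, rfl⟩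
  have hkm : k' ∈ H := hk' ▸ inv_mem hk
  have hcv : cv k'⁻¹ φ = cv k φ := by rw [hk', inv_inv]
  obtain ⟨φ', hφ'⟩ : ∃ φ', φ' = cv k φ := ⟨_, rfl⟩
  rw [← hφ'] at hcon hcv
  have T3 := T1.conj hkm
  have T4 := T2.conj hkm
  rw [hcv] at T3 T4
  -- the two vectors on the line
  obtain ⟨e, he⟩ : ∃ e, e = (φ' ⬝ᵥ y) • v + (-(φ' ⬝ᵥ v)) • y := ⟨_, rfl⟩
  obtain ⟨e', he'⟩ : ∃ e', e' = (φ ⬝ᵥ av k' y) • av k' v + (-(φ ⬝ᵥ av k' v)) • av k' y := ⟨_, rfl⟩
  have hcross : ∀ {a b : Fin 3 → ℤ} {θ : Fin 3 → ℤ}, θ ≠ 0 → ¬ Par a b → ∀ {η : Fin 3 → ℤ},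
      η ≠ 0 → θ ⬝ᵥ a = 0 → θ ⬝ᵥ b = 0 → η ⬝ᵥ a = 0 → η ⬝ᵥ b = 0 → Par θ η := by
    intro a b θ _ hab η _ h1 h2 h3 h4
    by_contra hn
    exact hab (par_of_two hn h1 h3 h2 h4)
  have hφ'0 : φ' ≠ 0 := hφ' ▸ cv_ne hφ
  have hTe : Tr H e φ := by
    rw [he]
    exact (T1.smulv _).addv (T2.smulv _)
  have hTe' : Tr H e' φ' := by
    rw [he']
    exact (T3.smulv _).addv (T4.smulv _)
  have hφ'e : φ' ⬝ᵥ e = 0 := by
    rw [he, dotProduct_add, dotProduct_smul, dotProduct_smul, smul_eq_mul, smul_eq_mul]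
    ring
  have hφe' : φ ⬝ᵥ e' = 0 := by
    rw [he', dotProduct_add, dotProduct_smul, dotProduct_smul, smul_eq_mul, smul_eq_mul]
    ring
  -- one of the centres is not on the other axis
  have h2 : ∃ e2, Tr H e2 φ ∧ φ' ⬝ᵥ e2 ≠ 0 := by
    by_cases h : φ' ⬝ᵥ v = 0
    · by_cases h' : φ' ⬝ᵥ y = 0
      · exact absurd (hcross hφ hvy hφ'0 T1.1 T2.1 h h') hcon
      · exact ⟨y, T2, h'⟩
    · exact ⟨v, T1, h⟩
  have hvy' : ¬ Par (av k' v) (av k' y) := by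
    intro hp
    apply hvy
    obtain ⟨r, hr⟩ := Function.ne_iff.1 (show av k' v ≠ 0 from av_ne (by
      rintro rfl
      apply hvy
      intro p q
      simp))
    have hr' : av k' v r ≠ 0 := hr
    have e1 := congrArg (av k'⁻¹) (hp.smul_eq r)
    rw [av_smul, av_smul, av_inv_av, av_inv_av] at e1
    intro p q
    have e2 := congrFun e1 p
    have e3 := congrFun e1 q
    simp only [Pi.smul_apply, smul_eq_mul] at e2 e3
    have : av k' v r * (v p * y q - v q * y p) = 0 := by linear_combination v p * e3 - v q * e2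
    have := (mul_eq_zero.1 this).resolve_left hr'
    linarith
  have h3 : ∃ e3, Tr H e3 φ' ∧ φ ⬝ᵥ e3 ≠ 0 := by
    by_cases h : φ ⬝ᵥ av k' v = 0
    · by_cases h' : φ ⬝ᵥ av k' y = 0
      · exact absurd (hcross hφ hvy' hφ'0 h h' T3.1 T4.1) hcon
      · exact ⟨_, T4, h'⟩
    · exact ⟨_, T3, h⟩
  have he0 : e ≠ 0 := by
    intro h0
    obtain ⟨e2, he2, hne⟩ := h2
    have : φ' ⬝ᵥ v ≠ 0 ∨ φ' ⬝ᵥ y ≠ 0 := by
      by_contra hc
      push Not at hc
      exact hcon (hcross hφ hvy hφ'0 T1.1 T2.1 hc.1 hc.2)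
    apply hvy
    intro p q
    have e4 := congrFun (he ▸ h0 : (φ' ⬝ᵥ y) • v + (-(φ' ⬝ᵥ v)) • y = 0) p
    have e5 := congrFun (he ▸ h0 : (φ' ⬝ᵥ y) • v + (-(φ' ⬝ᵥ v)) • y = 0) q
    simp only [Pi.add_apply, Pi.smul_apply, smul_eq_mul, Pi.zero_apply] at e4 e5
    rcases this with h | h
    · have : (φ' ⬝ᵥ v) * (v p * y q - v q * y p) = 0 := by linear_combination v q * e4 - v p * e5
      have := (mul_eq_zero.1 this).resolve_left h
      linarith
    · have : (φ' ⬝ᵥ y) * (v p * y q - v q * y p) = 0 := by linear_combination y q * e4 - y p * e5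
      have := (mul_eq_zero.1 this).resolve_left h
      linarith
  have he'0 : e' ≠ 0 := by
    intro h0
    have : φ ⬝ᵥ av k' v ≠ 0 ∨ φ ⬝ᵥ av k' y ≠ 0 := by
      by_contra hc
      push Not at hc
      exact hcon (hcross hφ hvy' hφ'0 hc.1 hc.2 T3.1 T4.1)
    apply hvy'
    intro p q
    have e4 := congrFun (he' ▸ h0 : (φ ⬝ᵥ av k' y) • av k' v + (-(φ ⬝ᵥ av k' v)) • av k' y = 0) p
    have e5 := congrFun (he' ▸ h0 : (φ ⬝ᵥ av k' y) • av k' v + (-(φ ⬝ᵥ av k' v)) • av k' y = 0) q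
    simp only [Pi.add_apply, Pi.smul_apply, smul_eq_mul, Pi.zero_apply] at e4 e5
    rcases this with h | h
    · have : (φ ⬝ᵥ av k' v) * (av k' v p * av k' y q - av k' v q * av k' y p) = 0 := by
        linear_combination av k' v q * e4 - av k' v p * e5
      have := (mul_eq_zero.1 this).resolve_left h
      linarith
    · have : (φ ⬝ᵥ av k' y) * (av k' v p * av k' y q - av k' v q * av k' y p) = 0 := by
        linear_combination av k' y q * e4 - av k' y p * e5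
      have := (mul_eq_zero.1 this).resolve_left h
      linarith
  have hpar : Par e e' := par_of_two hcon hTe.1 hφ'e hφe' hTe'.1
  obtain ⟨r, hr⟩ := Function.ne_iff.1 he0
  have hr' : e r ≠ 0 := hr
  have heq := hpar.smul_eq r
  have her' : e' r ≠ 0 := by
    intro h0
    rw [h0, zero_smul] at heq
    exact he'0 ((smul_eq_zero.1 heq).resolve_left hr')
  have T5 : Tr H (e' r • e) φ := hTe.smulv _
  have T6 : Tr H (e' r • e) φ' := by
    rw [← heq]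
    exact hTe'.smulv _
  obtain ⟨e2, he2, hne2⟩ := h2
  obtain ⟨e3, he3, hne3⟩ := h3
  exact hor he2 T5 he3 T6 (smul_ne_zero her' he0) hne3 hne2 hK

end Pool.Agent.Run7.h25.HA
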