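import Pool.Agent.Run7.h25.HA.Pol

/-!
# Symmetric trigonometric polynomials
-/

set_option autoImplicit false

namespace Pool.Agent.Run7.h25.HA

open Finset
open scoped InnerProductSpace

variable {E : Type} [SeminormedAddCommGroup E] [InnerProductSpace ℂ E]
  {U V : E ≃ₗᵢ[ℂ] E} {h : Commute U V}

/-- Symmetric operators with real symbol. -/
structure Nice (U V : E ≃ₗᵢ[ℂ] E) (h : Commute U V) (p : LL) : Prop where
  sym : ∀ η ζ, ⟪op U V h p η, ζ⟫_ℂ = ⟪η, op U V h p ζ⟫_ℂ
  real : ∀ z w : Circle, (ev z w p).im = 0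

namespace Nice

variable {p q : LL}

lemma add (hp : Nice U V h p) (hq : Nice U V h q) : Nice U V h (p + q) where
  sym η ζ := by
    rw [map_add, LinearMap.add_apply, LinearMap.add_apply, inner_add_left, inner_add_right,
      hp.sym, hq.sym]
  real z w := by rw [map_add, Complex.add_im, hp.real, hq.real, add_zero]

lemma sub (hp : Nice U V h p) (hq : Nice U V h q) : Nice U V h (p - q) where
  sym η ζ := by
    rw [map_sub, LinearMap.sub_apply, LinearMap.sub_apply, inner_sub_left, inner_sub_right,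
      hp.sym, hq.sym]
  real z w := by rw [map_sub, Complex.sub_im, hp.real, hq.real, sub_zero]

lemma mul (hp : Nice U V h p) (hq : Nice U V h q) : Nice U V h (p * q) where
  sym η ζ := by
    rw [map_mul, Module.End.mul_apply, hp.sym, hq.sym, ← Module.End.mul_apply, ← map_mul,
      mul_comm q p, map_mul]
  real z w := by rw [map_mul, Complex.mul_im, hp.real, hq.real, mul_zero, zero_mul, add_zero]

lemma smul (r : ℝ) (hp : Nice U V h p) : Nice U V h ((r : ℂ) • p) where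
  sym η ζ := by
    rw [map_smul, LinearMap.smul_apply, LinearMap.smul_apply, inner_smul_left, inner_smul_right,
      hp.sym, Complex.conj_ofReal]
  real z w := by
    rw [map_smul, smul_eq_mul, Complex.mul_im, hp.real, Complex.ofReal_im, mul_zero, zero_mul,
      add_zero]

lemma one : Nice U V h 1 where
  sym η ζ := by rw [map_one, Module.End.one_apply, Module.End.one_apply]
  real z w := by rw [map_one, Complex.one_im]

lemma zero : Nice U V h 0 where
  sym η ζ := by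
    rw [map_zero, LinearMap.zero_apply, LinearMap.zero_apply, inner_zero_left, inner_zero_right]
  real z w := by rw [map_zero, Complex.zero_im]

lemma pow (hp : Nice U V h p) (n : ℕ) : Nice U V h (p ^ n) := by
  induction n with
  | zero => rw [pow_zero]; exact one
  | succ n ih => rw [pow_succ]; exact ih.mul hp

lemma sum {κ : Type} (s : Finset κ) {f : κ → LL} (hf : ∀ k ∈ s, Nice U V h (f k)) :
    Nice U V h (∑ k ∈ s, f k) := by
  classical
  induction s using Finset.induction_on with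
  | empty => rw [sum_empty]; exact zero
  | insert a s ha ih =>
    rw [sum_insert ha]
    exact (hf a (mem_insert_self _ _)).add (ih fun k hk => hf k (mem_insert_of_mem hk))

/-- Bounded symbol, bounded operator. -/
theorem norm_le (hp : Nice U V h p) (hb : ∀ z w : Circle, |(ev z w p).re| ≤ 1) (ζ : E) :
    ‖op U V h p ζ‖ ≤ ‖ζ‖ := by
  have h1 := pos_of h (1 - p * p) (fun z w => by
    rw [map_sub, map_one, map_mul, Complex.sub_re, Complex.one_re, Complex.mul_re, hp.real,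
      mul_zero, sub_zero]
    have := abs_le.1 (hb z w)
    nlinarith) ζ
  rw [map_sub, map_one, map_mul, LinearMap.sub_apply, Module.End.one_apply, Module.End.mul_apply,
    inner_sub_right, ← hp.sym, Complex.sub_re] at h1
  have h2 : (⟪ζ, ζ⟫_ℂ).re = ‖ζ‖ ^ 2 := by
    have := inner_self_eq_norm_sq (𝕜 := ℂ) ζ
    simpa using this
  have h3 : (⟪op U V h p ζ, op U V h p ζ⟫_ℂ).re = ‖op U V h p ζ‖ ^ 2 := by
    have := inner_self_eq_norm_sq (𝕜 := ℂ) (op U V h p ζ)
    simpa using this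
  rw [h2, h3] at h1
  exact (sq_le_sq₀ (norm_nonneg _) (norm_nonneg _)).1 (by linarith)

end Nice

/-- The operator `W` intertwines the operators of `p` and `q`. -/
def Int' (U V : E ≃ₗᵢ[ℂ] E) (h : Commute U V) (W : E ≃ₗᵢ[ℂ] E) (p q : LL) : Prop :=
  ∀ ζ, op U V h q (W ζ) = W (op U V h p ζ)

namespace Int'

variable {W : E ≃ₗᵢ[ℂ] E} {p q p' q' : LL}

lemma add (h1 : Int' U V h W p q) (h2 : Int' U V h W p' q') : Int' U V h W (p + p') (q + q') := by
  intro ζ
  rw [map_add, map_add, LinearMap.add_apply, LinearMap.add_apply, h1, h2, map_add]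

lemma sub (h1 : Int' U V h W p q) (h2 : Int' U V h W p' q') : Int' U V h W (p - p') (q - q') := by
  intro ζ
  rw [map_sub, map_sub, LinearMap.sub_apply, LinearMap.sub_apply, h1, h2, map_sub]

lemma mul (h1 : Int' U V h W p q) (h2 : Int' U V h W p' q') : Int' U V h W (p * p') (q * q') := by
  intro ζ
  rw [map_mul, map_mul, Module.End.mul_apply, Module.End.mul_apply, h2, h1]

lemma smul (c : ℂ) (h1 : Int' U V h W p q) : Int' U V h W (c • p) (c • q) := by
  intro ζ
  rw [map_smul, map_smul, LinearMap.smul_apply, LinearMap.smul_apply, h1, map_smul]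

lemma one : Int' U V h W 1 1 := by
  intro ζ
  rw [map_one, Module.End.one_apply, Module.End.one_apply]

lemma zero : Int' U V h W 0 0 := by
  intro ζ
  rw [map_zero, LinearMap.zero_apply, LinearMap.zero_apply, map_zero]

lemma pow (h1 : Int' U V h W p q) (n : ℕ) : Int' U V h W (p ^ n) (q ^ n) := by
  induction n with
  | zero => rw [pow_zero, pow_zero]; exact one
  | succ n ih => rw [pow_succ, pow_succ]; exact ih.mul h1

lemma sum {κ : Type} (s : Finset κ) {f g : κ → LL} (hf : ∀ k ∈ s, Int' U V h W (f k) (g k)) :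
    Int' U V h W (∑ k ∈ s, f k) (∑ k ∈ s, g k) := by
  classical
  induction s using Finset.induction_on with
  | empty => rw [sum_empty, sum_empty]; exact zero
  | insert a s ha ih =>
    rw [sum_insert ha, sum_insert ha]
    exact (hf a (mem_insert_self _ _)).add (ih fun k hk => hf k (mem_insert_of_mem hk))

/-- Almost invariant vectors. -/
theorem almost (h1 : Int' U V h W p q) (hq : Nice U V h q)
    (hb : ∀ z w : Circle, |(ev z w q).re| ≤ 1) {ξ : E} (hξ : ‖ξ‖ = 1) {ε : ℝ}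
    (hW : ‖W ξ - ξ‖ ≤ ε) :
    (⟪ξ, op U V h p ξ⟫_ℂ).re - 2 * ε ≤ (⟪ξ, op U V h q ξ⟫_ℂ).re := by
  have e1 : ⟪ξ, op U V h p ξ⟫_ℂ = ⟪W ξ, op U V h q (W ξ)⟫_ℂ := by
    rw [h1, LinearIsometryEquiv.inner_map_map]
  have e2 : ⟪W ξ, op U V h q (W ξ)⟫_ℂ - ⟪ξ, op U V h q ξ⟫_ℂ =
      ⟪W ξ - ξ, op U V h q (W ξ)⟫_ℂ + ⟪ξ, op U V h q (W ξ - ξ)⟫_ℂ := by
    rw [map_sub, inner_sub_left, inner_sub_right]
    ring
  have e3 : ‖⟪W ξ - ξ, op U V h q (W ξ)⟫_ℂ‖ ≤ ε := by
    refine (norm_inner_le_norm _ _).trans ?_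
    have := hq.norm_le hb (W ξ)
    rw [LinearIsometryEquiv.norm_map, hξ] at this
    calc ‖W ξ - ξ‖ * ‖op U V h q (W ξ)‖ ≤ ε * 1 :=
          mul_le_mul hW this (norm_nonneg _) ((norm_nonneg _).trans hW)
      _ = ε := mul_one _
  have e4 : ‖⟪ξ, op U V h q (W ξ - ξ)⟫_ℂ‖ ≤ ε := by
    refine (norm_inner_le_norm _ _).trans ?_
    have := hq.norm_le hb (W ξ - ξ)
    rw [hξ, one_mul]
    exact this.trans hW
  have e5 := (Complex.abs_re_le_norm _).trans e3
  have e6 := (Complex.abs_re_le_norm _).trans e4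
  have e7 := congrArg Complex.re e2
  rw [Complex.sub_re, Complex.add_re, ← e1] at e7
  have e8 := abs_le.1 e5
  have e9 := abs_le.1 e6
  linarith

end Int'

/-- Monomials. -/
noncomputable def mu (a b : ℤ) : LL := AddMonoidAlgebra.single (a, b) 1

lemma op_mu (a b : ℤ) (ζ : E) : op U V h (mu a b) ζ = (U ^ a) ((V ^ b) ζ) := by
  unfold op mu
  rw [AddMonoidAlgebra.lift_single, one_smul]
  rfl

lemma ev_mu (z w : Circle) (a b : ℤ) : ev z w (mu a b) = ((z ^ a * w ^ b : Circle) : ℂ) := by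
  unfold ev mu
  rw [AddMonoidAlgebra.lift_single, one_smul]
  rfl

/-- The element `2 - m - m⁻¹` for a monomial `m`. -/
noncomputable def del (a b : ℤ) : LL := (2 : ℂ) • (1 : LL) - (mu a b + mu (-a) (-b))

lemma nice_del (a b : ℤ) : Nice U V h (del a b) := by
  have h1 : Nice U V h (mu a b + mu (-a) (-b)) := by
    constructor
    · intro η ζ
      rw [map_add, LinearMap.add_apply, LinearMap.add_apply, op_mu, op_mu, op_mu, op_mu,
        inner_add_left, inner_add_right]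
      have k : ∀ (c d : ℤ) (η ζ : E), ⟪(U ^ c) ((V ^ d) η), ζ⟫_ℂ =
          ⟪η, (U ^ (-c)) ((V ^ (-d)) ζ)⟫_ℂ := by
        intro c d η ζ
        rw [← inner_zpow (U ^ c * V ^ d) 1 η, zpow_one]
        congr 1
        have : (U ^ c * V ^ d) * (U ^ (-c) * V ^ (-d)) = 1 := by
          rw [zpow_neg, zpow_neg, mul_assoc, ← mul_assoc (V ^ d),
            ((h.zpow_zpow c d).inv_left).eq.symm]
          group
        exact (congrArg (fun A : E ≃ₗᵢ[ℂ] E => A ζ) this).symm
      rw [k, k, neg_neg, neg_neg, add_comm]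
    · intro z w
      rw [map_add, ev_mu, ev_mu]
      have : (z ^ (-a) * w ^ (-b) : Circle) = (z ^ a * w ^ b)⁻¹ := by
        rw [zpow_neg, zpow_neg, mul_inv]
      rw [this, Circle.coe_inv_eq_conj, Complex.add_im, Complex.conj_im, add_neg_cancel]
  have h2 := (Nice.one (U := U) (V := V) (h := h)).smul 2
  exact h2.sub h1

lemma ev_del (z w : Circle) (a b : ℤ) :
    ev z w (del a b) = ((‖1 - ((z ^ a * w ^ b : Circle) : ℂ)‖ ^ 2 : ℝ) : ℂ) := by
  unfold del
  rw [map_sub, map_smul, map_one, map_add, ev_mu, ev_mu]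
  have : (z ^ (-a) * w ^ (-b) : Circle) = (z ^ a * w ^ b)⁻¹ := by
    rw [zpow_neg, zpow_neg, mul_inv]
  rw [this, Circle.coe_inv_eq_conj]
  obtain ⟨c, hc⟩ : ∃ c : Circle, c = z ^ a * w ^ b := ⟨_, rfl⟩
  rw [← hc, ← Complex.normSq_eq_norm_sq, ← Complex.mul_conj, map_sub, map_one]
  have h1 : (c : ℂ) * (starRingEnd ℂ) (c : ℂ) = 1 := by
    rw [Complex.mul_conj, Circle.normSq_coe]
    simp
  rw [smul_eq_mul]
  linear_combination -h1

lemma re_del (ξ : E) (a b : ℤ) :
    (⟪ξ, op U V h (del a b) ξ⟫_ℂ).re = ‖(U ^ a) ((V ^ b) ξ) - ξ‖ ^ 2 := by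
  have h0 := inner_self_eq_norm_sq (𝕜 := ℂ) ((U ^ a) ((V ^ b) ξ) - ξ)
  have h1 : ‖(U ^ a) ((V ^ b) ξ) - ξ‖ ^ 2 =
      (⟪(U ^ a) ((V ^ b) ξ) - ξ, (U ^ a) ((V ^ b) ξ) - ξ⟫_ℂ).re := by
    simpa using h0.symm
  rw [h1]
  unfold del
  rw [map_sub, map_smul, map_one, map_add, LinearMap.sub_apply, LinearMap.smul_apply,
    Module.End.one_apply, LinearMap.add_apply, op_mu, op_mu, inner_sub_right, inner_smul_right,
    inner_add_right, inner_sub_left, inner_sub_right, inner_sub_right]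
  have e1 : ⟪(U ^ a) ((V ^ b) ξ), (U ^ a) ((V ^ b) ξ)⟫_ℂ = ⟪ξ, ξ⟫_ℂ := by
    rw [inner_zpow, inner_zpow]
  have e2 : ⟪ξ, (U ^ (-a)) ((V ^ (-b)) ξ)⟫_ℂ = ⟪(U ^ a) ((V ^ b) ξ), ξ⟫_ℂ := by
    rw [← inner_zpow (U ^ a * V ^ b) 1 ξ, zpow_one]
    congr 1
    have : (U ^ a * V ^ b) * (U ^ (-a) * V ^ (-b)) = 1 := by
      rw [zpow_neg, zpow_neg, mul_assoc, ← mul_assoc (V ^ b),
        ((h.zpow_zpow a b).inv_left).eq.symm]
      group
    exact congrArg (fun A : E ≃ₗᵢ[ℂ] E => A ξ) this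
  rw [e1, e2]
  simp only [Complex.sub_re, Complex.add_re, Complex.mul_re]
  norm_num
  ring

lemma int_del {W : E ≃ₗᵢ[ℂ] E} {a b c d : ℤ}
    (hW : (U ^ c * V ^ d) * W = W * (U ^ a * V ^ b)) : Int' U V h W (del a b) (del c d) := by
  have k : ∀ {a b c d : ℤ}, (U ^ c * V ^ d) * W = W * (U ^ a * V ^ b) →
      Int' U V h W (mu a b) (mu c d) := by
    intro a b c d hW ζ
    rw [op_mu, op_mu]
    exact congrArg (fun A : E ≃ₗᵢ[ℂ] E => A ζ) hW
  have h2 : (U ^ (-c) * V ^ (-d)) * W = W * (U ^ (-a) * V ^ (-b)) := by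
    have e1 : ∀ a b : ℤ, (U ^ (-a) * V ^ (-b)) = (U ^ a * V ^ b)⁻¹ := by
      intro a b
      rw [mul_inv_rev, zpow_neg, zpow_neg, ← zpow_neg, ← zpow_neg]
      exact (h.zpow_zpow _ _).eq
    rw [e1, e1, inv_mul_eq_iff_eq_mul, ← mul_assoc, hW, mul_assoc, mul_inv_cancel, mul_one]
  exact (Int'.one.smul _).sub ((k hW).add (k h2))

end Pool.Agent.Run7.h25.HA
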