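import Pool.Agent.Run7.h25.HA.Fej

/-!
# Trigonometric polynomials in two commuting unitary operators
-/

set_option autoImplicit false

namespace Pool.Agent.Run7.h25.HA

open Finset
open scoped InnerProductSpace

/-- Trigonometric polynomials. -/
abbrev LL : Type := AddMonoidAlgebra ℂ (ℤ × ℤ)

variable {E : Type} [SeminormedAddCommGroup E] [InnerProductSpace ℂ E]

/-- The operators `U ^ a V ^ b`. -/
noncomputable def mon (U V : E ≃ₗᵢ[ℂ] E) (h : Commute U V) :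
    Multiplicative (ℤ × ℤ) →* (E →ₗ[ℂ] E) where
  toFun x := ((U ^ x.toAdd.1 * V ^ x.toAdd.2 : E ≃ₗᵢ[ℂ] E).toLinearEquiv : E →ₗ[ℂ] E)
  map_one' := by
    ext y
    simp
  map_mul' x y := by
    have h1 : (U ^ (x * y).toAdd.1 * V ^ (x * y).toAdd.2 : E ≃ₗᵢ[ℂ] E) =
        (U ^ x.toAdd.1 * V ^ x.toAdd.2) * (U ^ y.toAdd.1 * V ^ y.toAdd.2) := by
      rw [toAdd_mul, Prod.fst_add, Prod.snd_add, zpow_add, zpow_add, mul_assoc, mul_assoc]
      congr 1
      rw [← mul_assoc, ← mul_assoc, (h.zpow_zpow y.toAdd.1 x.toAdd.2).eq]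
    rw [h1]
    rfl

/-- The operator of a trigonometric polynomial. -/
noncomputable def op (U V : E ≃ₗᵢ[ℂ] E) (h : Commute U V) : LL →ₐ[ℂ] (E →ₗ[ℂ] E) :=
  AddMonoidAlgebra.lift ℂ (E →ₗ[ℂ] E) (ℤ × ℤ) (mon U V h)

/-- The monomials as functions on the torus. -/
noncomputable def evm (z w : Circle) : Multiplicative (ℤ × ℤ) →* ℂ where
  toFun x := ((z ^ x.toAdd.1 * w ^ x.toAdd.2 : Circle) : ℂ)
  map_one' := by simp
  map_mul' x y := by
    rw [← Circle.coe_mul, toAdd_mul, Prod.fst_add, Prod.snd_add, zpow_add, zpow_add]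
    congr 1
    exact mul_mul_mul_comm _ _ _ _

/-- The value of a trigonometric polynomial. -/
noncomputable def ev (z w : Circle) : LL →ₐ[ℂ] ℂ :=
  AddMonoidAlgebra.lift ℂ ℂ (ℤ × ℤ) (evm z w)

lemma op_apply (U V : E ≃ₗᵢ[ℂ] E) (h : Commute U V) (p : LL) (ζ : E) :
    op U V h p ζ = ∑ x ∈ p.coeff.support, p.coeff x • (U ^ x.1) ((V ^ x.2) ζ) := by
  unfold op
  rw [AddMonoidAlgebra.lift_apply, Finsupp.sum, LinearMap.sum_apply]
  rfl

lemma ev_apply (z w : Circle) (p : LL) :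
    ev z w p = ∑ x ∈ p.coeff.support, p.coeff x * ((z : ℂ) ^ x.1 * (w : ℂ) ^ x.2) := by
  unfold ev
  rw [AddMonoidAlgebra.lift_apply, Finsupp.sum]
  refine sum_congr rfl fun x _ => ?_
  rw [smul_eq_mul]
  congr 1

/-- Positive trigonometric polynomials give positive operators. -/
theorem pos_of {U V : E ≃ₗᵢ[ℂ] E} (h : Commute U V) (p : LL)
    (hp : ∀ z w : Circle, 0 ≤ (ev z w p).re) (ζ : E) : 0 ≤ (⟪ζ, op U V h p ζ⟫_ℂ).re := by
  have h0 := fejer p.coeff.support (fun x => x.1) U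
    (fun x => p.coeff x • ((V ^ x.2 : E ≃ₗᵢ[ℂ] E).toLinearEquiv : E →ₗ[ℂ] E)) ?_ ?_ ζ
  · rw [op_apply]
    convert h0 using 4 with x _
    change p.coeff x • (U ^ x.1) ((V ^ x.2) ζ) = p.coeff x • (V ^ x.2) ((U ^ x.1) ζ)
    congr 1
    exact congrArg (fun A : E ≃ₗᵢ[ℂ] E => A ζ) (h.zpow_zpow x.1 x.2).eq
  · intro x _ j η
    change p.coeff x • (V ^ x.2) ((U ^ j) η) = (U ^ j) (p.coeff x • (V ^ x.2) η)
    rw [map_smul]
    congr 1
    exact congrArg (fun A : E ≃ₗᵢ[ℂ] E => A η) (h.zpow_zpow j x.2).eq.symm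
  · intro z hz η
    have h1 := fejer p.coeff.support (fun x => x.2) V
      (fun x => (p.coeff x * z ^ x.1) • (LinearMap.id : E →ₗ[ℂ] E)) ?_ ?_ η
    · convert h1 using 4 with x _
      change z ^ x.1 • p.coeff x • (V ^ x.2) η = (p.coeff x * z ^ x.1) • (V ^ x.2) η
      rw [smul_smul, mul_comm]
    · intro x _ j θ
      simp only [LinearMap.smul_apply, LinearMap.id_apply, map_smul]
    · intro w hw θ
      simp only [LinearMap.smul_apply, LinearMap.id_apply, smul_smul]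
      rw [← sum_smul, inner_smul_right, inner_self_eq_norm_sq_to_K]
      obtain ⟨z', rfl⟩ : ∃ z' : Circle, (z' : ℂ) = z :=
        ⟨⟨z, mem_sphere_zero_iff_norm.2 hz⟩, rfl⟩
      obtain ⟨w', rfl⟩ : ∃ w' : Circle, (w' : ℂ) = w :=
        ⟨⟨w, mem_sphere_zero_iff_norm.2 hw⟩, rfl⟩
      have h2 := hp z' w'
      rw [ev_apply] at h2
      have h3 : ∑ x ∈ p.coeff.support, (w' : ℂ) ^ x.2 * (p.coeff x * (z' : ℂ) ^ x.1) =
          ∑ x ∈ p.coeff.support, p.coeff x * ((z' : ℂ) ^ x.1 * (w' : ℂ) ^ x.2) :=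
        sum_congr rfl fun x _ => by ring
      rw [h3, mul_comm]
      have h4 : ((‖θ‖ : ℂ) ^ 2 : ℂ) = ((‖θ‖ ^ 2 : ℝ) : ℂ) := by push_cast; rfl
      rw [show ((RCLike.ofReal ‖θ‖ : ℂ)) ^ 2 = ((‖θ‖ ^ 2 : ℝ) : ℂ) from h4, Complex.re_ofReal_mul]
      exact mul_nonneg (by positivity) h2

end Pool.Agent.Run7.h25.HA
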