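import Pool.Agent.Run7.h25.HA.Nice

/-!
# Relative property (T)
-/

set_option autoImplicit false

namespace Pool.Agent.Run7.h25.HA

open Finset
open scoped InnerProductSpace

section real

/-- The function `∑ (8 - T) ^ k / (8 + δ) ^ (k + 1)`. -/
noncomputable def Rr (δ : ℝ) (K : ℕ) (T : ℝ) : ℝ := ∑ k ∈ range K, ((8 + δ)⁻¹ ^ (k + 1)) * (8 - T) ^ k

lemma Rr_eq {δ : ℝ} (hδ : 0 < δ) (K : ℕ) (T : ℝ) :
    (T + δ) * Rr δ K T = 1 - ((8 - T) / (8 + δ)) ^ K := by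
  have h0 : (8 + δ) ≠ 0 := by positivity
  have h1 : (T + δ) = (8 + δ) * (1 - (8 - T) / (8 + δ)) := by
    field_simp
    ring
  have h2 : (8 + δ) * Rr δ K T = ∑ k ∈ range K, ((8 - T) / (8 + δ)) ^ k := by
    unfold Rr
    rw [mul_sum]
    refine sum_congr rfl fun k _ => ?_
    rw [pow_succ, div_eq_mul_inv, mul_pow]
    field_simp
  have h3 := mul_neg_geom_sum ((8 - T) / (8 + δ)) K
  calc (T + δ) * Rr δ K T = (1 - (8 - T) / (8 + δ)) * ((8 + δ) * Rr δ K T) := by rw [h1]; ring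
    _ = _ := by rw [h2, h3]

lemma Rr_nonneg {δ : ℝ} (hδ : 0 < δ) (K : ℕ) {T : ℝ} (hT : T ≤ 8) : 0 ≤ Rr δ K T := by
  unfold Rr
  refine sum_nonneg fun k _ => mul_nonneg (by positivity) (pow_nonneg (by linarith) _)

lemma ratio_nonneg {δ : ℝ} (hδ : 0 < δ) {T : ℝ} (hT : T ≤ 8) : 0 ≤ (8 - T) / (8 + δ) :=
  div_nonneg (by linarith) (by linarith)

lemma ratio_le {δ : ℝ} (hδ : 0 < δ) {T : ℝ} (hT : 0 ≤ T) : (8 - T) / (8 + δ) ≤ 8 / (8 + δ) :=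
  div_le_div_of_nonneg_right (by linarith) (by linarith)

/-- `y R (T) ≤ c` if `y ≤ c (T + δ)`. -/
lemma mul_Rr_le {δ : ℝ} (hδ : 0 < δ) (K : ℕ) {T y c : ℝ} (hT : T ≤ 8)
    (hc : 0 ≤ c) (h : y ≤ c * (T + δ)) : y * Rr δ K T ≤ c := by
  have h1 := Rr_eq hδ K T
  have h2 := Rr_nonneg hδ K hT
  have h3 : 0 ≤ ((8 - T) / (8 + δ)) ^ K := pow_nonneg (ratio_nonneg hδ hT) _
  have h4 : y * Rr δ K T ≤ c * (T + δ) * Rr δ K T := mul_le_mul_of_nonneg_right h h2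
  have h5 : c * (T + δ) * Rr δ K T ≤ c * 1 := by
    rw [mul_assoc]
    exact mul_le_mul_of_nonneg_left (by linarith) hc
  linarith

end real

section circle

lemma norm_one_sub_le (z : Circle) : ‖1 - (z : ℂ)‖ ≤ 2 := by
  calc ‖1 - (z : ℂ)‖ ≤ ‖(1 : ℂ)‖ + ‖(z : ℂ)‖ := norm_sub_le _ _
    _ = 2 := by rw [Circle.norm_coe, norm_one]; norm_num

lemma norm_one_sub_pow_le (z : Circle) (n : ℕ) :
    ‖1 - ((z ^ n : Circle) : ℂ)‖ ≤ n * ‖1 - (z : ℂ)‖ := by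
  induction n with
  | zero => simp
  | succ n ih =>
    have h1 : (1 : ℂ) - ((z ^ (n + 1) : Circle) : ℂ) =
        (1 - ((z ^ n : Circle) : ℂ)) + ((z ^ n : Circle) : ℂ) * (1 - (z : ℂ)) := by
      rw [pow_succ, Circle.coe_mul]
      ring
    rw [h1]
    refine (norm_add_le _ _).trans ?_
    rw [norm_mul, Circle.norm_coe, one_mul, Nat.cast_add, Nat.cast_one]
    linarith

lemma norm_sum_pow_ge (z : Circle) (n : ℕ) :
    (n : ℝ) - n ^ 2 * ‖1 - (z : ℂ)‖ ≤ ‖∑ i ∈ range n, ((z ^ i : Circle) : ℂ)‖ := by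
  have h1 : (n : ℂ) = ∑ i ∈ range n, ((z ^ i : Circle) : ℂ) +
      ∑ i ∈ range n, (1 - ((z ^ i : Circle) : ℂ)) := by
    rw [← sum_add_distrib]
    simp
  have h2 : ‖∑ i ∈ range n, (1 - ((z ^ i : Circle) : ℂ))‖ ≤ n ^ 2 * ‖1 - (z : ℂ)‖ := by
    refine (norm_sum_le _ _).trans ?_
    have : ∀ i ∈ range n, ‖1 - ((z ^ i : Circle) : ℂ)‖ ≤ n * ‖1 - (z : ℂ)‖ := by
      intro i hi
      refine (norm_one_sub_pow_le z i).trans (mul_le_mul_of_nonneg_right ?_ (norm_nonneg _))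
      exact_mod_cast (mem_range.1 hi).le
    refine (sum_le_card_nsmul _ _ _ this).trans ?_
    rw [card_range, nsmul_eq_mul]
    exact le_of_eq (by ring)
  have h3 : (n : ℝ) = ‖(n : ℂ)‖ := by simp
  have h4 : ‖(n : ℂ)‖ ≤ ‖∑ i ∈ range n, ((z ^ i : Circle) : ℂ)‖ +
      ‖∑ i ∈ range n, (1 - ((z ^ i : Circle) : ℂ))‖ := by
    conv_lhs => rw [h1]
    exact norm_add_le _ _
  linarith

lemma norm_one_sub_pow_ge (z : Circle) (n : ℕ) :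
    ‖1 - (z : ℂ)‖ * (n - n ^ 2 * ‖1 - (z : ℂ)‖) ≤ ‖1 - ((z ^ n : Circle) : ℂ)‖ := by
  have h1 : (1 : ℂ) - ((z ^ n : Circle) : ℂ) = (1 - (z : ℂ)) * ∑ i ∈ range n, ((z ^ i : Circle) : ℂ) := by
    have := mul_neg_geom_sum (z : ℂ) n
    simp only [Circle.coe_pow]
    exact this.symm
  rw [h1, norm_mul]
  exact mul_le_mul_of_nonneg_left (norm_sum_pow_ge z n) (norm_nonneg _)

/-- Two of the points cannot be close. -/
lemma sep {z w : Circle} {m d n : ℕ} (hd : 7 ≤ d) (hdn : d ≤ n)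
    (hw : ‖1 - (w : ℂ)‖ * n ^ 2 ≤ 1) :
    9 * ‖1 - (w : ℂ)‖ ^ 2 ≤ ‖1 - ((z * w ^ m : Circle) : ℂ)‖ ^ 2 ∨
      9 * ‖1 - (w : ℂ)‖ ^ 2 ≤ ‖1 - ((z * w ^ (m + d) : Circle) : ℂ)‖ ^ 2 := by
  obtain ⟨b, hb⟩ : ∃ b, b = ‖1 - (w : ℂ)‖ := ⟨_, rfl⟩
  have hb0 : 0 ≤ b := hb ▸ norm_nonneg _
  rw [← hb] at hw ⊢
  have h1 := norm_one_sub_pow_ge w d
  rw [← hb] at h1
  have h2 : b * (d : ℝ) ^ 2 ≤ 1 := by
    refine le_trans (mul_le_mul_of_nonneg_left ?_ hb0) hw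
    have : (d : ℝ) ≤ n := by exact_mod_cast hdn
    gcongr
  have hd' : (7 : ℝ) ≤ d := by exact_mod_cast hd
  have h3 : 6 * b ≤ ‖1 - ((w ^ d : Circle) : ℂ)‖ := by nlinarith
  have h4 : ‖1 - ((w ^ d : Circle) : ℂ)‖ ≤
      ‖1 - ((z * w ^ m : Circle) : ℂ)‖ + ‖1 - ((z * w ^ (m + d) : Circle) : ℂ)‖ := by
    have e1 : ‖1 - ((w ^ d : Circle) : ℂ)‖ =
        ‖((z * w ^ m : Circle) : ℂ) * (1 - ((w ^ d : Circle) : ℂ))‖ := by
      rw [norm_mul, Circle.norm_coe, one_mul]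
    have e2 : ((z * w ^ m : Circle) : ℂ) * (1 - ((w ^ d : Circle) : ℂ)) =
        (1 - ((z * w ^ (m + d) : Circle) : ℂ)) - (1 - ((z * w ^ m : Circle) : ℂ)) := by
      simp only [Circle.coe_mul, Circle.coe_pow, pow_add]
      ring
    rw [e1, e2]
    refine (norm_sub_le _ _).trans ?_
    linarith
  by_contra hcon
  push Not at hcon
  have h5 : ‖1 - ((z * w ^ m : Circle) : ℂ)‖ < 3 * b := by
    by_contra h6
    rw [not_lt] at h6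
    have := hcon.1
    nlinarith [norm_nonneg (1 - ((z * w ^ m : Circle) : ℂ))]
  have h6 : ‖1 - ((z * w ^ (m + d) : Circle) : ℂ)‖ < 3 * b := by
    by_contra h6
    rw [not_lt] at h6
    have := hcon.2
    nlinarith [norm_nonneg (1 - ((z * w ^ (m + d) : Circle) : ℂ))]
  linarith

/-- The three terms. -/
lemma three_terms {z w : Circle} {n : ℕ} (hn : 7 ≤ n) (hw : ‖1 - (w : ℂ)‖ * (2 * n) ^ 2 ≤ 1)
    {δ : ℝ} (hδ : 0 < δ) (K : ℕ) :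
    ‖1 - (w : ℂ)‖ ^ 2 * Rr δ K (‖1 - ((z * w ^ 0 : Circle) : ℂ)‖ ^ 2 + ‖1 - (w : ℂ)‖ ^ 2) +
    ‖1 - (w : ℂ)‖ ^ 2 * Rr δ K (‖1 - ((z * w ^ n : Circle) : ℂ)‖ ^ 2 + ‖1 - (w : ℂ)‖ ^ 2) +
    ‖1 - (w : ℂ)‖ ^ 2 * Rr δ K (‖1 - ((z * w ^ (2 * n) : Circle) : ℂ)‖ ^ 2 + ‖1 - (w : ℂ)‖ ^ 2) ≤
      6 / 5 := by
  have hw' : ‖1 - (w : ℂ)‖ * ((2 * n : ℕ) : ℝ) ^ 2 ≤ 1 := by
    push_cast
    exact hw
  have s1 := sep (z := z) (w := w) (m := 0) (d := n) (n := 2 * n) hn (by omega) hw'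
  have s2 := sep (z := z) (w := w) (m := 0) (d := 2 * n) (n := 2 * n) (by omega) le_rfl hw'
  have s3 := sep (z := z) (w := w) (m := n) (d := n) (n := 2 * n) hn (by omega) hw'
  rw [zero_add] at s1 s2
  rw [← two_mul] at s3
  have k1 : ∀ x : Circle, ‖1 - (w : ℂ)‖ ^ 2 * Rr δ K (‖1 - (x : ℂ)‖ ^ 2 + ‖1 - (w : ℂ)‖ ^ 2) ≤ 1 := by
    intro x
    have a1 := norm_one_sub_le x
    have a2 := norm_one_sub_le w
    have a3 := norm_nonneg (1 - (x : ℂ))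
    have a4 := norm_nonneg (1 - (w : ℂ))
    apply mul_Rr_le hδ K (by nlinarith) zero_le_one
    nlinarith
  have k2 : ∀ x : Circle, 9 * ‖1 - (w : ℂ)‖ ^ 2 ≤ ‖1 - (x : ℂ)‖ ^ 2 →
      ‖1 - (w : ℂ)‖ ^ 2 * Rr δ K (‖1 - (x : ℂ)‖ ^ 2 + ‖1 - (w : ℂ)‖ ^ 2) ≤ 1 / 10 := by
    intro x hx
    have a1 := norm_one_sub_le x
    have a2 := norm_one_sub_le w
    have a3 := norm_nonneg (1 - (x : ℂ))
    have a4 := norm_nonneg (1 - (w : ℂ))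
    apply mul_Rr_le hδ K (by nlinarith) (by norm_num)
    nlinarith
  have b0 := k1 (z * w ^ 0)
  have b1 := k1 (z * w ^ n)
  have b2 := k1 (z * w ^ (2 * n))
  rcases s1 with s1 | s1 <;> rcases s2 with s2 | s2 <;> rcases s3 with s3 | s3 <;>
    [have c1 := k2 _ s1; have c1 := k2 _ s1; have c1 := k2 _ s1; have c1 := k2 _ s1;
     have c1 := k2 _ s1; have c1 := k2 _ s1; have c1 := k2 _ s1; have c1 := k2 _ s1] <;>
    have c2 := k2 _ s2 <;> have c3 := k2 _ s3 <;> linarith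

end circle

section poly

/-- The polynomial `R (T)`. -/
noncomputable def RL (δ : ℝ) (K : ℕ) (T : LL) : LL :=
  ∑ k ∈ range K, (((8 + δ)⁻¹ ^ (k + 1) : ℝ) : ℂ) • (((8 : ℝ) : ℂ) • (1 : LL) - T) ^ k

lemma ev_RL {z w : Circle} {T : LL} {t : ℝ} (hT : ev z w T = (t : ℂ)) (δ : ℝ) (K : ℕ) :
    ev z w (RL δ K T) = ((Rr δ K t : ℝ) : ℂ) := by
  unfold RL Rr
  rw [map_sum, Complex.ofReal_sum]
  refine sum_congr rfl fun k _ => ?_
  rw [map_smul, map_pow, map_sub, map_smul, map_one, hT, smul_eq_mul, smul_eq_mul]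
  push_cast
  ring

variable {E : Type} [SeminormedAddCommGroup E] [InnerProductSpace ℂ E]
  {U V : E ≃ₗᵢ[ℂ] E} {h : Commute U V}

lemma nice_RL {T : LL} (hT : Nice U V h T) (δ : ℝ) (K : ℕ) : Nice U V h (RL δ K T) :=
  Nice.sum _ fun _ _ => Nice.smul _ (((Nice.one.smul _).sub hT).pow _)

lemma int_RL {W : E ≃ₗᵢ[ℂ] E} {T T' : LL} (hT : Int' U V h W T T') (δ : ℝ) (K : ℕ) :
    Int' U V h W (RL δ K T) (RL δ K T') :=
  Int'.sum _ fun _ _ => Int'.smul _ (((Int'.one.smul _).sub hT).pow _)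

/-- The functions `Y / (X_m + Y + δ)`. -/
noncomputable def hY (δ : ℝ) (K : ℕ) (m : ℕ) : LL := del 0 1 * RL δ K (del 1 m + del 0 1)

/-- The functions `X / (X + Y_m + δ)`. -/
noncomputable def hX (δ : ℝ) (K : ℕ) (m : ℕ) : LL := del 1 0 * RL δ K (del m 1 + del 1 0)

lemma ev_hY (z w : Circle) (δ : ℝ) (K m : ℕ) : ev z w (hY δ K m) =
    ((‖1 - (w : ℂ)‖ ^ 2 * Rr δ K (‖1 - ((z * w ^ m : Circle) : ℂ)‖ ^ 2 + ‖1 - (w : ℂ)‖ ^ 2) : ℝ) :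
      ℂ) := by
  unfold hY
  rw [map_mul, ev_RL (t := ‖1 - ((z * w ^ m : Circle) : ℂ)‖ ^ 2 + ‖1 - (w : ℂ)‖ ^ 2), ev_del,
    zpow_zero, one_mul, zpow_one, ← Complex.ofReal_mul]
  rw [map_add, ev_del, ev_del, zpow_zero, one_mul, zpow_one, zpow_one, zpow_natCast,
    ← Complex.ofReal_add]

lemma ev_hX (z w : Circle) (δ : ℝ) (K m : ℕ) : ev z w (hX δ K m) =
    ((‖1 - (z : ℂ)‖ ^ 2 * Rr δ K (‖1 - ((w * z ^ m : Circle) : ℂ)‖ ^ 2 + ‖1 - (z : ℂ)‖ ^ 2) : ℝ) :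
      ℂ) := by
  unfold hX
  rw [map_mul, ev_RL (t := ‖1 - ((w * z ^ m : Circle) : ℂ)‖ ^ 2 + ‖1 - (z : ℂ)‖ ^ 2), ev_del,
    zpow_zero, mul_one, zpow_one, ← Complex.ofReal_mul]
  rw [map_add, ev_del, ev_del, zpow_zero, mul_one, zpow_one, zpow_one, zpow_natCast,
    ← Complex.ofReal_add, mul_comm w]

lemma nice_hY (δ : ℝ) (K m : ℕ) : Nice U V h (hY δ K m) :=
  (nice_del _ _).mul (nice_RL ((nice_del _ _).add (nice_del _ _)) _ _)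

lemma nice_hX (δ : ℝ) (K m : ℕ) : Nice U V h (hX δ K m) :=
  (nice_del _ _).mul (nice_RL ((nice_del _ _).add (nice_del _ _)) _ _)

lemma bd {δ : ℝ} (hδ : 0 < δ) (K : ℕ) (z w : Circle) :
    |‖1 - (w : ℂ)‖ ^ 2 * Rr δ K (‖1 - (z : ℂ)‖ ^ 2 + ‖1 - (w : ℂ)‖ ^ 2)| ≤ 1 := by
  have a1 := norm_one_sub_le z
  have a2 := norm_one_sub_le w
  have a3 := norm_nonneg (1 - (z : ℂ))
  have a4 := norm_nonneg (1 - (w : ℂ))
  rw [abs_of_nonneg (mul_nonneg (by positivity) (Rr_nonneg hδ K (by nlinarith)))]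
  apply mul_Rr_le hδ K (by nlinarith) zero_le_one
  nlinarith

lemma bd_hY {δ : ℝ} (hδ : 0 < δ) (K m : ℕ) (z w : Circle) : |(ev z w (hY δ K m)).re| ≤ 1 := by
  rw [ev_hY, Complex.ofReal_re]
  exact bd hδ K _ _

lemma bd_hX {δ : ℝ} (hδ : 0 < δ) (K m : ℕ) (z w : Circle) : |(ev z w (hX δ K m)).re| ≤ 1 := by
  rw [ev_hX, Complex.ofReal_re]
  exact bd hδ K _ _

/-- The state of a vector. -/
noncomputable def st (U V : E ≃ₗᵢ[ℂ] E) (h : Commute U V) (ξ : E) (p : LL) : ℝ :=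
  (⟪ξ, op U V h p ξ⟫_ℂ).re

lemma st_add (ξ : E) (p q : LL) : st U V h ξ (p + q) = st U V h ξ p + st U V h ξ q := by
  unfold st
  rw [map_add, LinearMap.add_apply, inner_add_right, Complex.add_re]

lemma st_sub (ξ : E) (p q : LL) : st U V h ξ (p - q) = st U V h ξ p - st U V h ξ q := by
  unfold st
  rw [map_sub, LinearMap.sub_apply, inner_sub_right, Complex.sub_re]

lemma st_smul (ξ : E) (r : ℝ) (p : LL) : st U V h ξ ((r : ℂ) • p) = r * st U V h ξ p := by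
  unfold st
  rw [map_smul, LinearMap.smul_apply, inner_smul_right, Complex.re_ofReal_mul]

lemma st_one {ξ : E} (hξ : ‖ξ‖ = 1) : st U V h ξ 1 = 1 := by
  unfold st
  rw [map_one, Module.End.one_apply]
  have := inner_self_eq_norm_sq (𝕜 := ℂ) ξ
  rw [hξ] at this
  simpa using this

lemma st_sum {κ : Type} (ξ : E) (s : Finset κ) (f : κ → LL) :
    st U V h ξ (∑ k ∈ s, f k) = ∑ k ∈ s, st U V h ξ (f k) := by
  unfold st
  rw [map_sum, LinearMap.sum_apply, inner_sum, Complex.re_sum]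

/-- The first positive element. -/
noncomputable def P1 (δ : ℝ) (K n : ℕ) : LL :=
  ((4 / 5 : ℝ) : ℂ) • 1 - ((1 / 3 : ℝ) : ℂ) • (hY δ K 0 + hY δ K n + hY δ K (2 * n)) -
    ((1 / 3 : ℝ) : ℂ) • (hX δ K 0 + hX δ K n + hX δ K (2 * n)) +
    ((32 * n ^ 4 : ℝ) : ℂ) • (del 1 0 + del 0 1)

lemma P1_nonneg {δ : ℝ} (hδ : 0 < δ) (K : ℕ) {n : ℕ} (hn : 7 ≤ n) (z w : Circle) :
    0 ≤ (ev z w (P1 δ K n)).re := by
  unfold P1
  rw [map_add, map_sub, map_sub, map_smul, map_smul, map_smul, map_smul, map_add, map_add, map_add,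
    map_add, map_add, map_one, ev_hY, ev_hY, ev_hY, ev_hX, ev_hX, ev_hX, ev_del, ev_del, zpow_zero,
    zpow_zero, zpow_one, zpow_one, mul_one, one_mul]
  simp only [smul_eq_mul, ← Complex.ofReal_mul, ← Complex.ofReal_add, Complex.sub_re,
    Complex.add_re, Complex.ofReal_re, mul_one]
  have hn' : (7 : ℝ) ≤ n := by exact_mod_cast hn
  have a3 := norm_nonneg (1 - (z : ℂ))
  have a4 := norm_nonneg (1 - (w : ℂ))
  have b1 := abs_le.1 (bd hδ K (z * w ^ 0) w)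
  have b2 := abs_le.1 (bd hδ K (z * w ^ n) w)
  have b3 := abs_le.1 (bd hδ K (z * w ^ (2 * n)) w)
  have b4 := abs_le.1 (bd hδ K (w * z ^ 0) z)
  have b5 := abs_le.1 (bd hδ K (w * z ^ n) z)
  have b6 := abs_le.1 (bd hδ K (w * z ^ (2 * n)) z)
  have hn4 : (0 : ℝ) < 32 * (n : ℝ) ^ 4 := by positivity
  by_cases h1 : ‖1 - (w : ℂ)‖ * (2 * n) ^ 2 ≤ 1
  · have c1 := three_terms (z := z) (w := w) hn h1 hδ K
    by_cases h2 : ‖1 - (z : ℂ)‖ * (2 * n) ^ 2 ≤ 1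
    · have c2 := three_terms (z := w) (w := z) hn h2 hδ K
      have c3 : 0 ≤ 32 * (n : ℝ) ^ 4 * (‖1 - (z : ℂ)‖ ^ 2 + ‖1 - (w : ℂ)‖ ^ 2) := by positivity
      linarith
    · rw [not_le] at h2
      have c4 : 2 ≤ 32 * (n : ℝ) ^ 4 * ‖1 - (z : ℂ)‖ ^ 2 := by
        have : 32 * (n : ℝ) ^ 4 * ‖1 - (z : ℂ)‖ ^ 2 = 2 * (‖1 - (z : ℂ)‖ * (2 * n) ^ 2) ^ 2 := by
          ring
        rw [this]
        nlinarith
      have c5 : 0 ≤ 32 * (n : ℝ) ^ 4 * ‖1 - (w : ℂ)‖ ^ 2 := by positivity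
      linarith
  · rw [not_le] at h1
    have c4 : 2 ≤ 32 * (n : ℝ) ^ 4 * ‖1 - (w : ℂ)‖ ^ 2 := by
      have : 32 * (n : ℝ) ^ 4 * ‖1 - (w : ℂ)‖ ^ 2 = 2 * (‖1 - (w : ℂ)‖ * (2 * n) ^ 2) ^ 2 := by
        ring
      rw [this]
      nlinarith
    have c5 : 0 ≤ 32 * (n : ℝ) ^ 4 * ‖1 - (z : ℂ)‖ ^ 2 := by positivity
    linarith

end poly

end Pool.Agent.Run7.h25.HA
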