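import Pool.Agent.Run7.h25.HA.Rel

/-!
# Relative property (T), the main step
-/

set_option autoImplicit false

namespace Pool.Agent.Run7.h25.HA

open Finset
open scoped InnerProductSpace

variable {E : Type} [SeminormedAddCommGroup E] [InnerProductSpace ℂ E]
  {U V : E ≃ₗᵢ[ℂ] E} {h : Commute U V}

/-- The second positive element. -/
noncomputable def P2 (δ : ℝ) (K k : ℕ) : LL :=
  ((1 / 100 : ℝ) : ℂ) • 1 + ((4 / 40 ^ 2 : ℝ) : ℂ) •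
    (∑ i ∈ range 40, ∑ j ∈ range 40, mu ((k : ℤ) * ((i : ℤ) - j)) 0) - (1 - hY δ K 0 - hX δ K 0)

lemma P2_nonneg {k : ℕ} (hk : 0 < k) :
    ∃ (δ : ℝ) (_ : 0 < δ) (K : ℕ), ∀ z w : Circle, 0 ≤ (ev z w (P2 δ K k)).re := by
  have hk' : (0 : ℝ) < k := by exact_mod_cast hk
  obtain ⟨s, hs⟩ : ∃ s : ℝ, s = 1 / (80 * k) := ⟨_, rfl⟩
  have hs0 : 0 < s := by rw [hs]; positivity
  obtain ⟨δ, hδ⟩ : ∃ δ : ℝ, δ = s ^ 2 / 200 := ⟨_, rfl⟩
  have hδ0 : 0 < δ := by rw [hδ]; positivity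
  have hr : 8 / (8 + δ) < 1 := by
    rw [div_lt_one (by positivity)]
    linarith
  obtain ⟨K, hK⟩ := exists_pow_lt_of_lt_one (show (0 : ℝ) < 1 / 200 by norm_num) hr
  refine ⟨δ, hδ0, K, fun z w => ?_⟩
  unfold P2
  rw [map_sub, map_add, map_smul, map_smul, map_sub, map_sub, map_one, map_sum, ev_hY, ev_hX,
    pow_zero, pow_zero, mul_one, mul_one]
  have e1 : ∑ i ∈ range 40, ev z w (∑ j ∈ range 40, mu ((k : ℤ) * ((i : ℤ) - j)) 0) =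
      ((‖∑ i ∈ range 40, (((z ^ k) ^ i : Circle) : ℂ)‖ ^ 2 : ℝ) : ℂ) := by
    rw [← Complex.normSq_eq_norm_sq, ← Complex.mul_conj, map_sum, sum_mul_sum]
    refine sum_congr rfl fun i _ => ?_
    rw [map_sum]
    refine sum_congr rfl fun j _ => ?_
    rw [ev_mu, ← Circle.coe_inv_eq_conj, ← Circle.coe_mul, zpow_zero, mul_one]
    congr 1
    rw [← zpow_natCast, ← zpow_natCast, ← zpow_natCast, ← zpow_mul, ← zpow_mul, ← zpow_neg,
      ← zpow_add]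
    congr 1
    ring
  rw [e1]
  simp only [smul_eq_mul, ← Complex.ofReal_mul, Complex.sub_re, Complex.add_re, Complex.ofReal_re,
    Complex.one_re, mul_one]
  obtain ⟨x, hx⟩ : ∃ x, x = ‖1 - (z : ℂ)‖ := ⟨_, rfl⟩
  obtain ⟨y, hy⟩ : ∃ y, y = ‖1 - (w : ℂ)‖ := ⟨_, rfl⟩
  have x0 : 0 ≤ x := hx ▸ norm_nonneg _
  have y0 : 0 ≤ y := hy ▸ norm_nonneg _
  have x2 : x ≤ 2 := hx ▸ norm_one_sub_le z
  have y2 : y ≤ 2 := hy ▸ norm_one_sub_le w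
  rw [← hx, ← hy, add_comm (y ^ 2) (x ^ 2)]
  obtain ⟨R, hR⟩ : ∃ R, R = Rr δ K (x ^ 2 + y ^ 2) := ⟨_, rfl⟩
  have hT8 : x ^ 2 + y ^ 2 ≤ 8 := by nlinarith
  have hR0 : 0 ≤ R := hR ▸ Rr_nonneg hδ0 K hT8
  have hR1 := Rr_eq hδ0 K (x ^ 2 + y ^ 2)
  rw [← hR] at hR1 ⊢
  by_cases hxs : x ≤ s
  · have e2 : (1 / 2 * 40 : ℝ) ≤ ‖∑ i ∈ range 40, (((z ^ k) ^ i : Circle) : ℂ)‖ := by
      have h1 := norm_sum_pow_ge (z ^ k) 40
      have h2 := norm_one_sub_pow_le z k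
      rw [← hx] at h2
      have h3 : (k : ℝ) * x ≤ 1 / 80 := by
        calc (k : ℝ) * x ≤ k * s := mul_le_mul_of_nonneg_left hxs hk'.le
          _ = 1 / 80 := by rw [hs]; field_simp
      push_cast at h1 h2 ⊢
      linarith
    have e3 : (20 : ℝ) ^ 2 ≤ ‖∑ i ∈ range 40, (((z ^ k) ^ i : Circle) : ℂ)‖ ^ 2 := by
      apply pow_le_pow_left₀ (by norm_num)
      linarith
    have e4 : 0 ≤ y ^ 2 * R := by positivity
    have e5 : 0 ≤ x ^ 2 * R := by positivity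
    linarith
  · rw [not_le] at hxs
    have e2 : δ * R ≤ 1 / 200 := by
      rw [hR]
      apply mul_Rr_le hδ0 K hT8 (by norm_num)
      rw [hδ]
      nlinarith
    have e3 : ((8 - (x ^ 2 + y ^ 2)) / (8 + δ)) ^ K ≤ 1 / 200 := by
      refine le_trans (pow_le_pow_left₀ (ratio_nonneg hδ0 hT8) (ratio_le hδ0 (by positivity)) K) hK.le
    have e4 : 0 ≤ ‖∑ i ∈ range 40, (((z ^ k) ^ i : Circle) : ℂ)‖ ^ 2 := by positivity
    have e5 : (x ^ 2 + y ^ 2 + δ) * R = y ^ 2 * R + x ^ 2 * R + δ * R := by ring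
    rw [e5] at hR1
    linarith

lemma st_del (ξ : E) (a b : ℤ) : st U V h ξ (del a b) = ‖(U ^ a) ((V ^ b) ξ) - ξ‖ ^ 2 := re_del ξ a b

/-- **Relative property (T).** -/
theorem rel_T {A B : E ≃ₗᵢ[ℂ] E} (h : Commute U V) {n : ℕ} (hn : 7 ≤ n)
    (hAU : A * U = U * V ^ n * A) (hAV : A * V = V * A)
    (hBV : B * V = V * U ^ n * B) (hBU : B * U = U * B) {ξ : E} (hξ : ‖ξ‖ = 1) {ε : ℝ}
    (hε : 100 * n ^ 2 * ε ≤ 1) (eU : ‖U ξ - ξ‖ ≤ ε) (eV : ‖V ξ - ξ‖ ≤ ε)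
    (eA : ‖A ξ - ξ‖ ≤ ε) (eB : ‖B ξ - ξ‖ ≤ ε)
    (hc : ∃ k0 : ℕ, ∀ k : ℤ, (k0 : ℤ) ≤ |k| → (⟪ξ, (U ^ k) ξ⟫_ℂ).re ≤ 1 / 1000) : False := by
  obtain ⟨k0, hk0⟩ := hc
  obtain ⟨δ, hδ, K, hP2⟩ := P2_nonneg (k := k0 + 1) (Nat.succ_pos _)
  have q1 := pos_of h (P1 δ K n) (P1_nonneg hδ K hn) ξ
  have q2 := pos_of h (P2 δ K (k0 + 1)) hP2 ξ
  change 0 ≤ st U V h ξ (P1 δ K n) at q1
  change 0 ≤ st U V h ξ (P2 δ K (k0 + 1)) at q2
  have hε0 : 0 ≤ ε := (norm_nonneg _).trans eU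
  -- intertwining relations
  have hA1 : U ^ (1 : ℤ) * V ^ ((n : ℕ) : ℤ) * A = A * (U ^ (1 : ℤ) * V ^ ((0 : ℕ) : ℤ)) := by
    rw [zpow_one, zpow_natCast, Nat.cast_zero, zpow_zero, mul_one, hAU]
  have hAVn : ∀ m : ℕ, A * V ^ m = V ^ m * A := fun m => (Commute.pow_right hAV m).eq
  have hBUn : ∀ m : ℕ, B * U ^ m = U ^ m * B := fun m => (Commute.pow_right hBU m).eq
  have hA2 : U ^ (1 : ℤ) * V ^ ((2 * n : ℕ) : ℤ) * (A * A) =
      A * A * (U ^ (1 : ℤ) * V ^ ((0 : ℕ) : ℤ)) := by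
    rw [zpow_one, zpow_natCast, Nat.cast_zero, zpow_zero, mul_one, mul_assoc A A U, hAU,
      ← mul_assoc A, ← mul_assoc A, hAU, mul_assoc (U * V ^ n) A (V ^ n), hAVn, two_mul, pow_add]
    simp only [mul_assoc]
  have hB1 : U ^ ((n : ℕ) : ℤ) * V ^ (1 : ℤ) * B = B * (U ^ ((0 : ℕ) : ℤ) * V ^ (1 : ℤ)) := by
    rw [zpow_one, zpow_natCast, Nat.cast_zero, zpow_zero, one_mul, hBV, (h.pow_left n).eq]
  have hB2 : U ^ ((2 * n : ℕ) : ℤ) * V ^ (1 : ℤ) * (B * B) =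
      B * B * (U ^ ((0 : ℕ) : ℤ) * V ^ (1 : ℤ)) := by
    rw [zpow_one, zpow_natCast, Nat.cast_zero, zpow_zero, one_mul, mul_assoc B B V, hBV,
      ← mul_assoc B, ← mul_assoc B, hBV, mul_assoc (V * U ^ n) B (U ^ n), hBUn, two_mul, pow_add,
      (h.pow_left n).eq.symm]
    simp only [mul_assoc]
    congr 1
    rw [← mul_assoc, ← mul_assoc, (h.pow_left n).eq]
    simp only [mul_assoc]
  have hAY : ∀ W : E ≃ₗᵢ[ℂ] E, W * V = V * W → Int' U V h W (del 0 1) (del 0 1) := by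
    intro W hW
    apply int_del
    rw [zpow_zero, zpow_one, one_mul, hW]
  have hBX : ∀ W : E ≃ₗᵢ[ℂ] E, W * U = U * W → Int' U V h W (del 1 0) (del 1 0) := by
    intro W hW
    apply int_del
    rw [zpow_zero, zpow_one, mul_one, hW]
  have hAAV : A * A * V = V * (A * A) := (Commute.mul_left (hAV : Commute A V) hAV).eq
  have hBBU : B * B * U = U * (B * B) := (Commute.mul_left (hBU : Commute B U) hBU).eq
  have iY1 : Int' U V h A (hY δ K 0) (hY δ K n) :=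
    (hAY A hAV).mul (int_RL ((int_del hA1).add (hAY A hAV)) _ _)
  have iY2 : Int' U V h (A * A) (hY δ K 0) (hY δ K (2 * n)) :=
    (hAY _ hAAV).mul (int_RL ((int_del hA2).add (hAY _ hAAV)) _ _)
  have iX1 : Int' U V h B (hX δ K 0) (hX δ K n) :=
    (hBX B hBU).mul (int_RL ((int_del hB1).add (hBX B hBU)) _ _)
  have iX2 : Int' U V h (B * B) (hX δ K 0) (hX δ K (2 * n)) :=
    (hBX _ hBBU).mul (int_RL ((int_del hB2).add (hBX _ hBBU)) _ _)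
  have eAA : ‖(A * A) ξ - ξ‖ ≤ 2 * ε := by
    have e1 : (A * A) ξ - ξ = A (A ξ - ξ) + (A ξ - ξ) := by
      rw [map_sub]
      change A (A ξ) - ξ = _
      abel
    rw [e1]
    refine (norm_add_le _ _).trans ?_
    rw [LinearIsometryEquiv.norm_map]
    linarith
  have eBB : ‖(B * B) ξ - ξ‖ ≤ 2 * ε := by
    have e1 : (B * B) ξ - ξ = B (B ξ - ξ) + (B ξ - ξ) := by
      rw [map_sub]
      change B (B ξ) - ξ = _
      abel
    rw [e1]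
    refine (norm_add_le _ _).trans ?_
    rw [LinearIsometryEquiv.norm_map]
    linarith
  have a1 := iY1.almost (nice_hY δ K n) (bd_hY hδ K n) hξ eA
  have a2 := iY2.almost (nice_hY δ K _) (bd_hY hδ K _) hξ eAA
  have a3 := iX1.almost (nice_hX δ K n) (bd_hX hδ K n) hξ eB
  have a4 := iX2.almost (nice_hX δ K _) (bd_hX hδ K _) hξ eBB
  change st U V h ξ (hY δ K 0) - 2 * ε ≤ st U V h ξ (hY δ K n) at a1
  change st U V h ξ (hY δ K 0) - 2 * (2 * ε) ≤ st U V h ξ (hY δ K (2 * n)) at a2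
  change st U V h ξ (hX δ K 0) - 2 * ε ≤ st U V h ξ (hX δ K n) at a3
  change st U V h ξ (hX δ K 0) - 2 * (2 * ε) ≤ st U V h ξ (hX δ K (2 * n)) at a4
  unfold P1 at q1
  rw [st_add, st_sub, st_sub, st_smul, st_smul, st_smul, st_smul, st_add, st_add, st_add, st_add,
    st_add, st_one hξ, st_del, st_del, zpow_one, zpow_one, zpow_zero, zpow_zero] at q1
  change 0 ≤ 4 / 5 * 1 - 1 / 3 * (st U V h ξ (hY δ K 0) + st U V h ξ (hY δ K n) +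
      st U V h ξ (hY δ K (2 * n))) - 1 / 3 * (st U V h ξ (hX δ K 0) + st U V h ξ (hX δ K n) +
      st U V h ξ (hX δ K (2 * n))) + 32 * (n : ℝ) ^ 4 * (‖U ξ - ξ‖ ^ 2 + ‖V ξ - ξ‖ ^ 2) at q1
  unfold P2 at q2
  rw [st_sub, st_add, st_smul, st_smul, st_sub, st_sub, st_one hξ, st_sum] at q2
  have e2 : ∑ i ∈ range 40, st U V h ξ (∑ j ∈ range 40, mu (((k0 + 1 : ℕ) : ℤ) * ((i : ℤ) - j)) 0) ≤
      40 + 40 ^ 2 / 1000 := by
    have e3 : ∀ i ∈ range 40, st U V h ξ (∑ j ∈ range 40,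
        mu (((k0 + 1 : ℕ) : ℤ) * ((i : ℤ) - j)) 0) ≤ 1 + 40 / 1000 := by
      intro i hi
      rw [st_sum]
      have e4 : ∀ j ∈ range 40, st U V h ξ (mu (((k0 + 1 : ℕ) : ℤ) * ((i : ℤ) - j)) 0) ≤
          (if i = j then 1 else 0) + 1 / 1000 := by
        intro j _
        unfold st
        rw [op_mu, zpow_zero]
        change (⟪ξ, (U ^ (((k0 + 1 : ℕ) : ℤ) * ((i : ℤ) - j))) ξ⟫_ℂ).re ≤ _
        by_cases hij : i = j
        · rw [if_pos hij, hij, sub_self, mul_zero, zpow_zero]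
          change (⟪ξ, ξ⟫_ℂ).re ≤ _
          have := inner_self_eq_norm_sq (𝕜 := ℂ) ξ
          rw [hξ] at this
          have h5 : (⟪ξ, ξ⟫_ℂ).re = 1 := by simpa using this
          rw [h5]
          norm_num
        · rw [if_neg hij, zero_add]
          apply hk0
          rw [abs_mul]
          have h6 : (1 : ℤ) ≤ |(i : ℤ) - j| := Int.one_le_abs (by omega)
          have h7 : |((k0 + 1 : ℕ) : ℤ)| = (k0 : ℤ) + 1 := by
            rw [abs_of_nonneg (by positivity)]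
            push_cast
            rfl
          rw [h7]
          nlinarith
      refine (sum_le_sum e4).trans ?_
      rw [sum_add_distrib, sum_ite_eq, if_pos hi]
      simp
      norm_num
    refine (sum_le_sum e3).trans ?_
    simp
    norm_num
  -- numerical conclusion
  have n7 : (7 : ℝ) ≤ n := by exact_mod_cast hn
  have n49 : (49 : ℝ) ≤ (n : ℝ) ^ 2 := by nlinarith
  have s1 : ‖U ξ - ξ‖ ^ 2 ≤ ε ^ 2 := pow_le_pow_left₀ (norm_nonneg _) eU 2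
  have s2 : ‖V ξ - ξ‖ ^ 2 ≤ ε ^ 2 := pow_le_pow_left₀ (norm_nonneg _) eV 2
  have s3 : 32 * (n : ℝ) ^ 4 * (‖U ξ - ξ‖ ^ 2 + ‖V ξ - ξ‖ ^ 2) ≤ 64 / 10000 := by
    have t1 : 32 * (n : ℝ) ^ 4 * (‖U ξ - ξ‖ ^ 2 + ‖V ξ - ξ‖ ^ 2) ≤ 32 * (n : ℝ) ^ 4 * (ε ^ 2 + ε ^ 2) :=
      mul_le_mul_of_nonneg_left (add_le_add s1 s2) (by positivity)
    have t2 : 32 * (n : ℝ) ^ 4 * (ε ^ 2 + ε ^ 2) = 64 / 10000 * (100 * n ^ 2 * ε) ^ 2 := by ring
    have t3 : (100 * (n : ℝ) ^ 2 * ε) ^ 2 ≤ 1 := by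
      have : 0 ≤ 100 * (n : ℝ) ^ 2 * ε := by positivity
      nlinarith
    rw [t2] at t1
    linarith
  have s4 : ε ≤ 1 / 4900 := by nlinarith
  linarith

end Pool.Agent.Run7.h25.HA
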